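import Pool.Agent.Work.MP_5ce8c0_co.FH.Defs

set_option autoImplicit false

/-!
# FH/Build (M): a weighted laminar family as a `Lam`

PROOF. `I = Σ S : Finset V, Fin (Z S)`, ordered by `(S, k) ≤ (T, l)` iff `S ⊂ T`, or `S = T` and `k ≤ l` (as numbers). `C v = {(S, k) | v ∈ S}`. `up`: clear. `chain`: if `v ∈ S`, `v ∈ T`, then `Z S ≠ 0`, `Z T ≠ 0` (there are elements `k`, `l`), `S`, `T` are not disjoint, so comparable.
`card I = ∑ S, Z S` (`Fintype.card_sigma`, `Fintype.card_fin`). `dd u v = ∑` over the sets `S` which separate `u, v` of `Z S`: `symmDiff (C u) (C v) = {(S, k) | ¬ (u ∈ S ↔ v ∈ S)}`. The set of `i = (S, k)` is nonempty and not everything since `Z ∅ = 0`, `Z univ = 0`.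
-/

namespace Pool.Agent.Work.MP_5ce8c0_co.FH

open Classical

variable {V : Type} [Fintype V]

/-- the index set -/
private def BI (Z : Finset V → ℕ) : Type := Σ S : Finset V, Fin (Z S)

private noncomputable instance bfin (Z : Finset V → ℕ) : Fintype (BI Z) :=
  inferInstanceAs (Fintype (Σ S : Finset V, Fin (Z S)))

/-- the order on the index set -/
@[reducible] private def bord (Z : Finset V → ℕ) : PartialOrder (BI Z) where
  le i j := i.1 ⊂ j.1 ∨ (i.1 = j.1 ∧ i.2.val ≤ j.2.val)
  le_refl i := Or.inr ⟨rfl, le_rfl⟩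
  le_trans i j k hij hjk := by
    rcases hij with h1 | ⟨h1, h2⟩
    · rcases hjk with h3 | ⟨h3, h4⟩
      · exact Or.inl (h1.trans h3)
      · left
        rw [← h3]
        exact h1
    · rcases hjk with h3 | ⟨h3, h4⟩
      · left
        rw [h1]
        exact h3
      · exact Or.inr ⟨h1.trans h3, h2.trans h4⟩
  le_antisymm i j hij hji := by
    rcases hij with h1 | ⟨h1, h2⟩
    · rcases hji with h3 | ⟨h3, h4⟩
      · exact absurd (h1.trans h3) (ssubset_irrefl _)
      · rw [h3] at h1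
        exact absurd h1 (ssubset_irrefl _)
    · rcases hji with h3 | ⟨h3, h4⟩
      · rw [h1] at h3
        exact absurd h3 (ssubset_irrefl _)
      · obtain ⟨S, k⟩ := i
        obtain ⟨T, l⟩ := j
        dsimp only at h1 h2 h3 h4
        subst h1
        have : k = l := Fin.ext (le_antisymm h2 h4)
        rw [this]

private theorem bcard (Z : Finset V → ℕ) (u v : V) :
    (Finset.univ.filter (fun i : (Σ S : Finset V, Fin (Z S)) => ¬ (u ∈ i.1 ↔ v ∈ i.1))).card =
      ∑ S ∈ Finset.univ.filter (fun S : Finset V => ¬ (u ∈ S ↔ v ∈ S)), Z S := by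
  have h3 : Finset.univ.filter (fun i : (Σ S : Finset V, Fin (Z S)) => ¬ (u ∈ i.1 ↔ v ∈ i.1)) =
      (Finset.univ.filter (fun S : Finset V => ¬ (u ∈ S ↔ v ∈ S))).sigma
        fun S => (Finset.univ : Finset (Fin (Z S))) := by
    ext i
    rw [Finset.mem_filter, Finset.mem_sigma, Finset.mem_filter]
    exact ⟨fun h => ⟨⟨Finset.mem_univ _, h.2⟩, Finset.mem_univ _⟩,
      fun h => ⟨Finset.mem_univ _, h.1.2⟩⟩
  rw [h3, Finset.card_sigma]
  refine Finset.sum_congr rfl fun S _ => ?_
  rw [Finset.card_univ, Fintype.card_fin]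

theorem build (Z : Finset V → ℕ) (h0 : Z ∅ = 0) (h1 : Z Finset.univ = 0)
    (hl : ∀ S T, Z S ≠ 0 → Z T ≠ 0 → S ⊆ T ∨ T ⊆ S ∨ Disjoint S T) :
    ∃ (I : Type) (_ : PartialOrder I) (_ : Fintype I) (T : Lam V I), Fintype.card I = ∑ S, Z S ∧
      (∀ u v, T.dd u v = ∑ S ∈ Finset.univ.filter (fun S : Finset V => ¬ (u ∈ S ↔ v ∈ S)), Z S) ∧
      ∀ i, (∃ a, i ∈ T.C a) ∧ ∃ b, i ∉ T.C b := by
  have hpos : ∀ i : BI Z, Z i.1 ≠ 0 := fun i => (i.2.pos).ne'
  let _ : PartialOrder (BI Z) := bord Z
  have hle : ∀ i j : BI Z, i ≤ j ↔ i.1 ⊂ j.1 ∨ (i.1 = j.1 ∧ i.2.val ≤ j.2.val) :=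
    fun i j => Iff.rfl
  have hmem : ∀ (v : V) (i : BI Z), i ∈ Finset.univ.filter (fun i : BI Z => v ∈ i.1) ↔ v ∈ i.1 := by
    intro v i
    rw [Finset.mem_filter]
    exact ⟨fun h => h.2, fun h => ⟨Finset.mem_univ _, h⟩⟩
  refine ⟨BI Z, bord Z, bfin Z, ⟨fun v => Finset.univ.filter (fun i : BI Z => v ∈ i.1), ?_, ?_⟩,
    ?_, ?_, ?_⟩
  · intro v i j hi hij
    rw [hmem] at hi ⊢
    rcases (hle i j).1 hij with h | ⟨h, -⟩
    · exact h.1 hi
    · rw [← h]
      exact hi
  · intro v i j hi hj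
    rw [hmem] at hi hj
    rcases hl i.1 j.1 (hpos i) (hpos j) with h | h | h
    · rcases h.eq_or_ssubset with e | e
      · rcases le_total i.2.val j.2.val with k | k
        · exact Or.inl ((hle i j).2 (Or.inr ⟨e, k⟩))
        · exact Or.inr ((hle j i).2 (Or.inr ⟨e.symm, k⟩))
      · exact Or.inl ((hle i j).2 (Or.inl e))
    · rcases h.eq_or_ssubset with e | e
      · rcases le_total i.2.val j.2.val with k | k
        · exact Or.inl ((hle i j).2 (Or.inr ⟨e.symm, k⟩))
        · exact Or.inr ((hle j i).2 (Or.inr ⟨e, k⟩))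
      · exact Or.inr ((hle j i).2 (Or.inl e))
    · exact absurd hj (Finset.disjoint_left.1 h hi)
  · have h2 : Fintype.card (BI Z) = Fintype.card (Σ S : Finset V, Fin (Z S)) := rfl
    rw [h2, Fintype.card_sigma]
    exact Finset.sum_congr rfl fun S _ => Fintype.card_fin _
  · intro u v
    unfold Lam.dd
    have h2 : symmDiff (Finset.univ.filter (fun i : BI Z => u ∈ i.1))
        (Finset.univ.filter (fun i : BI Z => v ∈ i.1)) =
        Finset.univ.filter (fun i : BI Z => ¬ (u ∈ i.1 ↔ v ∈ i.1)) := by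
      ext i
      rw [Finset.mem_symmDiff, hmem, hmem, Finset.mem_filter]
      constructor
      · intro h
        refine ⟨Finset.mem_univ _, ?_⟩
        tauto
      · intro h
        have := h.2
        tauto
    exact (congrArg Finset.card h2).trans (bcard Z u v)
  · intro i
    constructor
    · have h2 : i.1.Nonempty := by
        rw [Finset.nonempty_iff_ne_empty]
        intro e
        have := hpos i
        rw [e] at this
        exact this h0
      obtain ⟨a, ha⟩ := h2
      exact ⟨a, (hmem a i).2 ha⟩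
    · have h2 : i.1 ≠ Finset.univ := by
        intro e
        have := hpos i
        rw [e] at this
        exact this h1
      by_contra h
      push Not at h
      apply h2
      rw [Finset.eq_univ_iff_forall]
      intro b
      exact (hmem b i).1 (h b)

end Pool.Agent.Work.MP_5ce8c0_co.FH
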