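import Mathlib

set_option autoImplicit false

/-!
# FH/Farkas (M): the lemma of Farkas over the rational numbers (Fourier - Motzkin elimination)

`farkas_free`: induction on `n`. `n = 0`: either all `b i ≤ 0` (take the empty `x`) or some `b i > 0` (take `y` = indicator of `i`). Step `n → n + 1`: let `a i = A i (last)`. New system in `n` variables, indexed by
`{i // a i = 0} ⊕ ({i // 0 < a i} × {k // a k < 0})`: the rows `A i`, `b i` for `a i = 0`, and `a i * A k - a k * A i` (with `- a k > 0`: the combination `(- a k) * row i + a i * row k`, whose last coefficient is `0`). If it has a solution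
`x`, then for `0 < a i`, `a k < 0`: `(b i - ∑ A i j x j) / a i ≤ (b k - ∑ A k j x j) / a k`, so there is a value `t` of the last variable between the maximum of the left sides and the minimum of the right sides (finite sets;
if one of them is empty take any large or small value: `exists_between_finsets`-like; `Finset.exists_max_image`...). If it has a certificate `y'`, push it forward to a certificate of the original system (nonnegative combination of rows).
`farkas`: apply `farkas_free` to the rows `A` and the `n` additional rows `x j ≥ 0` (index `m ⊕ Fin n` or `m ⊕ n` after reindexing `n ≃ Fin (card n)`); the multipliers of the additional rows are dropped: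
`∑ i, y i * A i j = - (multiplier of x j ≥ 0) ≤ 0`.
(Any other proof is fine.)
-/

namespace Pool.Agent.Work.MP_5ce8c0_co.FH

open Classical

private noncomputable def cf {m : Type} (a : m → ℚ) :
    ({i : m // a i = 0} ⊕ ({i : m // 0 < a i} × {k : m // a k < 0})) → m → ℚ
  | Sum.inl i' => fun i => if i = i'.1 then 1 else 0
  | Sum.inr p => fun i => (if i = p.1.1 then - a p.2.1 else 0) + (if i = p.2.1 then a p.1.1 else 0)

private theorem cf_nonneg {m : Type} (a : m → ℚ)
    (p : {i : m // a i = 0} ⊕ ({i : m // 0 < a i} × {k : m // a k < 0})) (i : m) : 0 ≤ cf a p i := by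
  rcases p with i' | ⟨⟨i1, h1⟩, ⟨k, hk⟩⟩
  · simp only [cf]
    split_ifs <;> norm_num
  · simp only [cf]
    have e1 : 0 ≤ (if i = i1 then - a k else (0 : ℚ)) := by
      split_ifs
      · linarith
      · exact le_refl _
    have e2 : 0 ≤ (if i = k then a i1 else (0 : ℚ)) := by
      split_ifs
      · linarith
      · exact le_refl _
    linarith

private theorem cf_sum_inl {m : Type} [Fintype m] (a g : m → ℚ) (i' : {i : m // a i = 0}) :
    ∑ i, cf a (Sum.inl i') i * g i = g i'.1 := by
  simp [cf]

private theorem cf_sum_inr {m : Type} [Fintype m] (a g : m → ℚ)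
    (p : {i : m // 0 < a i} × {k : m // a k < 0}) :
    ∑ i, cf a (Sum.inr p) i * g i = - a p.2.1 * g p.1.1 + a p.1.1 * g p.2.1 := by
  simp [cf, add_mul, Finset.sum_add_distrib]

private theorem swap_sum {m M : Type} [Fintype m] [Fintype M] (y : M → ℚ) (C : M → m → ℚ)
    (g : m → ℚ) : ∑ i, (∑ p, y p * C p i) * g i = ∑ p, y p * ∑ i, C p i * g i := by
  simp_rw [Finset.sum_mul, Finset.mul_sum]
  rw [Finset.sum_comm]
  refine Finset.sum_congr rfl fun p _ => Finset.sum_congr rfl fun i _ => ?_
  ring

private theorem exists_mid {m : Type} [Fintype m] (a r : m → ℚ)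
    (h : ∀ i k, 0 < a i → a k < 0 → r i / a i ≤ r k / a k) :
    ∃ t : ℚ, (∀ i, 0 < a i → r i / a i ≤ t) ∧ (∀ k, a k < 0 → t ≤ r k / a k) := by
  by_cases hp : (Finset.univ.filter fun i => 0 < a i).Nonempty
  · obtain ⟨i0, hi0, hmax⟩ := Finset.exists_max_image _ (fun i => r i / a i) hp
    rw [Finset.mem_filter] at hi0
    refine ⟨r i0 / a i0, fun i hi => hmax i (by simp [hi]), fun k hk => h i0 k hi0.2 hk⟩
  · by_cases hn : (Finset.univ.filter fun i => a i < 0).Nonempty
    · obtain ⟨k0, hk0, hmin⟩ := Finset.exists_min_image _ (fun i => r i / a i) hn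
      refine ⟨r k0 / a k0, fun i hi => ?_, fun k hk => hmin k (by simp [hk])⟩
      exact absurd ⟨i, by simp [hi]⟩ hp
    · refine ⟨0, fun i hi => absurd ⟨i, by simp [hi]⟩ hp, fun k hk => absurd ⟨k, by simp [hk]⟩ hn⟩

theorem farkas_free (n : ℕ) : ∀ (m : Type) [Fintype m] (A : m → Fin n → ℚ) (b : m → ℚ),
    (∃ x : Fin n → ℚ, ∀ i, b i ≤ ∑ j, A i j * x j) ∨
    ∃ y : m → ℚ, (∀ i, 0 ≤ y i) ∧ (∀ j, ∑ i, y i * A i j = 0) ∧ 0 < ∑ i, y i * b i := by
  induction n with
  | zero =>
    intro m _ A b
    by_cases h : ∃ i, 0 < b i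
    · obtain ⟨i0, hi0⟩ := h
      right
      refine ⟨fun i => if i = i0 then 1 else 0, fun i => ?_, fun j => j.elim0, ?_⟩
      · show (0:ℚ) ≤ if i = i0 then 1 else 0
        split_ifs <;> norm_num
      · simpa using hi0
    · left
      push Not at h
      exact ⟨fun j => j.elim0, fun i => by simpa using h i⟩
  | succ n ih =>
    intro m _ A b
    set a : m → ℚ := fun i => A i (Fin.last n) with ha
    let A' : ({i : m // a i = 0} ⊕ ({i : m // 0 < a i} × {k : m // a k < 0})) → Fin n → ℚ :=
      fun p j => ∑ i, cf a p i * A i (Fin.castSucc j)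
    let b' : ({i : m // a i = 0} ⊕ ({i : m // 0 < a i} × {k : m // a k < 0})) → ℚ :=
      fun p => ∑ i, cf a p i * b i
    rcases ih _ A' b' with ⟨x, hx⟩ | ⟨y, hy0, hy1, hy2⟩
    · left
      set S : m → ℚ := fun i => ∑ j, A i (Fin.castSucc j) * x j with hS
      have hA' : ∀ p, ∑ j, A' p j * x j = ∑ i, cf a p i * S i := by
        intro p
        simp only [A', hS]
        simp_rw [Finset.sum_mul, Finset.mul_sum]
        rw [Finset.sum_comm]
        refine Finset.sum_congr rfl fun i _ => Finset.sum_congr rfl fun j _ => ?_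
        ring
      have hr : ∀ i k, 0 < a i → a k < 0 → (b i - S i) / a i ≤ (b k - S k) / a k := by
        intro i k hi hk
        have h1 := hx (Sum.inr (⟨i, hi⟩, ⟨k, hk⟩))
        rw [hA'] at h1
        simp only [b'] at h1
        rw [cf_sum_inr, cf_sum_inr] at h1
        simp only at h1
        have hk' : 0 < - a k := by linarith
        have e : (b k - S k) / a k = (-(b k - S k)) / (- a k) := by rw [neg_div_neg_eq]
        rw [e, div_le_div_iff₀ hi hk']
        nlinarith
      obtain ⟨t, ht1, ht2⟩ := exists_mid a (fun i => b i - S i) hr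
      refine ⟨Fin.snoc x t, fun i => ?_⟩
      have hsum : ∑ j, A i j * (Fin.snoc x t : Fin (n + 1) → ℚ) j = S i + a i * t := by
        rw [Fin.sum_univ_castSucc]
        simp only [Fin.snoc_castSucc, Fin.snoc_last, hS, ha]
      rw [hsum]
      rcases lt_trichotomy (a i) 0 with h | h | h
      · have h1 := ht2 i h
        rw [le_div_iff_of_neg h] at h1
        linarith
      · have h1 := hx (Sum.inl ⟨i, h⟩)
        rw [hA'] at h1
        simp only [b'] at h1
        rw [cf_sum_inl, cf_sum_inl] at h1
        rw [h]
        simp only at h1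
        linarith
      · have h1 := ht1 i h
        rw [div_le_iff₀ h] at h1
        linarith
    · right
      refine ⟨fun i => ∑ p, y p * cf a p i, fun i => ?_, fun j => ?_, ?_⟩
      · exact Finset.sum_nonneg fun p _ => mul_nonneg (hy0 p) (cf_nonneg a p i)
      · rw [swap_sum]
        refine Fin.lastCases ?_ (fun j' => ?_) j
        · refine Finset.sum_eq_zero fun p _ => ?_
          have : ∑ i, cf a p i * A i (Fin.last n) = 0 := by
            have e : ∑ i, cf a p i * A i (Fin.last n) = ∑ i, cf a p i * a i := rfl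
            rw [e]
            rcases p with i' | p
            · rw [cf_sum_inl]
              exact i'.2
            · rw [cf_sum_inr]
              ring
          rw [this, mul_zero]
        · exact hy1 j'
      · rw [swap_sum]
        exact hy2

theorem farkas {m n : Type} [Fintype m] [Fintype n] (A : m → n → ℚ) (b : m → ℚ) :
    (∃ x : n → ℚ, (∀ j, 0 ≤ x j) ∧ ∀ i, b i ≤ ∑ j, A i j * x j) ∨
    ∃ y : m → ℚ, (∀ i, 0 ≤ y i) ∧ (∀ j, ∑ i, y i * A i j ≤ 0) ∧ 0 < ∑ i, y i * b i := by
  let e : n ≃ Fin (Fintype.card n) := Fintype.equivFin n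
  let A1 : (m ⊕ n) → Fin (Fintype.card n) → ℚ := fun r j =>
    Sum.elim (fun i => A i (e.symm j)) (fun k => if e.symm j = k then 1 else 0) r
  let b1 : (m ⊕ n) → ℚ := Sum.elim b (fun _ => 0)
  rcases farkas_free (Fintype.card n) (m ⊕ n) A1 b1 with ⟨x, hx⟩ | ⟨y, hy0, hy1, hy2⟩
  · left
    refine ⟨fun k => x (e k), fun k => ?_, fun i => ?_⟩
    · have h := hx (Sum.inr k)
      simp only [b1, A1, Sum.elim_inr] at h
      have h2 : ∑ j, (if e.symm j = k then (1 : ℚ) else 0) * x j = x (e k) := by
        rw [Finset.sum_eq_single (e k)]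
        · simp
        · intro j _ hj
          have : e.symm j ≠ k := fun h3 => hj (by rw [← h3]; simp)
          simp [this]
        · intro h3
          exact absurd (Finset.mem_univ _) h3
      rw [h2] at h
      exact h
    · have h := hx (Sum.inl i)
      simp only [b1, A1, Sum.elim_inl] at h
      have h2 : ∑ j, A i (e.symm j) * x j = ∑ k, A i k * x (e k) := by
        rw [← Equiv.sum_comp e]
        simp
      rw [h2] at h
      exact h
  · right
    refine ⟨fun i => y (Sum.inl i), fun i => hy0 _, fun k => ?_, ?_⟩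
    · have h := hy1 (e k)
      rw [Fintype.sum_sum_type] at h
      simp only [A1, Sum.elim_inl, Sum.elim_inr, Equiv.symm_apply_apply] at h
      have h2 : ∑ k', y (Sum.inr k') * (if k = k' then (1 : ℚ) else 0) = y (Sum.inr k) := by
        simp
      rw [h2] at h
      have := hy0 (Sum.inr k)
      linarith
    · rw [Fintype.sum_sum_type] at hy2
      simp only [b1, Sum.elim_inl, Sum.elim_inr, mul_zero, Finset.sum_const_zero, add_zero] at hy2
      exact hy2

end Pool.Agent.Work.MP_5ce8c0_co.FH
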