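import Pool.Agent.Work.MP_5ce8c0_co.FH.Defs
import Pool.Agent.Work.MP_5ce8c0_co.FH.Farkas

set_option autoImplicit false

/-!
# FH/Cert (M-L): a fractional Hamilton cycle or an integral certificate

PROOF. Apply `farkas` with the variables `n = {q : V × V // G.Adj q.1 q.2}` and the rows `m = V ⊕ V ⊕ {S : Finset V // S.Nonempty ∧ S ≠ univ}`: for `v` (first copy) the number `z (v) = ∑` of the `x q` with `v ∈ {q.1, q.2}` is `≥ 2`, second copy `- z (v) ≥ - 2`,
and for `S` the sum of the `x q` with `¬ (q.1 ∈ S ↔ q.2 ∈ S)` is `≥ 2`. (Coefficients `0, 1, -1`.)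
Solution: `X u v = x (u, v) + x (v, u)` for `G.Adj u v`, `0` otherwise, is a fractional Hamilton cycle; `X u v ≤ 1`: for `G.Adj u v` the cut condition of `{u, v}` (`≠ univ`, more than 4 vertices): `2 ≤ 2 + 2 - 2 X u v`.
Certificate `y`: with `q v = y (second copy of v) - y (first copy of v)` and `Y S = y S ≥ 0` (`0` for `S = ∅`, `univ`): for `G.Adj u v`: `∑_{S separates u, v} Y S ≤ q u + q v`, and `∑ Y S > ∑ q v` (divide `2 ∑ Y - 2 ∑ q > 0` by 2).
Multiply by a common denominator (a positive natural number): now `Y` has values in `ℕ`, `q` in `ℤ`. Put `p v = max (q v) 0`, and add `max (- q v) 0` to `Y {v}` (`{v}` is nonempty and not `univ`). For an edge `u v` the separation number increases by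
`max (- q u) 0 + max (- q v) 0` and `q u + q v + max (- q u) 0 + max (- q v) 0 = p u + p v`; the total increases by `∑ max (- q v) 0`, and `∑ q + ∑ max (- q) 0 = ∑ p`.
-/

namespace Pool.Agent.Work.MP_5ce8c0_co.FH

open Classical

variable {V : Type} [Fintype V]

private theorem ct_denom {ι : Type} [Fintype ι] (y : ι → ℚ) (hy : ∀ i, 0 ≤ y i) :
    ∃ (N : ℕ) (k : ι → ℕ), 0 < N ∧ ∀ i, (N : ℚ) * y i = k i := by
  refine ⟨∏ i, (y i).den, fun i => (∏ j ∈ Finset.univ.erase i, (y j).den) * (y i).num.toNat,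
    Finset.prod_pos fun i _ => (y i).den_pos, fun i => ?_⟩
  rw [← Finset.mul_prod_erase Finset.univ (fun i => (y i).den) (Finset.mem_univ i)]
  have h1 : ((y i).num.toNat : ℤ) = (y i).num := Int.toNat_of_nonneg (Rat.num_nonneg.2 (hy i))
  have h2 : (((y i).num.toNat : ℕ) : ℚ) = ((y i).num : ℚ) := by exact_mod_cast h1
  have h3 : ((y i).den : ℚ) * y i = (y i).num := by
    rw [mul_comm]
    exact Rat.mul_den_eq_num (y i)
  push_cast
  rw [h2, ← h3]
  ring

/-- degree rows. -/
private theorem ct_deg (G : SimpleGraph V) (x : V × V → ℚ) (v : V) :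
    ∑ q : V × V, (if G.Adj q.1 q.2 ∧ (q.1 = v ∨ q.2 = v) then (1 : ℚ) else 0) * x q =
      ∑ u, if G.Adj v u then x (v, u) + x (u, v) else 0 := by
  have h1 : ∀ q : V × V, (if G.Adj q.1 q.2 ∧ (q.1 = v ∨ q.2 = v) then (1 : ℚ) else 0) * x q =
      (if q.1 = v then (if G.Adj q.1 q.2 then x q else 0) else 0) +
        (if q.2 = v then (if G.Adj q.1 q.2 then x q else 0) else 0) := by
    rintro ⟨a, b⟩
    by_cases hadj : G.Adj a b
    · have hne : a ≠ b := hadj.ne
      by_cases ha : a = v
      · have hb : b ≠ v := fun h => hne (ha.trans h.symm)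
        simp [ha, hb]
      · by_cases hb : b = v
        · subst hb
          simp [hadj, ha]
        · simp [ha, hb]
    · simp [hadj]
  rw [Finset.sum_congr rfl fun q _ => h1 q, Finset.sum_add_distrib, Fintype.sum_prod_type,
    Fintype.sum_prod_type_right]
  have h2 : ∑ a : V, ∑ b : V, (if a = v then (if G.Adj a b then x (a, b) else 0) else 0) =
      ∑ b : V, if G.Adj v b then x (v, b) else 0 := by
    rw [Finset.sum_eq_single v]
    · simp
    · intro a _ ha
      simp [ha]
    · intro h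
      exact absurd (Finset.mem_univ v) h
  have h3 : ∑ b : V, ∑ a : V, (if b = v then (if G.Adj a b then x (a, b) else 0) else 0) =
      ∑ a : V, if G.Adj v a then x (a, v) else 0 := by
    rw [Finset.sum_eq_single v]
    · simp [G.adj_comm]
    · intro a _ ha
      simp [ha]
    · intro h
      exact absurd (Finset.mem_univ v) h
  rw [h2, h3, ← Finset.sum_add_distrib]
  refine Finset.sum_congr rfl fun u _ => ?_
  split_ifs <;> simp

/-- cut rows. -/
private theorem ct_cut (G : SimpleGraph V) (x : V × V → ℚ) (S : Finset V) :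
    ∑ q : V × V, (if G.Adj q.1 q.2 ∧ ¬ (q.1 ∈ S ↔ q.2 ∈ S) then (1 : ℚ) else 0) * x q =
      ∑ u ∈ S, ∑ v ∈ Sᶜ, if G.Adj u v then x (u, v) + x (v, u) else 0 := by
  have h1 : ∀ q : V × V, (if G.Adj q.1 q.2 ∧ ¬ (q.1 ∈ S ↔ q.2 ∈ S) then (1 : ℚ) else 0) * x q =
      (if q.1 ∈ S then (if q.2 ∈ Sᶜ then (if G.Adj q.1 q.2 then x q else 0) else 0) else 0) +
        (if q.2 ∈ S then (if q.1 ∈ Sᶜ then (if G.Adj q.1 q.2 then x q else 0) else 0) else 0) := by
    rintro ⟨a, b⟩
    by_cases hadj : G.Adj a b <;> by_cases ha : a ∈ S <;> by_cases hb : b ∈ S <;>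
      simp [hadj, ha, hb]
  rw [Finset.sum_congr rfl fun q _ => h1 q, Finset.sum_add_distrib, Fintype.sum_prod_type,
    Fintype.sum_prod_type_right]
  have h2 : ∀ f : V → V → ℚ, ∑ a : V, ∑ b : V,
      (if a ∈ S then (if b ∈ Sᶜ then f a b else 0) else 0) = ∑ a ∈ S, ∑ b ∈ Sᶜ, f a b := by
    intro f
    rw [← Finset.sum_filter_add_sum_filter_not Finset.univ (fun a => a ∈ S)]
    have e1 : Finset.univ.filter (fun a => a ∈ S) = S := by ext; simp
    have e2 : Finset.univ.filter (fun b => b ∈ Sᶜ) = Sᶜ := by ext; simp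
    rw [e1]
    have e3 : ∑ a ∈ Finset.univ.filter (fun a => ¬ a ∈ S), ∑ b : V,
        (if a ∈ S then (if b ∈ Sᶜ then f a b else 0) else 0) = 0 := by
      refine Finset.sum_eq_zero fun a ha => Finset.sum_eq_zero fun b _ => ?_
      rw [if_neg (Finset.mem_filter.1 ha).2]
    rw [e3, add_zero]
    refine Finset.sum_congr rfl fun a ha => ?_
    rw [Finset.sum_congr rfl fun b _ => if_pos ha, ← Finset.sum_filter, e2]
  have h3 := h2 (fun a b => if G.Adj a b then x (a, b) else 0)
  have h4 := h2 (fun a b => if G.Adj b a then x (b, a) else 0)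
  rw [h3, h4, ← Finset.sum_add_distrib]
  refine Finset.sum_congr rfl fun u _ => ?_
  rw [← Finset.sum_add_distrib]
  refine Finset.sum_congr rfl fun v _ => ?_
  by_cases h : G.Adj u v
  · simp [h, h.symm]
  · have h' : ¬ G.Adj v u := fun h2 => h h2.symm
    simp [h, h']

private theorem ct_sol (G : SimpleGraph V) (hV : 4 < Fintype.card V) (x : V × V → ℚ)
    (hx : ∀ q, 0 ≤ x q)
    (hd : ∀ v, ∑ u, (if G.Adj v u then x (v, u) + x (u, v) else 0) = 2)
    (hc : ∀ S : Finset V, S.Nonempty → S ≠ Finset.univ →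
      2 ≤ ∑ u ∈ S, ∑ v ∈ Sᶜ, if G.Adj u v then x (u, v) + x (v, u) else 0) :
    ∃ x : V → V → ℚ, FracHam G x := by
  refine ⟨fun u v => if G.Adj u v then x (u, v) + x (v, u) else 0, ?_, ?_, ?_, hd, hc⟩
  · intro u v
    show (if G.Adj u v then x (u, v) + x (v, u) else 0) = (if G.Adj v u then x (v, u) + x (u, v) else 0)
    by_cases h : G.Adj u v
    · rw [if_pos h, if_pos h.symm, add_comm]
    · rw [if_neg h, if_neg (fun h2 => h h2.symm)]
  · intro u v
    show 0 ≤ (if G.Adj u v then x (u, v) + x (v, u) else 0) ∧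
      (if G.Adj u v then x (u, v) + x (v, u) else 0) ≤ 1
    by_cases h : G.Adj u v
    · rw [if_pos h]
      refine ⟨add_nonneg (hx _) (hx _), ?_⟩
      have huv : u ≠ v := h.ne
      have h1 := hc {u, v} ⟨u, Finset.mem_insert_self u _⟩ (by
        intro h2
        have h3 := congrArg Finset.card h2
        rw [Finset.card_pair huv, Finset.card_univ] at h3
        omega)
      rw [Finset.sum_pair huv] at h1
      have h2 : ∀ w, ∑ b ∈ ({u, v} : Finset V)ᶜ, (if G.Adj w b then x (w, b) + x (b, w) else 0) =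
          2 - ((if G.Adj w u then x (w, u) + x (u, w) else 0) +
            (if G.Adj w v then x (w, v) + x (v, w) else 0)) := by
        intro w
        have h3 := Finset.sum_add_sum_compl ({u, v} : Finset V)
          (fun b => if G.Adj w b then x (w, b) + x (b, w) else 0)
        rw [hd w, Finset.sum_pair huv] at h3
        linarith
      rw [h2, h2, if_pos h, if_pos h.symm, if_neg (G.loopless.irrefl u), if_neg (G.loopless.irrefl v)] at h1
      linarith
    · rw [if_neg h]
      exact ⟨le_rfl, zero_le_one⟩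
  · intro u v h
    show (if G.Adj u v then x (u, v) + x (v, u) else 0) = 0
    rw [if_neg h]

private theorem ct_nat (G : SimpleGraph V) (hV : 4 < Fintype.card V) (k1 k2 : V → ℕ)
    (k3 : Finset V → ℕ) (h0 : k3 ∅ = 0) (h1 : k3 Finset.univ = 0)
    (he : ∀ u v, G.Adj u v → ∑ S ∈ Finset.univ.filter (fun S : Finset V => ¬ (u ∈ S ↔ v ∈ S)), k3 S +
      (k1 u + k1 v) ≤ k2 u + k2 v)
    (ht : ∑ v, k2 v < ∑ S, k3 S + ∑ v, k1 v) :
    ∃ (Y : Finset V → ℕ) (p : V → ℕ), Y ∅ = 0 ∧ Y Finset.univ = 0 ∧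
      (∀ u v, G.Adj u v → ∑ S ∈ Finset.univ.filter (fun S : Finset V => ¬ (u ∈ S ↔ v ∈ S)), Y S ≤ p u + p v) ∧
      ∑ v, p v < ∑ S, Y S := by
  have hsing : ∀ (P : Finset V → Prop) [DecidablePred P], ∑ S ∈ Finset.univ.filter P,
      ∑ v : V, (if S = {v} then k1 v - k2 v else 0) = ∑ v : V, if P {v} then k1 v - k2 v else 0 := by
    intro P _
    rw [Finset.sum_comm]
    refine Finset.sum_congr rfl fun v _ => ?_
    rw [Finset.sum_ite_eq']
    simp
  refine ⟨fun S => k3 S + ∑ v : V, if S = {v} then k1 v - k2 v else 0, fun v => k2 v - k1 v,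
    ?_, ?_, ?_, ?_⟩
  · show k3 ∅ + ∑ v : V, (if (∅ : Finset V) = {v} then k1 v - k2 v else 0) = 0
    rw [h0, zero_add]
    refine Finset.sum_eq_zero fun v _ => if_neg ?_
    intro h
    exact Finset.singleton_ne_empty v h.symm
  · show k3 Finset.univ + ∑ v : V, (if (Finset.univ : Finset V) = {v} then k1 v - k2 v else 0) = 0
    rw [h1, zero_add]
    refine Finset.sum_eq_zero fun v _ => if_neg ?_
    intro h
    have h2 := congrArg Finset.card h
    rw [Finset.card_univ, Finset.card_singleton] at h2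
    omega
  · intro u v huv
    have h2 := he u v huv
    have hne : u ≠ v := huv.ne
    show ∑ S ∈ Finset.univ.filter (fun S : Finset V => ¬ (u ∈ S ↔ v ∈ S)),
      (k3 S + ∑ v : V, if S = {v} then k1 v - k2 v else 0) ≤ (k2 u - k1 u) + (k2 v - k1 v)
    rw [Finset.sum_add_distrib]
    have h3 : ∑ S ∈ Finset.univ.filter (fun S : Finset V => ¬ (u ∈ S ↔ v ∈ S)),
        ∑ w : V, (if S = {w} then k1 w - k2 w else 0) = (k1 u - k2 u) + (k1 v - k2 v) := by
      rw [hsing, ← Finset.sum_pair hne (f := fun w => k1 w - k2 w), ← Finset.sum_filter]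
      refine Finset.sum_congr ?_ fun _ _ => rfl
      ext w
      simp only [Finset.mem_filter, Finset.mem_univ, true_and, Finset.mem_singleton,
        Finset.mem_insert]
      constructor
      · intro h4
        by_contra h5
        apply h4
        constructor
        · intro h6
          exact absurd (Or.inl h6.symm) h5
        · intro h6
          exact absurd (Or.inr h6.symm) h5
      · rintro (rfl | rfl) h4
        · exact hne (h4.1 rfl).symm
        · exact hne (h4.2 rfl)
    rw [h3]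
    omega
  · show ∑ v, (k2 v - k1 v) < ∑ S : Finset V, (k3 S + ∑ v : V, if S = {v} then k1 v - k2 v else 0)
    rw [Finset.sum_add_distrib]
    have h3 : ∑ S : Finset V, ∑ v : V, (if S = {v} then k1 v - k2 v else 0) =
        ∑ v : V, (k1 v - k2 v) := by
      rw [Finset.sum_comm]
      refine Finset.sum_congr rfl fun v _ => ?_
      rw [Finset.sum_ite_eq']
      simp
    rw [h3]
    have h4 : ∑ v, (k2 v - k1 v) + ∑ v, k1 v = ∑ v, k2 v + ∑ v, (k1 v - k2 v) := by
      rw [← Finset.sum_add_distrib, ← Finset.sum_add_distrib]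
      refine Finset.sum_congr rfl fun v _ => ?_
      omega
    omega

theorem frac_or_cert (G : SimpleGraph V) (hV : 4 < Fintype.card V) :
    (∃ x : V → V → ℚ, FracHam G x) ∨
    ∃ (Y : Finset V → ℕ) (p : V → ℕ), Y ∅ = 0 ∧ Y Finset.univ = 0 ∧
      (∀ u v, G.Adj u v → ∑ S ∈ Finset.univ.filter (fun S : Finset V => ¬ (u ∈ S ↔ v ∈ S)), Y S ≤ p u + p v) ∧
      ∑ v, p v < ∑ S, Y S := by
  let a : V → V × V → ℚ := fun v q => if G.Adj q.1 q.2 ∧ (q.1 = v ∨ q.2 = v) then (1 : ℚ) else 0
  let cc : Finset V → V × V → ℚ := fun S q =>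
    if G.Adj q.1 q.2 ∧ ¬ (q.1 ∈ S ↔ q.2 ∈ S) then (1 : ℚ) else 0
  let bb : Finset V → ℚ := fun S => if S.Nonempty ∧ S ≠ Finset.univ then 2 else 0
  rcases farkas (m := V ⊕ V ⊕ Finset V) (n := V × V)
    (fun i q => Sum.elim (fun v => a v q) (Sum.elim (fun v => - a v q) (fun S => cc S q)) i)
    (fun i => Sum.elim (fun _ => 2) (Sum.elim (fun _ => -2) bb) i) with ⟨x, hx, h⟩ | ⟨y, hy, h, h2⟩
  · left
    have d1 : ∀ v, (2 : ℚ) ≤ ∑ q, a v q * x q := fun v => h (Sum.inl v)
    have d2 : ∀ v, (-2 : ℚ) ≤ ∑ q, - a v q * x q := fun v => h (Sum.inr (Sum.inl v))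
    have d3 : ∀ S, bb S ≤ ∑ q, cc S q * x q := fun S => h (Sum.inr (Sum.inr S))
    refine ct_sol G hV x hx ?_ ?_
    · intro v
      rw [← ct_deg G x v]
      have e1 := d1 v
      have e2 := d2 v
      have e3 : ∑ q, - a v q * x q = - ∑ q, a v q * x q := by
        rw [← Finset.sum_neg_distrib]
        exact Finset.sum_congr rfl fun q _ => neg_mul _ _
      rw [e3] at e2
      exact le_antisymm (by linarith) e1
    · intro S hS hS'
      rw [← ct_cut G x S]
      have e1 := d3 S
      have e2 : bb S = 2 := if_pos ⟨hS, hS'⟩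
      rw [e2] at e1
      exact e1
  · right
    obtain ⟨N, k, hN, hk⟩ := ct_denom y hy
    have hNq : (0 : ℚ) < N := by exact_mod_cast hN
    refine ct_nat G hV (fun v => k (Sum.inl v)) (fun v => k (Sum.inr (Sum.inl v)))
      (fun S => if S.Nonempty ∧ S ≠ Finset.univ then k (Sum.inr (Sum.inr S)) else 0)
      (if_neg (fun h => Finset.not_nonempty_empty h.1)) (if_neg (fun h => h.2 rfl)) ?_ ?_
    · intro u v huv
      have e1 := h (u, v)
      rw [Fintype.sum_sum_type, Fintype.sum_sum_type] at e1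
      simp only [Sum.elim_inl, Sum.elim_inr] at e1
      have e2 : ∀ f : V → ℚ, ∑ w, f w * a w (u, v) = f u + f v := by
        intro f
        have hne : u ≠ v := huv.ne
        rw [← Finset.sum_pair hne (f := f)]
        have e3 : ∀ w, f w * a w (u, v) = if w ∈ ({u, v} : Finset V) then f w else 0 := by
          intro w
          show f w * (if G.Adj u v ∧ (u = w ∨ v = w) then (1 : ℚ) else 0) = _
          simp only [Finset.mem_insert, Finset.mem_singleton, huv, true_and]
          by_cases h5 : u = w ∨ v = w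
          · rw [if_pos h5, if_pos (by rcases h5 with h6 | h6
                                      · exact Or.inl h6.symm
                                      · exact Or.inr h6.symm), mul_one]
          · rw [if_neg h5, if_neg (fun h6 => h5 (by rcases h6 with h7 | h7
                                                    · exact Or.inl h7.symm
                                                    · exact Or.inr h7.symm)), mul_zero]
        rw [Finset.sum_congr rfl fun w _ => e3 w, Finset.sum_ite_mem, Finset.univ_inter]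
      have e4 : ∑ w, y (Sum.inr (Sum.inl w)) * - a w (u, v) =
          - (y (Sum.inr (Sum.inl u)) + y (Sum.inr (Sum.inl v))) := by
        rw [← e2 (fun w => y (Sum.inr (Sum.inl w))), ← Finset.sum_neg_distrib]
        exact Finset.sum_congr rfl fun w _ => mul_neg _ _
      have e5 : ∑ S, y (Sum.inr (Sum.inr S)) * cc S (u, v) =
          ∑ S ∈ Finset.univ.filter (fun S : Finset V => ¬ (u ∈ S ↔ v ∈ S)),
            y (Sum.inr (Sum.inr S)) := by
        rw [Finset.sum_filter]
        refine Finset.sum_congr rfl fun S _ => ?_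
        show y (Sum.inr (Sum.inr S)) * (if G.Adj u v ∧ ¬ (u ∈ S ↔ v ∈ S) then (1 : ℚ) else 0) = _
        by_cases h5 : (u ∈ S ↔ v ∈ S)
        · rw [if_neg (fun h6 => h6.2 h5), if_neg (fun h6 => h6 h5), mul_zero]
        · rw [if_pos ⟨huv, h5⟩, if_pos h5, mul_one]
      rw [e2 (fun w => y (Sum.inl w)), e4, e5] at e1
      have e6 : (N : ℚ) * (∑ S ∈ Finset.univ.filter (fun S : Finset V => ¬ (u ∈ S ↔ v ∈ S)),
          y (Sum.inr (Sum.inr S)) + (y (Sum.inl u) + y (Sum.inl v))) ≤
          N * (y (Sum.inr (Sum.inl u)) + y (Sum.inr (Sum.inl v))) :=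
        mul_le_mul_of_nonneg_left (by linarith) hNq.le
      rw [mul_add, mul_add, mul_add, Finset.mul_sum, hk, hk, hk, hk,
        Finset.sum_congr rfl fun S _ => hk _] at e6
      have e7 : ∑ S ∈ Finset.univ.filter (fun S : Finset V => ¬ (u ∈ S ↔ v ∈ S)),
          (if S.Nonempty ∧ S ≠ Finset.univ then k (Sum.inr (Sum.inr S)) else 0) ≤
          ∑ S ∈ Finset.univ.filter (fun S : Finset V => ¬ (u ∈ S ↔ v ∈ S)),
            k (Sum.inr (Sum.inr S)) := by
        refine Finset.sum_le_sum fun S _ => ?_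
        split_ifs
        · exact le_rfl
        · exact Nat.zero_le _
      have e8 : ∑ S ∈ Finset.univ.filter (fun S : Finset V => ¬ (u ∈ S ↔ v ∈ S)),
          k (Sum.inr (Sum.inr S)) + (k (Sum.inl u) + k (Sum.inl v)) ≤
          k (Sum.inr (Sum.inl u)) + k (Sum.inr (Sum.inl v)) := by
        exact_mod_cast e6
      show ∑ S ∈ Finset.univ.filter (fun S : Finset V => ¬ (u ∈ S ↔ v ∈ S)),
          (if S.Nonempty ∧ S ≠ Finset.univ then k (Sum.inr (Sum.inr S)) else 0) +
          (k (Sum.inl u) + k (Sum.inl v)) ≤ k (Sum.inr (Sum.inl u)) + k (Sum.inr (Sum.inl v))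
      omega
    · rw [Fintype.sum_sum_type, Fintype.sum_sum_type] at h2
      simp only [Sum.elim_inl, Sum.elim_inr] at h2
      have e1 : ∑ v, y (Sum.inl v) * 2 + (∑ v, y (Sum.inr (Sum.inl v)) * -2 +
          ∑ S, y (Sum.inr (Sum.inr S)) * bb S) =
          2 * (∑ v, y (Sum.inl v) - ∑ v, y (Sum.inr (Sum.inl v)) +
            ∑ S : Finset V, if S.Nonempty ∧ S ≠ Finset.univ then y (Sum.inr (Sum.inr S)) else 0) := by
        have e2 : ∀ S : Finset V, y (Sum.inr (Sum.inr S)) * bb S =
            2 * (if S.Nonempty ∧ S ≠ Finset.univ then y (Sum.inr (Sum.inr S)) else 0) := by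
          intro S
          show y (Sum.inr (Sum.inr S)) * (if S.Nonempty ∧ S ≠ Finset.univ then (2 : ℚ) else 0) = _
          split_ifs
          · ring
          · ring
        rw [Finset.sum_congr rfl fun S _ => e2 S, ← Finset.mul_sum, ← Finset.sum_mul,
          ← Finset.sum_mul]
        ring
      rw [e1] at h2
      have e3 : (0 : ℚ) < N * (∑ v, y (Sum.inl v) - ∑ v, y (Sum.inr (Sum.inl v)) +
            ∑ S : Finset V, if S.Nonempty ∧ S ≠ Finset.univ then y (Sum.inr (Sum.inr S)) else 0) :=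
        mul_pos hNq (by linarith)
      rw [mul_add, mul_sub, Finset.mul_sum, Finset.mul_sum, Finset.mul_sum,
        Finset.sum_congr rfl fun v _ => hk _, Finset.sum_congr (g := fun v => (k (Sum.inr (Sum.inl v)) : ℚ)) rfl fun v _ => hk _] at e3
      have e4 : ∀ S : Finset V, (N : ℚ) * (if S.Nonempty ∧ S ≠ Finset.univ then
          y (Sum.inr (Sum.inr S)) else 0) =
          ((if S.Nonempty ∧ S ≠ Finset.univ then k (Sum.inr (Sum.inr S)) else 0 : ℕ) : ℚ) := by
        intro S
        split_ifs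
        · exact hk _
        · simp
      rw [Finset.sum_congr rfl fun S _ => e4 S] at e3
      have e5 : (∑ v, (k (Sum.inr (Sum.inl v)) : ℚ)) <
          ∑ S : Finset V, ((if S.Nonempty ∧ S ≠ Finset.univ then k (Sum.inr (Sum.inr S)) else 0 : ℕ) : ℚ) +
            ∑ v, (k (Sum.inl v) : ℚ) := by linarith
      exact_mod_cast e5

end Pool.Agent.Work.MP_5ce8c0_co.FH
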