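import Pool.Agent.Work.MP_5ce8c0_co.FH.Perm

set_option autoImplicit false

/-!
# FH/Chord (M-L): adding a chord which cuts off a triangle

Let `z = inr true` (from `tail x` to `tail (ph (ph x))`), `z' = inr false` (its reverse). `al' = al` on the old darts, swaps `z` and `z'`. `ph' y = ph y` for the old darts `y` except
`ph' (ph x) = z'`, `ph' (ph⁻¹ x) = z`; `ph' z' = x`, `ph' z = ph (ph x)`. So the face of `x` is cut into the triangle `x, ph x, z'` and the face `ph⁻¹ x, z, ph (ph x), ...`. As a permutation: e.g.
`ph' = (ph extended by the identity) * (product of two swaps)`: with `e = Equiv.sumCongr ph 1`, find `ph' = e * swap (inl (ph⁻¹ x)) (inr ..) * ...`, or give the inverse explicitly, or use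
`Equiv.ofBijective` (injective on a finite type). The darts `x`, `ph x`, `ph (ph x)`, `ph⁻¹ x` are distinct (`h1`, `h2`, `h3`).
`tail_ph`: case check. `vert`: the old rotation is `ρ = ph * al`. The new one: `ρ' (inl y) = inl (ρ y)` except `ρ' (inl (al (ph⁻¹ x))) = z`, `ρ' z = ph' z' = inl x`
(old: `ρ (al (ph⁻¹ x)) = x`), `ρ' (inl (al (ph x))) = z'`, `ρ' z' = ph' z = inl (ph (ph x))`. So if `y` and `y'` are in the same `ρ`-cycle then `inl y`, `inl y'` are in the same `ρ'`-cycle (one step of `ρ`
is one or two steps of `ρ'`), `z` is in the cycle of `inl x` and `z'` in the cycle of `inl (ph (ph x))`.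
Face lengths: no fixed points of `ph'` and `ph'²` (`ph² (ph x) = ph⁻¹ x` is possible, then the second face is `ph⁻¹ x, z, ph (ph x)`).
`ncyc`: `le_ncyc` for `ph'` with values in `Option (Quotient (SameCycle.setoid ph))`: `none` on `inl x`, `inl (ph x)`, `z'`; the class of `x` on `z`; the class of `y` on the other `inl y`. It is invariant and surjective (the
class of `x` is the value at `inl (ph (ph x))`); `Nat.card (Option _) = ncyc ph + 1`.
-/

namespace Pool.Agent.Work.MP_5ce8c0_co.FH

open Classical

variable {V D : Type} [Fintype V] [Fintype D]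

/-- the new face permutation -/
private noncomputable def fph (ph : Equiv.Perm D) (x : D) : D ⊕ Bool → D ⊕ Bool
  | .inl y => if y = ph x then .inr false else if y = ph.symm x then .inr true else .inl (ph y)
  | .inr false => .inl x
  | .inr true => .inl (ph (ph x))

/-- its inverse -/
private noncomputable def fpi (ph : Equiv.Perm D) (x : D) : D ⊕ Bool → D ⊕ Bool
  | .inl y => if y = x then .inr false else if y = ph (ph x) then .inr true else .inl (ph.symm y)
  | .inr false => .inl (ph x)
  | .inr true => .inl (ph.symm x)

omit [Fintype D] in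
private theorem fph_inl (ph : Equiv.Perm D) (x y : D) : fph ph x (.inl y) =
    if y = ph x then .inr false else if y = ph.symm x then .inr true else .inl (ph y) := rfl

omit [Fintype D] in
private theorem fpi_inl (ph : Equiv.Perm D) (x y : D) : fpi ph x (.inl y) =
    if y = x then .inr false else if y = ph (ph x) then .inr true else .inl (ph.symm y) := rfl

omit [Fintype D] in
private theorem fpi_fph (ph : Equiv.Perm D) (x : D) (h2 : ph (ph x) ≠ x) (u : D ⊕ Bool) :
    fpi ph x (fph ph x u) = u := by
  rcases u with y | b
  · rw [fph_inl]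
    by_cases ha : y = ph x
    · rw [if_pos ha, ha]
      rfl
    · rw [if_neg ha]
      by_cases hb : y = ph.symm x
      · rw [if_pos hb, hb]
        rfl
      · rw [if_neg hb, fpi_inl, if_neg, if_neg, Equiv.symm_apply_apply]
        · intro h
          exact ha (ph.injective h)
        · intro h
          exact hb (by rw [← h, Equiv.symm_apply_apply])
  · cases b
    · change fpi ph x (.inl x) = _
      rw [fpi_inl, if_pos rfl]
    · change fpi ph x (.inl (ph (ph x))) = _
      rw [fpi_inl, if_neg h2, if_pos rfl]

omit [Fintype D] in
private theorem fph_fpi (ph : Equiv.Perm D) (x : D) (h2 : ph (ph x) ≠ x) (u : D ⊕ Bool) :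
    fph ph x (fpi ph x u) = u := by
  rcases u with y | b
  · rw [fpi_inl]
    by_cases ha : y = x
    · rw [if_pos ha, ha]
      rfl
    · rw [if_neg ha]
      by_cases hb : y = ph (ph x)
      · rw [if_pos hb, hb]
        rfl
      · rw [if_neg hb, fph_inl, if_neg, if_neg, Equiv.apply_symm_apply]
        · intro h
          exact ha (ph.symm.injective h)
        · intro h
          exact hb (by rw [← h, Equiv.apply_symm_apply])
  · cases b
    · change fph ph x (.inl (ph x)) = _
      rw [fph_inl, if_pos rfl]
    · change fph ph x (.inl (ph.symm x)) = _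
      rw [fph_inl, if_neg, if_pos rfl]
      intro h
      exact h2 (by rw [← h, Equiv.apply_symm_apply])

/-- the new initial vertices -/
private def ftail (M : CMap V D) (x : D) : D ⊕ Bool → V
  | .inl y => M.tail y
  | .inr false => M.tail (M.ph (M.ph x))
  | .inr true => M.tail x

theorem chord (M : CMap V D) (x : D) (h1 : ∀ y, M.ph y ≠ y) (h2 : ∀ y, M.ph (M.ph y) ≠ y)
    (h3 : M.ph (M.ph (M.ph x)) ≠ x) :
    ∃ M' : CMap V (D ⊕ Bool), (∀ y, M'.ph y ≠ y) ∧ (∀ y, M'.ph (M'.ph y) ≠ y) ∧
      ncyc M.ph + 1 ≤ ncyc M'.ph ∧ (∀ y, M'.tail (Sum.inl y) = M.tail y) ∧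
      (∀ y, M'.al (Sum.inl y) = Sum.inl (M.al y)) ∧ M'.tail (Sum.inr true) = M.tail x ∧
      M'.tail (Sum.inr false) = M.tail (M.ph (M.ph x)) ∧ M'.al (Sum.inr true) = Sum.inr false := by
  let ph' : Equiv.Perm (D ⊕ Bool) :=
    { toFun := fph M.ph x
      invFun := fpi M.ph x
      left_inv := fpi_fph M.ph x (h2 x)
      right_inv := fph_fpi M.ph x (h2 x) }
  let al' : Equiv.Perm (D ⊕ Bool) := Equiv.sumCongr M.al Equiv.boolNot
  have hpl : ∀ y, ph' (.inl y) = if y = M.ph x then .inr false else
    if y = M.ph.symm x then .inr true else .inl (M.ph y) := fun y => rfl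
  have hpf : ph' (.inr false) = .inl x := rfl
  have hpt : ph' (.inr true) = .inl (M.ph (M.ph x)) := rfl
  have hal : ∀ y, al' (.inl y) = .inl (M.al y) := fun y => rfl
  have haf : al' (.inr false) = .inr true := rfl
  have hat : al' (.inr true) = .inr false := rfl
  have hs1 : M.ph.symm x ≠ M.ph x := by
    intro h
    exact h2 x (by rw [← h, Equiv.apply_symm_apply])
  have hs2 : M.ph.symm x ≠ x := by
    intro h
    exact h1 x (by rw [← h, Equiv.apply_symm_apply, h])
  have hs3 : M.ph (M.ph x) ≠ M.ph.symm x := by
    intro h
    exact h3 (by rw [h, Equiv.apply_symm_apply])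
  -- the cycles of the rotation
  have hstep : ∀ y, (ph' * al').SameCycle (.inl y) (.inl ((M.ph * M.al) y)) := by
    intro y
    have e1 : (ph' * al') (.inl y) = if M.al y = M.ph x then .inr false else
      if M.al y = M.ph.symm x then .inr true else .inl (M.ph (M.al y)) := by
      rw [Equiv.Perm.mul_apply, hal, hpl]
    by_cases ha : M.al y = M.ph x
    · rw [if_pos ha] at e1
      refine ⟨2, ?_⟩
      have e2 : (ph' * al') ((ph' * al') (.inl y)) = .inl (M.ph (M.ph x)) := by
        rw [e1]
        rfl
      have e3 : ((ph' * al') ^ (2 : ℤ)) (.inl y) = (ph' * al') ((ph' * al') (.inl y)) := rfl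
      rw [e3, e2, Equiv.Perm.mul_apply, ha]
    · rw [if_neg ha] at e1
      by_cases hb : M.al y = M.ph.symm x
      · rw [if_pos hb] at e1
        refine ⟨2, ?_⟩
        have e2 : (ph' * al') ((ph' * al') (.inl y)) = .inl x := by
          rw [e1]
          rfl
        have e3 : ((ph' * al') ^ (2 : ℤ)) (.inl y) = (ph' * al') ((ph' * al') (.inl y)) := rfl
        rw [e3, e2, Equiv.Perm.mul_apply, hb, Equiv.apply_symm_apply]
      · rw [if_neg hb] at e1
        refine ⟨1, ?_⟩
        rw [zpow_one, e1, Equiv.Perm.mul_apply]
  have hcyc : ∀ y y', (M.ph * M.al).SameCycle y y' →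
      (ph' * al').SameCycle (.inl y) (.inl y') := by
    intro y y' h
    have := eq_of_sameCycle (M.ph * M.al)
      (fun y => (Quotient.mk (Equiv.Perm.SameCycle.setoid (ph' * al')) (Sum.inl y : D ⊕ Bool)))
      (fun d => (Quotient.sound (hstep d)).symm) h
    exact Quotient.exact this
  have hrep : ∀ u : D ⊕ Bool, ∃ y, (ph' * al').SameCycle u (.inl y) ∧ ftail M x u = M.tail y := by
    rintro (y | b)
    · exact ⟨y, Equiv.Perm.SameCycle.refl _ _, rfl⟩
    · cases b
      · exact ⟨M.ph (M.ph x), ⟨1, by rw [zpow_one]; rfl⟩, rfl⟩
      · exact ⟨x, ⟨1, by rw [zpow_one]; rfl⟩, rfl⟩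
  let M' : CMap V (D ⊕ Bool) :=
    { al := al'
      ph := ph'
      tail := ftail M x
      al_al := by
        rintro (y | b)
        · rw [hal, hal, M.al_al]
        · cases b
          · rw [haf, hat]
          · rw [hat, haf]
      al_ne := by
        rintro (y | b)
        · rw [hal]
          intro h
          exact M.al_ne y (Sum.inl.inj h)
        · cases b
          · rw [haf]
            intro h
            exact absurd (Sum.inr.inj h) (by decide)
          · rw [hat]
            intro h
            exact absurd (Sum.inr.inj h) (by decide)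
      tail_ph := by
        rintro (y | b)
        · rw [hal, hpl]
          by_cases ha : y = M.ph x
          · rw [if_pos ha, ha]
            exact M.tail_ph (M.ph x)
          · rw [if_neg ha]
            by_cases hb : y = M.ph.symm x
            · rw [if_pos hb, hb]
              change M.tail x = M.tail (M.al (M.ph.symm x))
              rw [← M.tail_ph, Equiv.apply_symm_apply]
            · rw [if_neg hb]
              exact M.tail_ph y
        · cases b
          · rfl
          · rfl
      vert := by
        intro u v huv
        obtain ⟨y, hy1, hy2⟩ := hrep u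
        obtain ⟨y', hy1', hy2'⟩ := hrep v
        rw [hy2, hy2'] at huv
        exact hy1.trans ((hcyc y y' (M.vert y y' huv)).trans hy1'.symm)
      surj := by
        intro v
        obtain ⟨y, hy⟩ := M.surj v
        exact ⟨.inl y, hy⟩ }
  refine ⟨M', ?_, ?_, ?_, fun y => rfl, fun y => rfl, rfl, rfl, rfl⟩
  · rintro (y | b)
    · change ph' (.inl y) ≠ .inl y
      rw [hpl]
      split_ifs with ha hb
      · exact Sum.inr_ne_inl
      · exact Sum.inr_ne_inl
      · intro h
        exact h1 y (Sum.inl.inj h)
    · cases b
      · exact Sum.inl_ne_inr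
      · exact Sum.inl_ne_inr
  · rintro (y | b)
    · change ph' (ph' (.inl y)) ≠ .inl y
      rw [hpl]
      split_ifs with ha hb
      · rw [hpf, ha]
        intro h
        exact h1 x (Sum.inl.inj h).symm
      · rw [hpt, hb]
        intro h
        exact hs3 (Sum.inl.inj h)
      · rw [hpl]
        split_ifs with hc hd
        · exact Sum.inr_ne_inl
        · exact Sum.inr_ne_inl
        · intro h
          exact h2 y (Sum.inl.inj h)
    · cases b
      · change ph' (ph' (.inr false)) ≠ .inr false
        rw [hpf, hpl, if_neg (h1 x).symm, if_neg hs2.symm]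
        exact Sum.inl_ne_inr
      · change ph' (ph' (.inr true)) ≠ .inr true
        rw [hpt, hpl, if_neg (h1 _), if_neg hs3]
        exact Sum.inl_ne_inr
  · change ncyc M.ph + 1 ≤ ncyc ph'
    let c : D ⊕ Bool → Option (Quotient (Equiv.Perm.SameCycle.setoid M.ph)) := fun u =>
      match u with
      | .inl y => if y = x ∨ y = M.ph x then none else some (Quotient.mk _ y)
      | .inr false => none
      | .inr true => some (Quotient.mk _ x)
    have hcl : ∀ y, c (.inl y) = if y = x ∨ y = M.ph x then none else some (Quotient.mk _ y) :=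
      fun y => rfl
    have hcf : c (.inr false) = none := rfl
    have hct : c (.inr true) = some (Quotient.mk _ x) := rfl
    have hq : ∀ y, (Quotient.mk (Equiv.Perm.SameCycle.setoid M.ph) (M.ph y)) =
        Quotient.mk (Equiv.Perm.SameCycle.setoid M.ph) y := by
      intro y
      refine Quotient.sound ?_
      change M.ph.SameCycle (M.ph y) y
      exact Equiv.Perm.SameCycle.symm ⟨1, by rw [zpow_one]⟩
    have hinv : ∀ u, c (ph' u) = c u := by
      rintro (y | b)
      · rw [hpl]
        by_cases ha : y = M.ph x
        · rw [if_pos ha, hcf, hcl, if_pos (Or.inr ha)]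
        · rw [if_neg ha]
          by_cases hb : y = M.ph.symm x
          · rw [if_pos hb, hct, hcl, if_neg]
            · rw [hb, ← hq (M.ph.symm x), Equiv.apply_symm_apply]
            · rw [hb]
              rintro (h | h)
              · exact hs2 h
              · exact hs1 h
          · rw [if_neg hb, hcl, hcl]
            by_cases hd : y = x
            · rw [if_pos (Or.inl hd), if_pos (Or.inr (by rw [hd]))]
            · rw [if_neg, if_neg, hq]
              · rintro (h | h)
                · exact hd h
                · exact ha h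
              · rintro (h | h)
                · exact hb (by rw [← h, Equiv.symm_apply_apply])
                · exact hd (M.ph.injective h)
      · cases b
        · rw [hpf, hcl, if_pos (Or.inl rfl), hcf]
        · rw [hpt, hcl, if_neg, hct, hq, hq]
          rintro (h | h)
          · exact h2 x h
          · exact h1 _ h
    have hsur : Function.Surjective c := by
      rintro (_ | q)
      · exact ⟨.inr false, hcf⟩
      · obtain ⟨y, rfl⟩ := Quotient.exists_rep q
        by_cases hy : y = x ∨ y = M.ph x
        · refine ⟨.inr true, ?_⟩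
          rw [hct]
          rcases hy with h | h
          · rw [h]
          · rw [h, hq]
        · exact ⟨.inl y, by rw [hcl, if_neg hy]⟩
    have h5 := le_ncyc ph' c hinv hsur
    rw [Finite.card_option] at h5
    exact h5

end Pool.Agent.Work.MP_5ce8c0_co.FH
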