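import Pool.Agent.Work.MP_5ce8c0_co.FH.TreeD

set_option autoImplicit false

/-!
# FH/FaceB (M): the number of switches of a triangle

Let `α, β, γ` be the numbers of elements of `leg a b c`, `leg b c a`, `leg c a b`. `dd_leg`: `symmDiff (C a) (C b)` is the disjoint union of `leg a b c` and `leg b c a` (up to the order of the conditions).
`sc_le`: if `Sw i a b c` then `i ∈ leg a b c`, and `¬ Near i a b` or `¬ Near i a c`. `¬ Near i a b`: `p a - di a i ≤ p b - di b i`, `di b i = dd a b - 1 - di a i`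
(`di_add`), so `2 di a i ≥ p a - p b + α + β - 1`, and by parity `2 di a i ≥ p a - p b + α + β`. So `di a i ≥ t` with `t = min t_b t_c`,
`2 t_b = p a - p b + α + β`, `2 t_c = p a - p c + α + γ`. By `di_inj` and `di_lt` the number of `i` in the leg with `di a i ≥ t` is at most `max 0 (α - t)` (injection into `[t, α)`), and
`2 (α - t_b) = (α - p a) - (β - p b)`.
`face_bound`: write `α' = α - p a`, `β' = β - p b`, `γ' = γ - p c` (integers); `α + β ≤ p a + p b` etc., so `α' + β' ≤ 0` etc.
`sc` of the vertex with the smallest of the three is `0`. If `γ'` is the smallest: `2 (sc a + sc b) ≤ (α' - γ') + (β' - γ') ≤ - 2 γ' ≤ 2 p c`, and `sc a + sc b ≤ α + β ≤ p a + p b`. So `st ≤ p c`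
and `st ≤ p a + p b`: hence `st ≤` all three pair sums and `st ≤ max`. Cyclically for the others.
Repeated corners: if `a = b`: then `leg a b c`, `leg b c a` are empty (`α = β = 0`), `dd a b = 0`, `α' = β' = - p a`, `sc a = sc b = 0` (`sc ≤ α`), `2 sc c ≤ max 0 (γ' + p a)` and `γ' ≤ p a`:
`γ' + α' ≤ 0` gives `γ' ≤ p a`, so `sc c ≤ p a`. If `a = b = c` all legs are empty.
-/

namespace Pool.Agent.Work.MP_5ce8c0_co.FH

open Classical

variable {V I : Type} [PartialOrder I] [Fintype I] (T : Lam V I)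

private theorem Lam.mem_leg' {a b c : V} {i : I} :
    i ∈ T.leg a b c ↔ ¬ (i ∈ T.C a ↔ i ∈ T.C b) ∧ ¬ (i ∈ T.C a ↔ i ∈ T.C c) := by
  unfold Lam.leg
  simp only [Finset.mem_filter, Finset.mem_univ, true_and]

private theorem Lam.leg_swap (a b c : V) : T.leg a c b = T.leg a b c := by
  ext i
  rw [T.mem_leg', T.mem_leg']
  exact and_comm

theorem Lam.dd_leg (a b c : V) : T.dd a b = (T.leg a b c).card + (T.leg b c a).card := by
  have h1 : symmDiff (T.C a) (T.C b) = T.leg a b c ∪ T.leg b c a := by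
    ext i
    rw [Finset.mem_union, T.mem_leg', T.mem_leg', Finset.mem_symmDiff]
    tauto
  have h2 : Disjoint (T.leg a b c) (T.leg b c a) := by
    rw [Finset.disjoint_left]
    intro i hi hi'
    rw [T.mem_leg'] at hi hi'
    tauto
  unfold Lam.dd
  rw [h1, Finset.card_union_of_disjoint h2]

theorem Lam.sc_le (p : V → ℕ) (hev : ∀ u v, Even (T.dd u v)) (hp : ∀ v, Even (p v)) (a b c : V) :
    T.sc p a b c ≤ (T.leg a b c).card ∧
    2 * (T.sc p a b c : ℤ) ≤ max 0 (max (((T.leg a b c).card - p a : ℤ) - ((T.leg b c a).card - p b : ℤ))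
      (((T.leg a b c).card - p a : ℤ) - ((T.leg c a b).card - p c : ℤ))) := by
  constructor
  · unfold Lam.sc
    refine Finset.card_le_card fun i hi => ?_
    rw [Finset.mem_filter] at hi
    rw [T.mem_leg']
    exact ⟨hi.2.1, hi.2.2.1⟩
  · have hab := T.dd_leg a b c
    have hac := T.dd_leg a c b
    rw [T.leg_swap, T.leg_swap c a b] at hac
    obtain ⟨k1, hk1⟩ := hev a b
    obtain ⟨k2, hk2⟩ := hev a c
    obtain ⟨pa, hpa⟩ := hp a
    obtain ⟨pb, hpb⟩ := hp b
    obtain ⟨pc, hpc⟩ := hp c
    set α := (T.leg a b c).card with hα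
    set β := (T.leg b c a).card with hβ
    set γ := (T.leg c a b).card with hγd
    -- the two halves
    obtain ⟨M, hM⟩ : ∃ M : ℤ, 2 * M = max ((α - p a : ℤ) - (β - p b : ℤ)) ((α - p a : ℤ) - (γ - p c : ℤ)) := by
      rcases le_total ((α - p a : ℤ) - (β - p b : ℤ)) ((α - p a : ℤ) - (γ - p c : ℤ)) with h | h
      · rw [max_eq_right h]
        exact ⟨(k2 : ℤ) - γ - pa + pc, by omega⟩
      · rw [max_eq_left h]
        exact ⟨(k1 : ℤ) - β - pa + pb, by omega⟩
    rw [← hM]
    have hdi : ∀ i, T.Sw p i a b c → (α : ℤ) - M ≤ T.di a i ∧ T.di a i < α := by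
      rintro i ⟨h1, h2, h3⟩
      refine ⟨?_, T.di_lt (T.mem_leg'.2 ⟨h1, h2⟩)⟩
      have h4 := T.di_add h1
      have h5 := T.di_add h2
      by_cases h6 : T.Near p i a b
      · have h7 : ¬ T.Near p i a c := fun h7 => h3 ⟨h6, h7⟩
        unfold Lam.Near at h7
        omega
      · unfold Lam.Near at h6
        omega
    by_cases hM0 : M ≤ 0
    · have h1 : T.sc p a b c = 0 := by
        unfold Lam.sc
        rw [Finset.card_eq_zero, Finset.filter_eq_empty_iff]
        intro i _ hi
        obtain ⟨h2, h3⟩ := hdi i hi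
        omega
      rw [h1]
      simp
    · push Not at hM0
      have h1 : T.sc p a b c ≤ (Finset.Ico (α - M.toNat) α).card := by
        unfold Lam.sc
        refine Finset.card_le_card_of_injOn (fun i => T.di a i) ?_ ?_
        · intro i hi
          rw [Finset.mem_coe, Finset.mem_filter] at hi
          obtain ⟨h2, h3⟩ := hdi i hi.2
          rw [Finset.mem_coe, Finset.mem_Ico]
          simp only
          omega
        · intro i hi j hj hij
          rw [Finset.mem_coe, Finset.mem_filter] at hi hj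
          exact T.di_inj hi.2.1 hj.2.1 hij
      rw [Nat.card_Ico] at h1
      have h2 : (T.sc p a b c : ℤ) ≤ M := by omega
      refine le_trans ?_ (le_max_right _ _)
      omega

theorem Lam.face_bound (p : V → ℕ) (hev : ∀ u v, Even (T.dd u v)) (hp : ∀ v, Even (p v)) (a b c : V)
    (hab : T.dd a b ≤ p a + p b) (hbc : T.dd b c ≤ p b + p c) (hca : T.dd c a ≤ p c + p a) :
    T.st p a b c ≤ bd p a b c ∧ T.st p a b c ≤ max (p a) (max (p b) (p c)) := by
  have h1 := T.dd_leg a b c
  have h2 := T.dd_leg b c a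
  have h3 := T.dd_leg c a b
  obtain ⟨h4, h5⟩ := T.sc_le p hev hp a b c
  obtain ⟨h6, h7⟩ := T.sc_le p hev hp b c a
  obtain ⟨h8, h9⟩ := T.sc_le p hev hp c a b
  have e1 : a = b → p a = p b ∧ (T.leg a b c).card = 0 ∧ (T.leg b c a).card = 0 := by
    rintro rfl
    refine ⟨rfl, ?_, ?_⟩
    · rw [Finset.card_eq_zero, Finset.eq_empty_iff_forall_notMem]
      intro i hi
      rw [T.mem_leg'] at hi
      exact hi.1 Iff.rfl
    · rw [Finset.card_eq_zero, Finset.eq_empty_iff_forall_notMem]
      intro i hi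
      rw [T.mem_leg'] at hi
      exact hi.2 Iff.rfl
  have e2 : b = c → p b = p c ∧ (T.leg b c a).card = 0 ∧ (T.leg c a b).card = 0 := by
    rintro rfl
    refine ⟨rfl, ?_, ?_⟩
    · rw [Finset.card_eq_zero, Finset.eq_empty_iff_forall_notMem]
      intro i hi
      rw [T.mem_leg'] at hi
      exact hi.1 Iff.rfl
    · rw [Finset.card_eq_zero, Finset.eq_empty_iff_forall_notMem]
      intro i hi
      rw [T.mem_leg'] at hi
      exact hi.2 Iff.rfl
  have e3 : a = c → p a = p c ∧ (T.leg a b c).card = 0 ∧ (T.leg c a b).card = 0 := by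
    rintro rfl
    refine ⟨rfl, ?_, ?_⟩
    · rw [Finset.card_eq_zero, Finset.eq_empty_iff_forall_notMem]
      intro i hi
      rw [T.mem_leg'] at hi
      exact hi.2 Iff.rfl
    · rw [Finset.card_eq_zero, Finset.eq_empty_iff_forall_notMem]
      intro i hi
      rw [T.mem_leg'] at hi
      exact hi.1 Iff.rfl
  rw [h1] at hab
  rw [h2] at hbc
  rw [h3] at hca
  unfold Lam.st bd
  clear h1 h2 h3
  generalize T.sc p a b c = sA at *
  generalize T.sc p b c a = sB at *
  generalize T.sc p c a b = sC at *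
  generalize (T.leg a b c).card = α at *
  generalize (T.leg b c a).card = β at *
  generalize (T.leg c a b).card = γ at *
  split_ifs with c1 c2 c3 c4
  · obtain ⟨f1, f2, f3⟩ := e1 c1.1
    obtain ⟨f4, f5, f6⟩ := e2 c1.2
    constructor <;> omega
  · obtain ⟨f1, f2, f3⟩ := e1 c2
    constructor <;> omega
  · obtain ⟨f1, f2, f3⟩ := e2 c3
    constructor <;> omega
  · obtain ⟨f1, f2, f3⟩ := e3 c4
    constructor <;> omega
  · clear e1 e2 e3
    constructor <;> omega

end Pool.Agent.Work.MP_5ce8c0_co.FH
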