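import Pool.Agent.Work.MP_5ce8c0_co.FH.TreeD

set_option autoImplicit false

/-!
# FH/FaceG (S-M): switches of a triangle, dart by dart; the ear lemma; near ends

`gt_sum`: the filters of `Gt i a b c`, `Gt i b c a`, `Gt i c a b` are pairwise disjoint and their union is the disjoint union of the filters of `Sw i a b c`, `Sw i b c a`, `Sw i c a b`:
case distinction on `i ∈ C a`, `i ∈ C b`, `i ∈ C c` (e.g. write all cards as sums of indicator functions and compare termwise: `Finset.card_filter`,
`Finset.sum_add_distrib`, `Finset.sum_congr`, then `by_cases` and `simp`/`tauto`).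
`near_total`: `di a i + di b i + 1 = dd a b` is even and `p a, p b` are even, so `p a - di a i ≠ p b - di b i`.
`not_near`: `(p a - di a i) + (p b - di b i) = p a + p b - dd a b + 1 ≥ 1`.
`ear`: let `h w = (C w).card`, `λ u v = (C u ∩ C v).card`, `dd u v = h u + h v - 2 λ u v`. `C u ∩ C v` and `C v ∩ C w` are up-closed subsets of the chain `C v`, so one contains the other, and the
smaller is contained in `C u ∩ C w`: `λ u w ≥ min (λ u v) (λ v w)`. Say the minimum is `l = λ u v` (the other case is symmetric): `h u - l ≤ p u + p v - (h v - l)`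
`= p u - (h v - p v) + l` and `h w ≤ p w + (h v - p v)`. So `dd u w ≤ (h u - l) + (h w - l) ≤ p u + p w`.
-/

namespace Pool.Agent.Work.MP_5ce8c0_co.FH

open Classical

variable {V I : Type} [PartialOrder I] [Fintype I] (T : Lam V I)

theorem Lam.gt_sum (p : V → ℕ) (a b c : V) :
    T.gt p a b c + T.gt p b c a + T.gt p c a b = T.st p a b c := by
  unfold Lam.gt Lam.st Lam.sc
  simp only [Finset.card_filter]
  rw [← Finset.sum_add_distrib, ← Finset.sum_add_distrib, ← Finset.sum_add_distrib,
    ← Finset.sum_add_distrib]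
  refine Finset.sum_congr rfl fun i _ => ?_
  by_cases hA : i ∈ T.C a <;> by_cases hB : i ∈ T.C b <;> by_cases hC : i ∈ T.C c <;>
    by_cases n1 : T.Near p i a b <;> by_cases n2 : T.Near p i a c <;>
    by_cases n3 : T.Near p i b a <;> by_cases n4 : T.Near p i b c <;>
    by_cases n5 : T.Near p i c a <;> by_cases n6 : T.Near p i c b <;>
    simp only [Lam.Gt, Lam.Sw, hA, hB, hC, n1, n2, n3, n4, n5, n6, and_true, true_and, and_false,
      false_and, not_true_eq_false, not_false_eq_true, iff_self, if_true, if_false, imp_false,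
      forall_true_left, iff_true, iff_false, IsEmpty.forall_iff]

theorem Lam.near_total (p : V → ℕ) (hev : ∀ u v, Even (T.dd u v)) (hp : ∀ v, Even (p v)) {a b : V} {i : I}
    (h : ¬ (i ∈ T.C a ↔ i ∈ T.C b)) : ¬ T.Near p i a b ↔ T.Near p i b a := by
  unfold Lam.Near
  have h1 := T.di_add h
  obtain ⟨x, hx⟩ := hev a b
  obtain ⟨y, hy⟩ := hp a
  obtain ⟨z, hz⟩ := hp b
  rw [not_lt]
  constructor
  · intro h2
    omega
  · intro h2
    omega

theorem Lam.not_near (p : V → ℕ) {a b : V} {i : I} (h : ¬ (i ∈ T.C a ↔ i ∈ T.C b))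
    (hab : T.dd a b ≤ p a + p b) (ha : p a ≤ T.di a i) : T.Near p i b a := by
  unfold Lam.Near
  have h1 := T.di_add h
  omega

private theorem Lam.dd_card (u v : V) :
    T.dd u v + 2 * (T.C u ∩ T.C v).card = (T.C u).card + (T.C v).card := by
  unfold Lam.dd
  have h1 := Finset.card_sdiff_add_card_inter (T.C u) (T.C v)
  have h2 := Finset.card_sdiff_add_card_inter (T.C v) (T.C u)
  have h3 : (symmDiff (T.C u) (T.C v)).card = (T.C u \ T.C v).card + (T.C v \ T.C u).card := by
    rw [symmDiff_def, Finset.sup_eq_union, Finset.card_union_of_disjoint]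
    rw [Finset.disjoint_left]
    intro x hx hy
    rw [Finset.mem_sdiff] at hx hy
    exact hx.2 hy.1
  rw [Finset.inter_comm (T.C v) (T.C u)] at h2
  omega

private theorem Lam.ear_aux (u v w : V) :
    (T.C u ∩ T.C v ⊆ T.C w) ∨ (T.C v ∩ T.C w ⊆ T.C u) := by
  by_contra hcon
  rw [not_or] at hcon
  obtain ⟨h1, h2⟩ := hcon
  rw [Finset.not_subset] at h1 h2
  obtain ⟨i, hi, hiw⟩ := h1
  obtain ⟨j, hj, hju⟩ := h2
  rw [Finset.mem_inter] at hi hj
  rcases T.chain v i j hi.2 hj.1 with h | h
  · exact hju (T.up u i j hi.1 h)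
  · exact hiw (T.up w j i hj.2 h)

theorem Lam.ear (p : V → ℕ) (u v w : V) (huv : T.dd u v ≤ p u + p v) (hvw : T.dd v w ≤ p v + p w)
    (h1 : ((T.C u).card : ℤ) - p u ≤ ((T.C v).card : ℤ) - p v)
    (h2 : ((T.C w).card : ℤ) - p w ≤ ((T.C v).card : ℤ) - p v) : T.dd u w ≤ p u + p w := by
  have d1 := T.dd_card u v
  have d2 := T.dd_card v w
  have d3 := T.dd_card u w
  rcases T.ear_aux u v w with h | h
  · have h3 : (T.C u ∩ T.C v).card ≤ (T.C u ∩ T.C w).card := by
      refine Finset.card_le_card fun x hx => ?_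
      exact Finset.mem_inter.2 ⟨(Finset.mem_inter.1 hx).1, h hx⟩
    omega
  · have h3 : (T.C v ∩ T.C w).card ≤ (T.C u ∩ T.C w).card := by
      refine Finset.card_le_card fun x hx => ?_
      exact Finset.mem_inter.2 ⟨h hx, (Finset.mem_inter.1 hx).2⟩
    omega


end Pool.Agent.Work.MP_5ce8c0_co.FH
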