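import Pool.Agent.Work.MP_5ce8c0_co.FH.Triang
import Pool.Agent.Work.MP_5ce8c0_co.FH.FaceG

set_option autoImplicit false

/-!
# FH/RotMap (M): from a rotation system to a triangulated map

`deg_four`: a vertex `v` of a 4-connected graph has at least `4` neighbours (otherwise delete them: `v` is isolated, and there are at least 2 vertices left, not connected). We only need: every vertex has a neighbour, and
for `G.Adj a b` there is `c ≠ b` with `G.Adj a c`.
`rotmap`: `al = flip G`, `ph = R.face = R.next * flip G`, `tail = fst`; `ph * al = R.next`. `ph d = d` is impossible (`(ph d).fst = d.snd ≠ d.fst`). `ph (ph d) = d`: `ph d` goes from `d.snd` to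
`d.fst`, so `ph d = d.symm`, `R.next d.symm = d.symm`, so by `cyclic` `d.symm` is the only dart at `d.snd`, contradiction (see `face_ne_symm`, `face2` in MP_85d607_co/Euler.lean).
`exists_tri`: `hE` says `|E| ≤ |V| + ncyc R.face`, `card G.Dart = 2 |E|` (`SimpleGraph.dart_card_eq_twice_card_edges`; `Nat.card`, `Fintype.card`, `Set.Elem` conversions, see `card_dart` in MP_85d607_co/Euler.lean), so `card D ≤ 2 |V| + 2 ncyc`. Apply
`triang` with `Q u v = (T.dd u v ≤ p u + p v)`, `f v = (T.C v).card - p v` and `Lam.ear`.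
-/

namespace Pool.Agent.Work.MP_5ce8c0_co.FH

open Classical

variable {V : Type} [Fintype V]

theorem exists_nbrs (G : SimpleGraph V) (hG : FourConn G) (v : V) (S : Finset V) (hS : S.card < 4) :
    ∃ u, G.Adj v u ∧ u ∉ S := by
  have hS' : (S.erase v).card < 4 := lt_of_le_of_lt (Finset.card_erase_le) hS
  have hconn := hG.2 (S.erase v) hS'
  have hv : v ∈ ((↑(S.erase v) : Set V)ᶜ) := by
    rw [Set.mem_compl_iff, Finset.mem_coe]
    exact Finset.notMem_erase v S
  obtain ⟨u0, hu0⟩ : ∃ u0, u0 ∉ insert v (S.erase v) := by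
    by_contra hcon
    push Not at hcon
    have h1 : (Finset.univ : Finset V) ⊆ insert v (S.erase v) := fun x _ => hcon x
    have h2 := Finset.card_le_card h1
    have h3 := Finset.card_insert_le v (S.erase v)
    rw [Finset.card_univ] at h2
    have h4 := hG.1
    omega
  rw [Finset.mem_insert, not_or] at hu0
  have hu : u0 ∈ ((↑(S.erase v) : Set V)ᶜ) := by
    rw [Set.mem_compl_iff, Finset.mem_coe]
    exact hu0.2
  obtain ⟨p⟩ := hconn.preconnected ⟨v, hv⟩ ⟨u0, hu⟩
  have hne : (⟨v, hv⟩ : ((↑(S.erase v) : Set V)ᶜ : Set V)) ≠ ⟨u0, hu⟩ := by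
    intro h
    exact hu0.1 (congrArg Subtype.val h).symm
  obtain ⟨w, hw⟩ : ∃ w, (G.induce ((↑(S.erase v) : Set V)ᶜ)).Adj ⟨v, hv⟩ w := by
    cases p with
    | nil => exact absurd rfl hne
    | cons h _ => exact ⟨_, h⟩
  have hadj : G.Adj v w.1 := hw
  refine ⟨w.1, hadj, ?_⟩
  intro hwS
  have h1 : w.1 ∉ S.erase v := by
    have h2 := w.2
    rw [Set.mem_compl_iff, Finset.mem_coe] at h2
    exact h2
  exact h1 (Finset.mem_erase.2 ⟨hadj.ne', hwS⟩)

omit [Fintype V] in
private theorem flip_apply (G : SimpleGraph V) (d : G.Dart) : flip G d = d.symm := rfl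

omit [Fintype V] in
private theorem face_apply {G : SimpleGraph V} (R : Rotation G) (d : G.Dart) :
    R.face d = R.next d.symm := rfl

omit [Fintype V] in
private theorem face_fst {G : SimpleGraph V} (R : Rotation G) (d : G.Dart) :
    (R.face d).fst = d.snd := by
  rw [face_apply, R.fst_next]
  rfl

theorem rotmap (G : SimpleGraph V) (hG : FourConn G) (R : Rotation G) :
    ∃ M : CMap V G.Dart, (∀ y, M.ph y ≠ y) ∧ (∀ y, M.ph (M.ph y) ≠ y) ∧ M.ph = R.face ∧
      (∀ d, M.tail d = d.fst) ∧ ∀ d, M.tail (M.ph d) = d.snd := by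
  have hmul : R.face * flip G = R.next := by
    ext1 d
    rw [Equiv.Perm.mul_apply, face_apply, flip_apply, SimpleGraph.Dart.symm_symm]
  refine ⟨{ al := flip G, ph := R.face, tail := fun d => d.fst, al_al := ?_, al_ne := ?_,
            tail_ph := ?_, vert := ?_, surj := ?_ }, ?_, ?_, rfl, fun d => rfl, fun d => face_fst R d⟩
  · intro d
    rw [flip_apply, flip_apply, SimpleGraph.Dart.symm_symm]
  · intro d
    rw [flip_apply]
    exact SimpleGraph.Dart.symm_ne d
  · intro d
    exact face_fst R d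
  · intro x y hxy
    rw [hmul]
    exact R.cyclic x y hxy
  · intro v
    obtain ⟨u, hu, -⟩ := exists_nbrs G hG v ∅ (by simp)
    exact ⟨⟨(v, u), hu⟩, rfl⟩
  · intro y hy
    have h1 := face_fst R y
    have hy' : R.face y = y := hy
    rw [hy'] at h1
    exact y.adj.ne h1
  · intro y hy
    have hy' : R.face (R.face y) = y := hy
    have h1 := face_fst R y
    have h2 := face_fst R (R.face y)
    rw [hy'] at h2
    have h3 : R.face y = y.symm := by
      apply SimpleGraph.Dart.ext
      apply Prod.ext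
      · exact h1
      · exact h2.symm
    rw [face_apply] at h3
    obtain ⟨c, hc, hcn⟩ := exists_nbrs G hG y.snd {y.fst} (by simp)
    have h4 : R.next.SameCycle y.symm ⟨(y.snd, c), hc⟩ := R.cyclic _ _ rfl
    obtain ⟨i, hi⟩ := h4
    rw [Equiv.Perm.zpow_apply_eq_self_of_apply_eq_self h3] at hi
    have h5 := congrArg (fun d : G.Dart => d.snd) hi
    apply hcn
    rw [Finset.mem_singleton]
    exact h5.symm

theorem exists_tri (G : SimpleGraph V) (hG : FourConn G) (R : Rotation G)
    (hE : Nat.card G.edgeSet ≤ Fintype.card V + ncyc R.face)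
    {I : Type} [PartialOrder I] [Fintype I] (T : Lam V I) (p : V → ℕ)
    (hd : ∀ u v, G.Adj u v → T.dd u v ≤ p u + p v) :
    ∃ (D : Type) (_ : Fintype D) (M : CMap V D), M.Tri ∧ Fintype.card D ≤ 6 * Fintype.card V ∧
      M.Hosts G ∧ ∀ x, T.dd (M.tail x) (M.tail (M.ph x)) ≤ p (M.tail x) + p (M.tail (M.ph x)) := by
  obtain ⟨M, h1, h2, h3, h4, h5⟩ := rotmap G hG R
  have hcard : Fintype.card G.Dart ≤ 2 * Fintype.card V + 2 * ncyc M.ph := by
    rw [SimpleGraph.dart_card_eq_twice_card_edges, h3]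
    have h6 : Nat.card G.edgeSet = G.edgeFinset.card := by
      rw [Nat.card_eq_fintype_card, SimpleGraph.edgeFinset_card]
    omega
  obtain ⟨D, iD, M', k1, k2, k3, k4⟩ := triang M h1 h2 hcard
    (fun u v => T.dd u v ≤ p u + p v) (fun v => ((T.C v).card : ℤ) - p v)
    (fun u v h => by
      show T.dd v u ≤ p v + p u
      have h7 : T.dd v u = T.dd u v := by
        unfold Lam.dd
        rw [symmDiff_comm]
      rw [h7, add_comm]
      exact h)
    (fun u v w huv hvw hu hw => T.ear p u v w huv hvw hu hw)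
    (fun x => by
      show T.dd (M.tail x) (M.tail (M.ph x)) ≤ p (M.tail x) + p (M.tail (M.ph x))
      rw [h4, h5]
      exact hd _ _ x.adj)
  refine ⟨D, iD, M', k1, k2, ?_, k4⟩
  intro u v huv
  obtain ⟨y, hy1, hy2⟩ := k3 ⟨(u, v), huv⟩
  rw [h4] at hy1
  rw [h5] at hy2
  exact ⟨y, hy1, hy2⟩

end Pool.Agent.Work.MP_5ce8c0_co.FH
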