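import Pool.Agent.Work.MP_5ce8c0_co.FH.SwitchA

set_option autoImplicit false

/-!
# FH/SwitchB (M): at least four switches

PROOF. Let `X = image n (swset S n)`, `|X| ≤ |swset|`; suppose `|X| < 4`. `a, b ∉ X` (the elements of `swset` cross). `G` minus `X` is connected (`hG.2 X`), so there is a walk from `a` to `b` avoiding
`X`. Call a vertex `v` isolated if `v ∉ X` and `v = n y` for some crossing `y`; then by `iso_of_not_mem` all darts `x` with tail `v` cross and have `n x = v`. Let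
`Q = {v ∈ S | v not isolated} ∪ {v ∉ S | v isolated}`. Then `a ∈ Q`, `b ∉ Q` (`a`, `b` are not isolated by `ha'`, `hb'`). Claim: an edge of `G` between vertices `u, v ∉ X` does not join `Q` and its
complement (then the walk gives a contradiction; e.g. `Reachable` in the induced graph, induction on the walk). Let `x` be a dart of `M` from `u` to `v` (hosted), `u ∈ Q`, `v ∉ Q`. (1) `u, v ∈ S`: `v` is isolated but the dart `al x` at `v`
does not cross. (2) `u ∈ S`, `v ∉ S` not isolated, `u` not isolated: `x` crosses, `n x ∈ {u, v}`, not in `X`, so it is isolated, contradiction. (3) `u ∉ S` isolated, `v ∉ S`: the dart `x` at `u` does not cross.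
(4) `u ∉ S` isolated, `v ∈ S` isolated: `n x = u` and `n (al x) = v`, but `n (al x) = n x` and `u ≠ v`.
-/

namespace Pool.Agent.Work.MP_5ce8c0_co.FH

open Classical

variable {V D : Type} [Fintype V] [Fintype D]

theorem four_le_switch (G : SimpleGraph V) (hG : FourConn G) (M : CMap V D) (hM : M.Tri) (hH : M.Hosts G)
    (S : Finset V) (n : D → V)
    (hn : ∀ x, ¬ (M.tail x ∈ S ↔ M.tail (M.ph x) ∈ S) → n x = M.tail x ∨ n x = M.tail (M.ph x))
    (hsym : ∀ x, ¬ (M.tail x ∈ S ↔ M.tail (M.ph x) ∈ S) → n (M.al x) = n x)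
    (a b : V) (ha : a ∈ S) (hb : b ∉ S)
    (ha' : ∀ x, ¬ (M.tail x ∈ S ↔ M.tail (M.ph x) ∈ S) → n x ≠ a)
    (hb' : ∀ x, ¬ (M.tail x ∈ S ↔ M.tail (M.ph x) ∈ S) → n x ≠ b) :
    4 ≤ (M.swset S n).card := by
  by_contra hlt
  push Not at hlt
  set X : Finset V := (M.swset S n).image n with hX
  have hXc : X.card < 4 := lt_of_le_of_lt Finset.card_image_le hlt
  have hconn := hG.2 X hXc
  have hsw : ∀ x ∈ M.swset S n, ¬ (M.tail x ∈ S ↔ M.tail (M.ph x) ∈ S) := by
    intro x hx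
    unfold CMap.swset at hx
    have h1 := (Finset.mem_filter.1 hx).2
    intro h2
    exact h1.2.1 (h2.1 h1.1)
  have haX : a ∉ X := by
    intro h1
    obtain ⟨x, hx, hxa⟩ := Finset.mem_image.1 h1
    exact ha' x (hsw x hx) hxa
  have hbX : b ∉ X := by
    intro h1
    obtain ⟨x, hx, hxa⟩ := Finset.mem_image.1 h1
    exact hb' x (hsw x hx) hxa
  let iso : V → Prop := fun v => ∃ y, ¬ (M.tail y ∈ S ↔ M.tail (M.ph y) ∈ S) ∧ n y = v
  have hiso : ∀ v, v ∉ X → iso v → ∀ x, M.tail x = v →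
      ¬ (M.tail x ∈ S ↔ M.tail (M.ph x) ∈ S) ∧ n x = v := by
    rintro v hv ⟨y, hy, rfl⟩ x hx
    exact iso_of_not_mem M hM S n hn hsym y hy hv x hx
  let P : V → Prop := fun v => (v ∈ S ∧ ¬ iso v) ∨ (v ∉ S ∧ iso v)
  have hstep : ∀ u v, u ∉ X → v ∉ X → G.Adj u v → P u → P v := by
    intro u v hu hv huv hPu
    obtain ⟨x, hx1, hx2⟩ := hH u v huv
    have hy1 : M.tail (M.al x) = v := by rw [← M.tail_ph, hx2]
    have hy2 : M.tail (M.ph (M.al x)) = u := by rw [M.tail_ph, M.al_al, hx1]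
    rcases hPu with ⟨h1, h2⟩ | ⟨h1, h2⟩
    · by_cases h3 : v ∈ S
      · refine Or.inl ⟨h3, fun h4 => ?_⟩
        have h5 := (hiso v hv h4 (M.al x) hy1).1
        rw [hy1, hy2] at h5
        exact h5 ⟨fun _ => h1, fun _ => h3⟩
      · refine Or.inr ⟨h3, ?_⟩
        have hcr : ¬ (M.tail x ∈ S ↔ M.tail (M.ph x) ∈ S) := by
          rw [hx1, hx2]
          exact fun h4 => h3 (h4.1 h1)
        rcases hn x hcr with h4 | h4
        · exact (h2 ⟨x, hcr, h4.trans hx1⟩).elim
        · exact ⟨x, hcr, h4.trans hx2⟩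
    · have h5 := hiso u hu h2 x hx1
      rw [hx1, hx2] at h5
      by_cases h3 : v ∈ S
      · refine Or.inl ⟨h3, fun h4 => ?_⟩
        have h6 := (hiso v hv h4 (M.al x) hy1).2
        have hcr : ¬ (M.tail x ∈ S ↔ M.tail (M.ph x) ∈ S) := by
          rw [hx1, hx2]
          exact h5.1
        rw [hsym x hcr, h5.2] at h6
        exact h1 (h6 ▸ h3)
      · exact (h5.1 ⟨fun h => (h1 h).elim, fun h => (h3 h).elim⟩).elim
  have hreach : (G.induce ((↑X : Set V)ᶜ)).Reachable ⟨a, haX⟩ ⟨b, hbX⟩ := hconn.preconnected _ _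
  rw [SimpleGraph.reachable_iff_reflTransGen] at hreach
  have hall : ∀ w : ((↑X : Set V)ᶜ : Set V),
      Relation.ReflTransGen (G.induce ((↑X : Set V)ᶜ)).Adj ⟨a, haX⟩ w → P w := by
    intro w hw
    induction hw with
    | refl => exact Or.inl ⟨ha, fun ⟨x, hx1, hx2⟩ => ha' x hx1 hx2⟩
    | @tail u v _ h2 ih => exact hstep u.1 v.1 u.2 v.2 h2 ih
  rcases hall _ hreach with ⟨h1, -⟩ | ⟨-, x, hx1, hx2⟩
  · exact hb h1
  · exact hb' x hx1 hx2

end Pool.Agent.Work.MP_5ce8c0_co.FH
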