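import Pool.Agent.Work.MP_5ce8c0_co.FH.LSum
import Pool.Agent.Work.MP_5ce8c0_co.FH.SwitchB
import Pool.Agent.Work.MP_5ce8c0_co.FH.FaceB
import Pool.Agent.Work.MP_5ce8c0_co.FH.RotMap

set_option autoImplicit false

/-!
# FH/Core (M): the main inequality for even families without small sets

PROOF. Take `D, M` from `exists_tri`. For `i` let `S = {v | i ∈ C v}`, `n x = if Near i (tail x) (tail (ph x)) then tail x else tail (ph x)`. `hn` is clear, `hsym` is `near_total` (the ends of `al x` are exchanged: `tail (al x) = tail (ph x)`,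
`tail (ph (al x)) = tail x`). `ha'`, `hb'`: `not_near` (a vertex `a` with `p a ≤ di a i` is never the near end of a crossing dart). So `4 ≤ (swset S n).card`, and
`swset S n ⊆ {x | Gt i (tail x) (tail (ph x)) (tail (ph (ph x)))}` (with `near_total`; the darts `x`, `ph x` resp. `ph (ph x)` cross). Sum over `i`, exchange the sums:
`4 card I ≤ ∑ x, gt (tail x) (tail (ph x)) (tail (ph (ph x)))`. By rotation of the darts (`ph` is a bijection, `ph³ = 1`) and `gt_sum`: `3 ∑ x, gt = ∑ x, st (tail x) (tail (ph x)) (tail (ph (ph x)))`, which is at most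
`12 ∑ p` by `level_sum` with `face_bound`.
-/

namespace Pool.Agent.Work.MP_5ce8c0_co.FH

open Classical

variable {V : Type} [Fintype V]

theorem core (G : SimpleGraph V) (hG : FourConn G) (R : Rotation G)
    (hE : Nat.card G.edgeSet ≤ Fintype.card V + ncyc R.face)
    {I : Type} [PartialOrder I] [Fintype I] (T : Lam V I) (p : V → ℕ)
    (hd : ∀ u v, G.Adj u v → T.dd u v ≤ p u + p v)
    (hev : ∀ u v, Even (T.dd u v)) (hp : ∀ v, Even (p v))
    (hH : ∀ i, (∃ a, i ∈ T.C a ∧ p a ≤ T.di a i) ∧ ∃ b, i ∉ T.C b ∧ p b ≤ T.di b i) :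
    Fintype.card I ≤ ∑ v, p v := by
  obtain ⟨D, hDf, M, hTri, hcard, hHosts, hMd⟩ := exists_tri G hG R hE T p hd
  have hph3 : ∀ x, M.ph (M.ph (M.ph x)) = x := hTri.1
  have hta : ∀ x, M.tail (M.al x) = M.tail (M.ph x) := fun x => (M.tail_ph x).symm
  have htpa : ∀ x, M.tail (M.ph (M.al x)) = M.tail x := fun x => by
    rw [M.tail_ph, M.al_al]
  have hasym : ∀ (i : I) (a b : V), T.Near p i a b → ¬ T.Near p i b a := by
    intro i a b h1 h2
    exact lt_asymm h1 h2
  -- every member has four switches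
  have hfour : ∀ i : I, 4 ≤ (Finset.univ.filter fun x : D =>
      T.Gt p i (M.tail x) (M.tail (M.ph x)) (M.tail (M.ph (M.ph x)))).card := by
    intro i
    obtain ⟨⟨a, hia, hpa⟩, b, hib, hpb⟩ := hH i
    obtain ⟨S, hS⟩ : ∃ S : Finset V, ∀ v, v ∈ S ↔ i ∈ T.C v :=
      ⟨Finset.univ.filter fun v => i ∈ T.C v, fun v => by simp⟩
    obtain ⟨n, hn⟩ : ∃ n : D → V, ∀ x, n x =
        if T.Near p i (M.tail x) (M.tail (M.ph x)) then M.tail x else M.tail (M.ph x) :=
      ⟨_, fun x => rfl⟩
    have hn1 : ∀ x, T.Near p i (M.tail x) (M.tail (M.ph x)) → n x = M.tail x := by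
      intro x hx
      rw [hn, if_pos hx]
    have hn2 : ∀ x, ¬ T.Near p i (M.tail x) (M.tail (M.ph x)) → n x = M.tail (M.ph x) := by
      intro x hx
      rw [hn, if_neg hx]
    have hcr : ∀ x, ¬ (M.tail x ∈ S ↔ M.tail (M.ph x) ∈ S) →
        ¬ (i ∈ T.C (M.tail x) ↔ i ∈ T.C (M.tail (M.ph x))) := by
      intro x hx
      rwa [hS, hS] at hx
    have hno : ∀ c : V, p c ≤ T.di c i → ∀ x, ¬ (M.tail x ∈ S ↔ M.tail (M.ph x) ∈ S) → n x ≠ c := by
      intro c hc x hx hxc
      have hx' := hcr x hx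
      by_cases hN : T.Near p i (M.tail x) (M.tail (M.ph x))
      · have h1 : M.tail x = c := (hn1 x hN).symm.trans hxc
        have h2 := T.not_near p hx' (hMd x) (by rw [h1]; exact hc)
        exact hasym _ _ _ hN h2
      · have h1 : M.tail (M.ph x) = c := (hn2 x hN).symm.trans hxc
        have h3 : ¬ (i ∈ T.C (M.tail (M.ph x)) ↔ i ∈ T.C (M.tail x)) := fun h => hx' h.symm
        have h2 := T.not_near p h3 (by rw [T.dd_comm, add_comm]; exact hMd x) (by rw [h1]; exact hc)
        exact hN h2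
    have h4 := four_le_switch G hG M hTri hHosts S n
      (by
        intro x _
        by_cases hN : T.Near p i (M.tail x) (M.tail (M.ph x))
        · exact Or.inl (hn1 x hN)
        · exact Or.inr (hn2 x hN))
      (by
        intro x hx
        have hx' := hcr x hx
        have h3 : ¬ (i ∈ T.C (M.tail (M.ph x)) ↔ i ∈ T.C (M.tail x)) := fun h => hx' h.symm
        by_cases hN : T.Near p i (M.tail x) (M.tail (M.ph x))
        · rw [hn1 x hN]
          have h5 : ¬ T.Near p i (M.tail (M.al x)) (M.tail (M.ph (M.al x))) := by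
            rw [hta, htpa]
            exact hasym _ _ _ hN
          rw [hn2 _ h5, htpa]
        · rw [hn2 x hN]
          have h5 : T.Near p i (M.tail (M.al x)) (M.tail (M.ph (M.al x))) := by
            rw [hta, htpa]
            exact (T.near_total p hev hp hx').1 hN
          rw [hn1 _ h5, hta])
      a b ((hS a).2 hia) (fun h => hib ((hS b).1 h)) (hno a hpa) (hno b hpb)
    refine h4.trans (Finset.card_le_card ?_)
    intro x hx
    unfold CMap.swset at hx
    rw [Finset.mem_filter] at hx ⊢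
    obtain ⟨-, hx1, hx2, hx3, hx4⟩ := hx
    refine ⟨Finset.mem_univ _, (hS _).1 hx1, fun h => hx2 ((hS _).2 h), ?_, ?_⟩
    · rintro hc ⟨h1, h2⟩
      refine hx3 ((hS _).2 hc) ⟨hn2 x (hasym _ _ _ h1), hn1 (M.ph x) h2⟩
    · rintro hc ⟨h1, h2⟩
      refine hx4 (fun h => hc ((hS _).1 h)) ⟨hn1 x h1, ?_⟩
      have h5 : ¬ T.Near p i (M.tail (M.ph (M.ph x))) (M.tail (M.ph (M.ph (M.ph x)))) := by
        rw [hph3]
        exact hasym _ _ _ h2
      rw [hn2 _ h5, hph3]
  -- exchange of the sums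
  have hsum : 4 * Fintype.card I ≤
      ∑ x : D, T.gt p (M.tail x) (M.tail (M.ph x)) (M.tail (M.ph (M.ph x))) := by
    have e1 : ∑ x : D, T.gt p (M.tail x) (M.tail (M.ph x)) (M.tail (M.ph (M.ph x))) =
        ∑ i : I, (Finset.univ.filter fun x : D =>
          T.Gt p i (M.tail x) (M.tail (M.ph x)) (M.tail (M.ph (M.ph x)))).card := by
      unfold Lam.gt
      simp only [Finset.card_filter]
      exact Finset.sum_comm
    rw [e1]
    calc 4 * Fintype.card I = ∑ _i : I, 4 := by
          rw [Finset.sum_const, Finset.card_univ, smul_eq_mul, mul_comm]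
      _ ≤ _ := Finset.sum_le_sum fun i _ => hfour i
  -- rotation
  have r1 : ∑ x : D, T.gt p (M.tail (M.ph x)) (M.tail (M.ph (M.ph x))) (M.tail x) =
      ∑ x : D, T.gt p (M.tail x) (M.tail (M.ph x)) (M.tail (M.ph (M.ph x))) := by
    rw [← Equiv.sum_comp M.ph (fun x => T.gt p (M.tail x) (M.tail (M.ph x)) (M.tail (M.ph (M.ph x))))]
    refine Finset.sum_congr rfl fun x _ => ?_
    rw [hph3]
  have r2 : ∑ x : D, T.gt p (M.tail (M.ph (M.ph x))) (M.tail x) (M.tail (M.ph x)) =
      ∑ x : D, T.gt p (M.tail x) (M.tail (M.ph x)) (M.tail (M.ph (M.ph x))) := by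
    rw [← r1, ← Equiv.sum_comp M.ph (fun x => T.gt p (M.tail (M.ph x)) (M.tail (M.ph (M.ph x))) (M.tail x))]
    refine Finset.sum_congr rfl fun x _ => ?_
    rw [hph3]
  have r3 : ∑ x : D, T.st p (M.tail x) (M.tail (M.ph x)) (M.tail (M.ph (M.ph x))) =
      3 * ∑ x : D, T.gt p (M.tail x) (M.tail (M.ph x)) (M.tail (M.ph (M.ph x))) := by
    calc ∑ x : D, T.st p (M.tail x) (M.tail (M.ph x)) (M.tail (M.ph (M.ph x)))
        = ∑ x : D, (T.gt p (M.tail x) (M.tail (M.ph x)) (M.tail (M.ph (M.ph x))) +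
            T.gt p (M.tail (M.ph x)) (M.tail (M.ph (M.ph x))) (M.tail x) +
            T.gt p (M.tail (M.ph (M.ph x))) (M.tail x) (M.tail (M.ph x))) :=
          Finset.sum_congr rfl fun x _ => (T.gt_sum p _ _ _).symm
      _ = _ := by
          rw [Finset.sum_add_distrib, Finset.sum_add_distrib, r1, r2]
          ring
  have hfb : ∀ x : D, T.st p (M.tail x) (M.tail (M.ph x)) (M.tail (M.ph (M.ph x))) ≤
        bd p (M.tail x) (M.tail (M.ph x)) (M.tail (M.ph (M.ph x))) ∧
      T.st p (M.tail x) (M.tail (M.ph x)) (M.tail (M.ph (M.ph x))) ≤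
        max (p (M.tail x)) (max (p (M.tail (M.ph x))) (p (M.tail (M.ph (M.ph x))))) := by
    intro x
    have h3 := hMd (M.ph (M.ph x))
    rw [hph3] at h3
    exact T.face_bound p hev hp _ _ _ (hMd x) (hMd (M.ph x)) h3
  have hls := level_sum G hG M hTri hHosts hcard p
    (fun x => T.st p (M.tail x) (M.tail (M.ph x)) (M.tail (M.ph (M.ph x))))
    (fun x => (hfb x).1) (fun x => (hfb x).2)
  rw [r3] at hls
  omega

end Pool.Agent.Work.MP_5ce8c0_co.FH
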