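import Mathlib

set_option autoImplicit false

/-!
# Definitions of the board FH (fixed file): fractional Hamilton cycles of 4-connected toroidal graphs

Embeddings of finite graphs in closed orientable surfaces are described by rotation systems
(Heffter, Edmonds).
-/

namespace Pool.Agent.Work.MP_5ce8c0_co.FH

open Classical

/-- The number of cycles (orbits, fixed points included) of a permutation. -/
noncomputable def ncyc {D : Type} (π : Equiv.Perm D) : ℕ :=
  Nat.card (Quotient (Equiv.Perm.SameCycle.setoid π))

/-- A rotation system of a simple graph: `next` permutes the darts (oriented edges) of `G`, it preserves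
the initial vertex, and the darts leaving a vertex form a single cycle. -/
structure Rotation {V : Type} (G : SimpleGraph V) where
  next : Equiv.Perm G.Dart
  fst_next : ∀ d : G.Dart, (next d).fst = d.fst
  cyclic : ∀ d e : G.Dart, d.fst = e.fst → next.SameCycle d e

/-- Reversal of darts. -/
def flip {V : Type} (G : SimpleGraph V) : Equiv.Perm G.Dart :=
  Function.Involutive.toPerm SimpleGraph.Dart.symm SimpleGraph.Dart.symm_involutive

/-- The face permutation of a rotation system: after the dart `d = (a, b)` the boundary of the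
face continues with the dart that follows `(b, a)` in the rotation at `b`. -/
def Rotation.face {V : Type} {G : SimpleGraph V} (R : Rotation G) : Equiv.Perm G.Dart :=
  R.next * flip G

/-- `G` is 4-connected: more than 4 vertices, and connected after deleting any 3 or fewer vertices -/
def FourConn {V : Type} [Fintype V] (G : SimpleGraph V) : Prop :=
  4 < Fintype.card V ∧ ∀ S : Finset V, S.card < 4 → (G.induce ((↑S : Set V)ᶜ)).Connected

/-- `x` is a fractional Hamilton cycle of `G`: weights in `[0, 1]` on the edges, of sum `2` at every vertex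
and of sum at least `2` on every cut (a point of the subtour elimination polytope) -/
def FracHam {V : Type} [Fintype V] (G : SimpleGraph V) (x : V → V → ℚ) : Prop :=
  (∀ u v, x u v = x v u) ∧ (∀ u v, 0 ≤ x u v ∧ x u v ≤ 1) ∧ (∀ u v, ¬ G.Adj u v → x u v = 0) ∧
    (∀ v, ∑ u, x v u = 2) ∧
    ∀ S : Finset V, S.Nonempty → S ≠ Finset.univ → 2 ≤ ∑ u ∈ S, ∑ v ∈ Sᶜ, x u v

/-! ## combinatorial maps -/

/-- A combinatorial map with vertex set `V` and darts `D`: `al` reverses darts, `ph` is the face
permutation, `tail` the initial vertex. The terminal vertex of `x` is `tail (al x) = tail (ph x)`. The rotation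
at a vertex is `ph * al`. -/
structure CMap (V D : Type) where
  al : Equiv.Perm D
  ph : Equiv.Perm D
  tail : D → V
  al_al : ∀ x, al (al x) = x
  al_ne : ∀ x, al x ≠ x
  tail_ph : ∀ x, tail (ph x) = tail (al x)
  vert : ∀ x y, tail x = tail y → (ph * al).SameCycle x y
  surj : Function.Surjective tail

/-- all faces are triangles -/
def CMap.Tri {V D : Type} (M : CMap V D) : Prop :=
  (∀ x, M.ph (M.ph (M.ph x)) = x) ∧ ∀ x, M.ph x ≠ x

/-- every edge of `G` is an edge of the map -/
def CMap.Hosts {V D : Type} (M : CMap V D) (G : SimpleGraph V) : Prop :=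
  ∀ u v, G.Adj u v → ∃ x, M.tail x = u ∧ M.tail (M.ph x) = v

/-- number of darts in faces with all three corners in `A` -/
noncomputable def CMap.t3 {V D : Type} [Fintype D] (M : CMap V D) (A : Finset V) : ℕ :=
  (Finset.univ.filter fun x : D => M.tail x ∈ A ∧ M.tail (M.ph x) ∈ A ∧ M.tail (M.ph (M.ph x)) ∈ A).card

/-- number of faces with exactly two corners in `A` (each has one dart `x` with both ends in `A`) -/
noncomputable def CMap.f2 {V D : Type} [Fintype D] (M : CMap V D) (A : Finset V) : ℕ :=
  (Finset.univ.filter fun x : D => M.tail x ∈ A ∧ M.tail (M.ph x) ∈ A ∧ M.tail (M.ph (M.ph x)) ∉ A).card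

/-- number of darts in faces with a corner in `C` -/
noncomputable def CMap.tc {V D : Type} [Fintype D] (M : CMap V D) (C : Finset V) : ℕ :=
  (Finset.univ.filter fun x : D => M.tail x ∈ C ∨ M.tail (M.ph x) ∈ C ∨ M.tail (M.ph (M.ph x)) ∈ C).card

/-- number of faces with exactly one corner in `C` -/
noncomputable def CMap.fc {V D : Type} [Fintype D] (M : CMap V D) (C : Finset V) : ℕ :=
  (Finset.univ.filter fun x : D => M.tail x ∉ C ∧ M.tail (M.ph x) ∉ C ∧ M.tail (M.ph (M.ph x)) ∈ C).card

/-- the vertices outside `C` adjacent to `C` -/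
noncomputable def CMap.nb {V D : Type} [Fintype V] (M : CMap V D) (C : Finset V) : Finset V :=
  Finset.univ.filter fun a => a ∉ C ∧ ∃ x, M.tail x = a ∧ M.tail (M.ph x) ∈ C

/-- adjacency inside `C` -/
def CMap.Step {V D : Type} (M : CMap V D) (C : Finset V) (a b : V) : Prop :=
  a ∈ C ∧ b ∈ C ∧ ∃ x, M.tail x = a ∧ M.tail (M.ph x) = b

/-- `C` is connected -/
def CMap.Conn {V D : Type} (M : CMap V D) (C : Finset V) : Prop :=
  ∀ u ∈ C, ∀ v ∈ C, Relation.ReflTransGen (M.Step C) u v

/-- the darts with an end in `C` -/
def CMap.DC {V D : Type} (M : CMap V D) (C : Finset V) : Type :=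
  {x : D // M.tail x ∈ C ∨ M.tail (M.ph x) ∈ C}

/-- the switching darts of the cut `S` for the choice `n` of near ends: a dart `x` from `S` to the complement
switches unless the corner of its triangle which is alone on its side is the near end of both crossing sides -/
noncomputable def CMap.swset {V D : Type} [Fintype D] (M : CMap V D) (S : Finset V) (n : D → V) : Finset D :=
  Finset.univ.filter fun x : D => M.tail x ∈ S ∧ M.tail (M.ph x) ∉ S ∧
    (M.tail (M.ph (M.ph x)) ∈ S → ¬ (n x = M.tail (M.ph x) ∧ n (M.ph x) = M.tail (M.ph x))) ∧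
    (M.tail (M.ph (M.ph x)) ∉ S → ¬ (n x = M.tail x ∧ n (M.ph (M.ph x)) = M.tail x))

/-- total weight of the level `A` -/
noncomputable def CMap.W {V D : Type} [Fintype D] (M : CMap V D) (w : V → V → V → Finset V → ℕ) (A : Finset V) : ℕ :=
  ∑ x : D, w (M.tail x) (M.tail (M.ph x)) (M.tail (M.ph (M.ph x))) A

/-- the weight at the level `A` of a triangle with corners `a, b, c` -/
noncomputable def wt {V : Type} (a b c : V) (A : Finset V) : ℕ :=
  if a = b ∧ b = c then 0
  else if a = b then (if a ∈ A then 1 else 0)
  else if b = c then (if b ∈ A then 1 else 0)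
  else if a = c then (if a ∈ A then 1 else 0)
  else if a ∈ A ∧ b ∈ A ∧ c ∈ A then 2
  else if (a ∈ A ∧ b ∈ A) ∨ (b ∈ A ∧ c ∈ A) ∨ (a ∈ A ∧ c ∈ A) then 1 else 0

/-- the bound for a triangle: the sum of the two smallest values for distinct corners, the value at the
repeated corner otherwise -/
noncomputable def bd {V : Type} (p : V → ℕ) (a b c : V) : ℕ :=
  if a = b ∧ b = c then 0
  else if a = b then p a
  else if b = c then p b
  else if a = c then p a
  else min (p a + p b) (min (p b + p c) (p a + p c))

/-! ## laminar families -/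

/-- A laminar family of subsets `S i = {v | i ∈ C v}` of `V`, indexed by a finite partially ordered set
(`i ≤ j` implies `S i ⊆ S j`); `C v` is the set of the members which contain `v`, a chain. -/
structure Lam (V I : Type) [PartialOrder I] where
  C : V → Finset I
  up : ∀ v i j, i ∈ C v → i ≤ j → j ∈ C v
  chain : ∀ v i j, i ∈ C v → j ∈ C v → i ≤ j ∨ j ≤ i

variable {V I : Type} [PartialOrder I] [Fintype I]

/-- the members which separate `a` from `b` and from `c` -/
noncomputable def Lam.leg (T : Lam V I) (a b c : V) : Finset I :=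
  Finset.univ.filter fun i => ¬ (i ∈ T.C a ↔ i ∈ T.C b) ∧ ¬ (i ∈ T.C a ↔ i ∈ T.C c)

/-- distance of two vertices: the number of members which separate them -/
noncomputable def Lam.dd (T : Lam V I) (u v : V) : ℕ := (symmDiff (T.C u) (T.C v)).card

/-- distance of the vertex `v` and the member `i`: the number of members between `v` and `i` -/
noncomputable def Lam.di (T : Lam V I) (v : V) (i : I) : ℕ :=
  if i ∈ T.C v then ((T.C v).filter fun j => ¬ i ≤ j).card
  else (symmDiff (T.C v) (Finset.univ.filter fun j => i < j)).card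

/-- `a` is the near end of the pair `a, b` at `i` -/
def Lam.Near (T : Lam V I) (p : V → ℕ) (i : I) (a b : V) : Prop :=
  (p b : ℤ) - T.di b i < (p a : ℤ) - T.di a i

/-- the triangle `a, b, c` switches at `i`, where `i` separates `a` from `b` and `c` -/
def Lam.Sw (T : Lam V I) (p : V → ℕ) (i : I) (a b c : V) : Prop :=
  ¬ (i ∈ T.C a ↔ i ∈ T.C b) ∧ ¬ (i ∈ T.C a ↔ i ∈ T.C c) ∧ ¬ (T.Near p i a b ∧ T.Near p i a c)

/-- number of switches on the leg of `a` -/
noncomputable def Lam.sc (T : Lam V I) (p : V → ℕ) (a b c : V) : ℕ :=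
  (Finset.univ.filter fun i => T.Sw p i a b c).card

/-- number of switches of the triangle `a, b, c` -/
noncomputable def Lam.st (T : Lam V I) (p : V → ℕ) (a b c : V) : ℕ :=
  T.sc p a b c + T.sc p b c a + T.sc p c a b

/-- the part of the switches attributed to the dart from `a` to `b` of the triangle `a, b, c` -/
def Lam.Gt (T : Lam V I) (p : V → ℕ) (i : I) (a b c : V) : Prop :=
  i ∈ T.C a ∧ i ∉ T.C b ∧ (i ∈ T.C c → ¬ (T.Near p i b a ∧ T.Near p i b c)) ∧
    (i ∉ T.C c → ¬ (T.Near p i a b ∧ T.Near p i a c))

/-- their number -/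
noncomputable def Lam.gt (T : Lam V I) (p : V → ℕ) (a b c : V) : ℕ :=
  (Finset.univ.filter fun i => T.Gt p i a b c).card

end Pool.Agent.Work.MP_5ce8c0_co.FH
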