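import Pool.Agent.Work.MP_5ce8c0_co.FH.Core

set_option autoImplicit false

/-!
# FH/Double (M): removing the parity assumptions

PROOF. Apply `core` to the family indexed by `J = I × Bool` with the lexicographic order (`Lex (I × Bool)`, `Prod.Lex`, or a local structure with a `PartialOrder` instance: `(i, x) ≤ (j, y)` iff `i < j`, or `i = j` and
`x ≤ y`), `C' v = C v ×ˢ univ`, `p' = 2 p`. `dd' = 2 dd` (`symmDiff` of products). `di' v (i, x) ≥ 2 di v i`: if `i ∈ C v`, the set `{(j, y) | j ∈ C v, ¬ i ≤ j}` is contained in the set counted; if `i ∉ C v`, the set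
`symmDiff (C v) {j | i < j} ×ˢ univ` is contained in `symmDiff (C' v) {(j, y) | (i, x) < (j, y)}` (the additional elements `(i, y)` are not in `C' v`). `card J = 2 card I`.
The lemma `double` gives the new family abstractly.
-/

namespace Pool.Agent.Work.MP_5ce8c0_co.FH

open Classical

variable {V : Type} [Fintype V]

private theorem card_pull {I : Type} [PartialOrder I] [Fintype I] (A : Finset I) :
    (Finset.univ.filter fun j : I ×ₗ Bool => (ofLex j).1 ∈ A).card = 2 * A.card := by
  have h1 : (Finset.univ.filter fun j : I ×ₗ Bool => (ofLex j).1 ∈ A) =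
      (A ×ˢ (Finset.univ : Finset Bool)).map toLex.toEmbedding := by
    ext j
    rw [Finset.mem_filter, Finset.mem_map]
    constructor
    · rintro ⟨-, h⟩
      exact ⟨ofLex j, Finset.mem_product.2 ⟨h, Finset.mem_univ _⟩, rfl⟩
    · rintro ⟨x, hx, rfl⟩
      exact ⟨Finset.mem_univ _, (Finset.mem_product.1 hx).1⟩
  rw [h1, Finset.card_map, Finset.card_product, Finset.card_univ, Fintype.card_bool, mul_comm]

theorem double {I : Type} [PartialOrder I] [Fintype I] (T : Lam V I) :
    ∃ (J : Type) (_ : PartialOrder J) (_ : Fintype J) (T' : Lam V J) (π : J → I),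
      Fintype.card J = 2 * Fintype.card I ∧ (∀ u v, T'.dd u v = 2 * T.dd u v) ∧
      (∀ v j, j ∈ T'.C v ↔ π j ∈ T.C v) ∧ ∀ v j, 2 * T.di v (π j) ≤ T'.di v j := by
  let C' : V → Finset (I ×ₗ Bool) := fun v =>
    Finset.univ.filter fun j : I ×ₗ Bool => (ofLex j).1 ∈ T.C v
  have hC : ∀ v (j : I ×ₗ Bool), j ∈ C' v ↔ (ofLex j).1 ∈ T.C v := by
    intro v j
    rw [Finset.mem_filter]
    exact ⟨fun h => h.2, fun h => ⟨Finset.mem_univ _, h⟩⟩
  have hle : ∀ i j : I ×ₗ Bool, i ≤ j → (ofLex i).1 ≤ (ofLex j).1 := by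
    intro i j h
    rcases Prod.Lex.le_iff.1 h with h1 | h1
    · exact h1.le
    · exact h1.1.le
  have hlt : ∀ i j : I ×ₗ Bool, i < j → (ofLex i).1 < (ofLex j).1 ∨ (ofLex i).1 = (ofLex j).1 := by
    intro i j h
    rcases Prod.Lex.lt_iff.1 h with h1 | h1
    · exact Or.inl h1
    · exact Or.inr h1.1
  let T' : Lam V (I ×ₗ Bool) :=
    { C := C'
      up := by
        intro v i j hi hij
        rw [hC] at hi ⊢
        exact T.up v _ _ hi (hle i j hij)
      chain := by
        intro v i j hi hj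
        rw [hC] at hi hj
        rw [Prod.Lex.le_iff, Prod.Lex.le_iff]
        rcases T.chain v _ _ hi hj with h | h
        · rcases h.lt_or_eq with h1 | h1
          · exact Or.inl (Or.inl h1)
          · rcases le_total (ofLex i).2 (ofLex j).2 with h2 | h2
            · exact Or.inl (Or.inr ⟨h1, h2⟩)
            · exact Or.inr (Or.inr ⟨h1.symm, h2⟩)
        · rcases h.lt_or_eq with h1 | h1
          · exact Or.inr (Or.inl h1)
          · rcases le_total (ofLex i).2 (ofLex j).2 with h2 | h2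
            · exact Or.inl (Or.inr ⟨h1.symm, h2⟩)
            · exact Or.inr (Or.inr ⟨h1, h2⟩) }
  refine ⟨I ×ₗ Bool, inferInstance, inferInstance, T', fun j => (ofLex j).1, ?_, ?_, hC, ?_⟩
  · have h1 := card_pull (Finset.univ : Finset I)
    have h2 : (Finset.univ.filter fun j : I ×ₗ Bool => (ofLex j).1 ∈ (Finset.univ : Finset I)) =
        Finset.univ := by
      ext j
      simp
    rw [h2, Finset.card_univ, Finset.card_univ] at h1
    exact h1
  · intro u v
    unfold Lam.dd
    rw [← card_pull]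
    refine congrArg Finset.card ?_
    ext j
    have h1 := hC u j
    have h2 := hC v j
    constructor
    · intro hj
      have hj2 := (@Finset.mem_symmDiff (I ×ₗ Bool) (fun a b => propDecidable (a = b)) _ _ j).1 hj
      refine Finset.mem_filter.2 ⟨Finset.mem_univ _, Finset.mem_symmDiff.2 ?_⟩
      rcases hj2 with ⟨h3, h4⟩ | ⟨h3, h4⟩
      · exact Or.inl ⟨h1.1 h3, fun h5 => h4 (h2.2 h5)⟩
      · exact Or.inr ⟨h2.1 h3, fun h5 => h4 (h1.2 h5)⟩
    · intro hj
      have hj2 := Finset.mem_symmDiff.1 (Finset.mem_filter.1 hj).2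
      refine (@Finset.mem_symmDiff (I ×ₗ Bool) (fun a b => propDecidable (a = b)) _ _ j).2 ?_
      rcases hj2 with ⟨h3, h4⟩ | ⟨h3, h4⟩
      · exact Or.inl ⟨h1.2 h3, fun h5 => h4 (h2.1 h5)⟩
      · exact Or.inr ⟨h2.2 h3, fun h5 => h4 (h1.1 h5)⟩
  · intro v j
    unfold Lam.di
    by_cases h : (ofLex j).1 ∈ T.C v
    · have h' : j ∈ T'.C v := (hC v j).2 h
      rw [if_pos h, if_pos h', ← card_pull]
      refine Finset.card_le_card ?_
      intro k hk
      rw [Finset.mem_filter] at hk
      have hk2 := Finset.mem_filter.1 hk.2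
      rw [Finset.mem_filter]
      exact ⟨(hC v k).2 hk2.1, fun h1 => hk2.2 (hle j k h1)⟩
    · have h' : j ∉ T'.C v := fun h1 => h ((hC v j).1 h1)
      rw [if_neg h, if_neg h', ← card_pull]
      refine Finset.card_le_card ?_
      intro k hk
      rw [Finset.mem_filter] at hk
      have hk2 := Finset.mem_symmDiff.1 hk.2
      refine (@Finset.mem_symmDiff (I ×ₗ Bool) (fun a b => propDecidable (a = b)) _ _ k).2 ?_
      rcases hk2 with ⟨h1, h2⟩ | ⟨h1, h2⟩
      · refine Or.inl ⟨(hC v k).2 h1, ?_⟩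
        intro h3
        rw [Finset.mem_filter] at h3
        rcases hlt j k h3.2 with h4 | h4
        · exact h2 (Finset.mem_filter.2 ⟨Finset.mem_univ _, h4⟩)
        · exact h (h4 ▸ h1)
      · refine Or.inr ⟨?_, fun h3 => h2 ((hC v k).1 h3)⟩
        rw [Finset.mem_filter] at h1 ⊢
        exact ⟨Finset.mem_univ _, Prod.Lex.lt_iff.2 (Or.inl h1.2)⟩

theorem core2 (G : SimpleGraph V) (hG : FourConn G) (R : Rotation G)
    (hE : Nat.card G.edgeSet ≤ Fintype.card V + ncyc R.face)
    {I : Type} [PartialOrder I] [Fintype I] (T : Lam V I) (p : V → ℕ)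
    (hd : ∀ u v, G.Adj u v → T.dd u v ≤ p u + p v)
    (hH : ∀ i, (∃ a, i ∈ T.C a ∧ p a ≤ T.di a i) ∧ ∃ b, i ∉ T.C b ∧ p b ≤ T.di b i) :
    Fintype.card I ≤ ∑ v, p v := by
  obtain ⟨J, iJ, fJ, T', π, hcard, hdd, hmem, hdi⟩ := double T
  have h := core G hG R hE T' (fun v => 2 * p v) (by
    intro u v huv
    rw [hdd]
    have := hd u v huv
    show 2 * T.dd u v ≤ 2 * p u + 2 * p v
    omega) (by
    intro u v
    rw [hdd]
    exact even_two_mul _) (fun v => even_two_mul _) (by
    intro j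
    obtain ⟨⟨a, ha1, ha2⟩, b, hb1, hb2⟩ := hH (π j)
    refine ⟨⟨a, (hmem a j).2 ha1, ?_⟩, b, fun h => hb1 ((hmem b j).1 h), ?_⟩
    · have := hdi a j
      show 2 * p a ≤ T'.di a j
      omega
    · have := hdi b j
      show 2 * p b ≤ T'.di b j
      omega)
  rw [hcard, ← Finset.mul_sum] at h
  omega

end Pool.Agent.Work.MP_5ce8c0_co.FH
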