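import Pool.Agent.Work.MP_5ce8c0_co.FH.Defs

set_option autoImplicit false

/-!
# FH/TreeD (M): distances in a laminar family

Write `A i = {j | i < j}`. For `i ∈ C u`: `A i ⊆ C u` (`up`), and `C u` is the disjoint union of `{j ∈ C u | ¬ i ≤ j}`, `{i}` and `A i` (by `chain`, `¬ i ≤ j` means `j < i`).
`di_add`: let `i ∈ C u`, `i ∉ C v` (the other case by symmetry). No `j ∈ C v` is `≤ i` (`up`), so `C v` is disjoint from `{j ∈ C u | ¬ i ≤ j}` and from `{i}`:
`symmDiff (C u) (C v)` is the disjoint union of `{j ∈ C u | ¬ i ≤ j}`, `{i}` and `symmDiff (A i) (C v)`.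
`dd_le`: if `i` is in both, `symmDiff (C u) (C v) ⊆ {j ∈ C u | ¬ i ≤ j} ∪ {j ∈ C v | ¬ i ≤ j}`; if in neither, triangle inequality for `symmDiff` with `A i`.
`di_inj`: both distances to members separating `a` from `b`: if `i, j ∈ C a`, `i < j` then `{k ∈ C a | ¬ i ≤ k} ⊂ {k ∈ C a | ¬ j ≤ k}` (contains `i`); if `i ∈ C a`, `j ∉ C a` (so `j ∈ C b`, `i ∉ C b`)
then `i ∈ symmDiff (C a) (A j)` and `{k ∈ C a | ¬ i ≤ k} ⊆ symmDiff (C a) (A j)` (no element of `{k ∈ C a | k ≤ i}` is in `A j`: else `j ≤ i`, `j ∈ C b` gives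
`i ∈ C b`); if `i, j ∉ C a` then `i, j ∈ C b`, say `j < i`; then `A i ⊆ A j`, `symmDiff (C a) (A j) = symmDiff (C a) (A i) ∪ (A j \ A i)` disjoint, since
the elements of `A j \ A i` are in `C b`, `≤ i`, so not in `C a` (`up`).
`di_lt`: for `i ∈ leg a b c` the members counted by `di a i` are in `leg a b c` and different from `i`: if `i ∈ C a`, `i ∉ C b`, `i ∉ C c`: `k ∈ C a`, `k < i` is not in `C b`, `C c` (`up`).
If `i ∉ C a`, `i ∈ C b`, `i ∈ C c`: `k ∈ C a \ A i` is not in `C b` (otherwise comparable with `i` in `C b`: `k ≤ i` gives `i ∈ C a`; `i < k` gives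
`k ∈ A i`), same for `c`; `k ∈ A i \ C a` is in `C b` and `C c`.
-/

namespace Pool.Agent.Work.MP_5ce8c0_co.FH

open Classical

variable {V I : Type} [PartialOrder I] [Fintype I] (T : Lam V I)

theorem Lam.dd_comm (u v : V) : T.dd u v = T.dd v u := by
  unfold Lam.dd
  rw [symmDiff_comm]

theorem Lam.dd_self (u : V) : T.dd u u = 0 := by
  unfold Lam.dd
  rw [symmDiff_self]
  rfl

private theorem Lam.di_pos' {u : V} {i : I} (h : i ∈ T.C u) :
    T.di u i = ((T.C u).filter fun j => ¬ i ≤ j).card := by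
  unfold Lam.di
  rw [if_pos h]

private theorem Lam.di_neg' {u : V} {i : I} (h : i ∉ T.C u) :
    T.di u i = (symmDiff (T.C u) (Finset.univ.filter fun j => i < j)).card := by
  unfold Lam.di
  rw [if_neg h]

private theorem Lam.di_add_aux {u v : V} {i : I} (hu : i ∈ T.C u) (hv : i ∉ T.C v) :
    T.di u i + T.di v i + 1 = T.dd u v := by
  rw [T.di_pos' hu, T.di_neg' hv]
  unfold Lam.dd
  have key : symmDiff (T.C u) (T.C v) = ((T.C u).filter fun j => ¬ i ≤ j) ∪
      insert i (symmDiff (T.C v) (Finset.univ.filter fun j => i < j)) := by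
    ext j
    simp only [Finset.mem_symmDiff, Finset.mem_union, Finset.mem_filter, Finset.mem_insert,
      Finset.mem_univ, true_and]
    have f1 : j ∈ T.C u → i ≤ j ∨ j ≤ i := fun h => T.chain u i j hu h
    have f2 : i ≤ j → j ∈ T.C u := fun h => T.up u i j hu h
    have f3 : j ∈ T.C v → ¬ j ≤ i := fun h h' => hv (T.up v j i h h')
    have f4 : i ≤ j ↔ i < j ∨ j = i := by
      rw [le_iff_lt_or_eq, eq_comm]
    have f5 : j = i → j ≤ i := fun h => h.le
    tauto
  have hd : Disjoint ((T.C u).filter fun j => ¬ i ≤ j)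
      (insert i (symmDiff (T.C v) (Finset.univ.filter fun j => i < j))) := by
    rw [Finset.disjoint_left]
    intro j h1 h2
    simp only [Finset.mem_symmDiff, Finset.mem_filter, Finset.mem_insert,
      Finset.mem_univ, true_and] at h1 h2
    have f1 : j ∈ T.C u → i ≤ j ∨ j ≤ i := fun h => T.chain u i j hu h
    have f3 : j ∈ T.C v → ¬ j ≤ i := fun h h' => hv (T.up v j i h h')
    have f4 : i ≤ j ↔ i < j ∨ j = i := by
      rw [le_iff_lt_or_eq, eq_comm]
    tauto
  have hi : i ∉ symmDiff (T.C v) (Finset.univ.filter fun j => i < j) := by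
    simp only [Finset.mem_symmDiff, Finset.mem_filter, Finset.mem_univ, true_and, lt_irrefl]
    tauto
  rw [key, Finset.card_union_of_disjoint hd, Finset.card_insert_of_notMem hi]
  omega

theorem Lam.di_add {u v : V} {i : I} (h : ¬ (i ∈ T.C u ↔ i ∈ T.C v)) : T.di u i + T.di v i + 1 = T.dd u v := by
  by_cases hu : i ∈ T.C u
  · have hv : i ∉ T.C v := fun hv => h ⟨fun _ => hv, fun _ => hu⟩
    exact T.di_add_aux hu hv
  · have hv : i ∈ T.C v := by
      by_contra hv
      exact h ⟨fun h => absurd h hu, fun h => absurd h hv⟩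
    have := T.di_add_aux hv hu
    rw [T.dd_comm u v]
    omega

theorem Lam.dd_le {u v : V} {i : I} (h : i ∈ T.C u ↔ i ∈ T.C v) : T.dd u v ≤ T.di u i + T.di v i := by
  by_cases hu : i ∈ T.C u
  · have hv : i ∈ T.C v := h.1 hu
    rw [T.di_pos' hu, T.di_pos' hv]
    unfold Lam.dd
    refine le_trans (Finset.card_le_card ?_) (Finset.card_union_le _ _)
    intro j hj
    simp only [Finset.mem_symmDiff, Finset.mem_union, Finset.mem_filter] at hj ⊢
    have f1 : i ≤ j → j ∈ T.C u := fun h => T.up u i j hu h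
    have f2 : i ≤ j → j ∈ T.C v := fun h => T.up v i j hv h
    tauto
  · have hv : i ∉ T.C v := fun hv => hu (h.2 hv)
    rw [T.di_neg' hu, T.di_neg' hv]
    unfold Lam.dd
    refine le_trans (Finset.card_le_card ?_) (Finset.card_union_le _ _)
    intro j hj
    simp only [Finset.mem_symmDiff, Finset.mem_union, Finset.mem_filter, Finset.mem_univ,
      true_and] at hj ⊢
    tauto

private theorem Lam.lt1 {a : V} {i j : I} (hi : i ∈ T.C a) (hj : j ∈ T.C a) (h : i < j) :
    T.di a i < T.di a j := by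
  rw [T.di_pos' hi, T.di_pos' hj]
  refine Finset.card_lt_card ?_
  rw [Finset.ssubset_iff_of_subset]
  · refine ⟨i, ?_, ?_⟩
    · simp only [Finset.mem_filter]
      exact ⟨hi, not_le_of_gt h⟩
    · simp
  · intro k hk
    simp only [Finset.mem_filter] at hk ⊢
    exact ⟨hk.1, fun h' => hk.2 (h.le.trans h')⟩

private theorem Lam.lt2 {a b : V} {i j : I} (hi : i ∈ T.C a) (hib : i ∉ T.C b) (hj : j ∉ T.C a)
    (hjb : j ∈ T.C b) : T.di a i < T.di a j := by
  rw [T.di_pos' hi, T.di_neg' hj]
  have hji : ¬ j ≤ i := fun h => hib (T.up b j i hjb h)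
  refine Finset.card_lt_card ?_
  rw [Finset.ssubset_iff_of_subset]
  · refine ⟨i, ?_, ?_⟩
    · simp only [Finset.mem_symmDiff, Finset.mem_filter, Finset.mem_univ, true_and]
      exact Or.inl ⟨hi, fun h => hji h.le⟩
    · simp
  · intro k hk
    simp only [Finset.mem_filter, Finset.mem_symmDiff, Finset.mem_univ, true_and] at hk ⊢
    refine Or.inl ⟨hk.1, fun h' => ?_⟩
    rcases T.chain a i k hi hk.1 with h1 | h1
    · exact hk.2 h1
    · exact hji (h'.le.trans h1)

private theorem Lam.lt3 {a b : V} {i j : I} (hi : i ∉ T.C a) (hib : i ∈ T.C b) (_hj : j ∉ T.C a)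
    (hjb : j ∈ T.C b) (h : j < i) : T.di a i < T.di a j := by
  rw [T.di_neg' hi, T.di_neg' _hj]
  refine Finset.card_lt_card ?_
  rw [Finset.ssubset_iff_of_subset]
  · refine ⟨i, ?_, ?_⟩
    · simp only [Finset.mem_symmDiff, Finset.mem_filter, Finset.mem_univ, true_and]
      exact Or.inr ⟨h, hi⟩
    · simp only [Finset.mem_symmDiff, Finset.mem_filter, Finset.mem_univ, true_and, lt_irrefl]
      tauto
  · intro k hk
    simp only [Finset.mem_filter, Finset.mem_symmDiff, Finset.mem_univ, true_and] at hk ⊢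
    rcases hk with ⟨hk1, hk2⟩ | ⟨hk1, hk2⟩
    · refine Or.inl ⟨hk1, fun h' => ?_⟩
      have hkb : k ∈ T.C b := T.up b j k hjb h'.le
      rcases T.chain b i k hib hkb with h1 | h1
      · rcases h1.lt_or_eq with h2 | h2
        · exact hk2 h2
        · exact hi (h2 ▸ hk1)
      · exact hi (T.up a k i hk1 h1)
    · exact Or.inr ⟨h.trans hk1, hk2⟩

theorem Lam.di_inj {a b : V} {i j : I} (hi : ¬ (i ∈ T.C a ↔ i ∈ T.C b)) (hj : ¬ (j ∈ T.C a ↔ j ∈ T.C b))
    (h : T.di a i = T.di a j) : i = j := by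
  by_contra hne
  by_cases h1 : i ∈ T.C a
  · have h1b : i ∉ T.C b := by tauto
    by_cases h2 : j ∈ T.C a
    · rcases T.chain a i j h1 h2 with h3 | h3
      · exact absurd h (T.lt1 h1 h2 (lt_of_le_of_ne h3 hne)).ne
      · exact absurd h (T.lt1 h2 h1 (lt_of_le_of_ne h3 (Ne.symm hne))).ne'
    · have h2b : j ∈ T.C b := by tauto
      exact absurd h (T.lt2 h1 h1b h2 h2b).ne
  · have h1b : i ∈ T.C b := by tauto
    by_cases h2 : j ∈ T.C a
    · have h2b : j ∉ T.C b := by tauto
      exact absurd h (T.lt2 h2 h2b h1 h1b).ne'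
    · have h2b : j ∈ T.C b := by tauto
      rcases T.chain b i j h1b h2b with h3 | h3
      · exact absurd h (T.lt3 h2 h2b h1 h1b (lt_of_le_of_ne h3 hne)).ne'
      · exact absurd h (T.lt3 h1 h1b h2 h2b (lt_of_le_of_ne h3 (Ne.symm hne))).ne

theorem Lam.di_lt {a b c : V} {i : I} (hi : i ∈ T.leg a b c) : T.di a i < (T.leg a b c).card := by
  have hi' := hi
  unfold Lam.leg at hi'
  simp only [Finset.mem_filter, Finset.mem_univ, true_and] at hi'
  obtain ⟨hb, hc⟩ := hi'
  by_cases ha : i ∈ T.C a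
  · have hb' : i ∉ T.C b := by tauto
    have hc' : i ∉ T.C c := by tauto
    rw [T.di_pos' ha]
    refine Finset.card_lt_card ?_
    rw [Finset.ssubset_iff_of_subset]
    · exact ⟨i, hi, by simp⟩
    · intro k hk
      simp only [Finset.mem_filter] at hk
      have hki : k ≤ i := by
        rcases T.chain a i k ha hk.1 with h1 | h1
        · exact absurd h1 hk.2
        · exact h1
      have hkb : k ∉ T.C b := fun h => hb' (T.up b k i h hki)
      have hkc : k ∉ T.C c := fun h => hc' (T.up c k i h hki)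
      unfold Lam.leg
      simp only [Finset.mem_filter, Finset.mem_univ, true_and]
      tauto
  · have hb' : i ∈ T.C b := by tauto
    have hc' : i ∈ T.C c := by tauto
    rw [T.di_neg' ha]
    refine Finset.card_lt_card ?_
    rw [Finset.ssubset_iff_of_subset]
    · refine ⟨i, hi, ?_⟩
      simp only [Finset.mem_symmDiff, Finset.mem_filter, Finset.mem_univ, true_and, lt_irrefl]
      tauto
    · intro k hk
      simp only [Finset.mem_filter, Finset.mem_symmDiff, Finset.mem_univ, true_and] at hk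
      unfold Lam.leg
      simp only [Finset.mem_filter, Finset.mem_univ, true_and]
      rcases hk with ⟨hk1, hk2⟩ | ⟨hk1, hk2⟩
      · have hx : ∀ x, i ∈ T.C x → k ∉ T.C x := by
          intro x hx hkx
          rcases T.chain x i k hx hkx with h1 | h1
          · rcases h1.lt_or_eq with h2 | h2
            · exact hk2 h2
            · exact ha (h2 ▸ hk1)
          · exact ha (T.up a k i hk1 h1)
        have h1 := hx b hb'
        have h2 := hx c hc'
        tauto
      · have h1 := T.up b i k hb' hk1.le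
        have h2 := T.up c i k hc' hk1.le
        tauto

end Pool.Agent.Work.MP_5ce8c0_co.FH
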