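import Pool.Agent.Work.MP_5ce8c0_co.FH.Double
import Pool.Agent.Work.MP_5ce8c0_co.FH.TreeD

set_option autoImplicit false

/-!
# FH/Elim (M): removing small sets; the inequality for all laminar families

PROOF. Induction on `card I`. If `hH` of `core2` holds, done. Otherwise there are `i` and a side `S` (`S = {a | i ∈ C a}` or its complement, nonempty by `hne`) such that `di a i < p a` for all `a ∈ S`. Let `J = {j // j ≠ i}` with the induced order
and the family `remove` (`C' v` = the elements of `C v` different from `i`), `p' v = p v - 1` for `v ∈ S`, `p' v = p v` otherwise. `dd' u v = dd u v - 1` if `i` separates `u` and `v`, `dd' = dd` otherwise. For an edge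
`u v`: separated: `dd' = dd - 1 ≤ p u + p v - 1 = p' u + p' v` (exactly one of them is in `S`, and `p ≥ 1` on `S`). Both in `S`: `dd' = dd ≤ di u i + di v i ≤ (p u - 1) + (p v - 1)` by
`dd_le`. None in `S`: clear. Induction: `card I - 1 ≤ ∑ p' ≤ ∑ p - 1` since `S` is nonempty.
-/

namespace Pool.Agent.Work.MP_5ce8c0_co.FH

open Classical

variable {V : Type} [Fintype V]

theorem remove {I : Type} [PartialOrder I] [Fintype I] (T : Lam V I) (i : I) :
    ∃ T' : Lam V {j : I // j ≠ i}, (∀ v j, j ∈ T'.C v ↔ j.1 ∈ T.C v) ∧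
      (∀ u v, ¬ (i ∈ T.C u ↔ i ∈ T.C v) → T'.dd u v + 1 = T.dd u v) ∧
      ∀ u v, (i ∈ T.C u ↔ i ∈ T.C v) → T'.dd u v = T.dd u v := by
  let C' : V → Finset {j : I // j ≠ i} := fun v =>
    Finset.univ.filter fun j : {j : I // j ≠ i} => j.1 ∈ T.C v
  have hC : ∀ v (j : {j : I // j ≠ i}), j ∈ C' v ↔ j.1 ∈ T.C v := by
    intro v j
    rw [Finset.mem_filter]
    exact ⟨fun h => h.2, fun h => ⟨Finset.mem_univ _, h⟩⟩
  let T' : Lam V {j : I // j ≠ i} :=
    { C := C'
      up := by
        intro v j k hj hjk
        rw [hC] at hj ⊢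
        exact T.up v _ _ hj hjk
      chain := by
        intro v j k hj hk
        rw [hC] at hj hk
        exact T.chain v _ _ hj hk }
  -- the distance after removal
  have hdd : ∀ u v, T'.dd u v = ((symmDiff (T.C u) (T.C v)).erase i).card := by
    intro u v
    unfold Lam.dd
    rw [← Finset.card_map (Function.Embedding.subtype fun j : I => j ≠ i)]
    refine congrArg Finset.card ?_
    ext k
    rw [Finset.mem_map, Finset.mem_erase, Finset.mem_symmDiff]
    constructor
    · rintro ⟨j, hj, rfl⟩
      have hj2 := (@Finset.mem_symmDiff {j : I // j ≠ i} (fun a b => propDecidable (a = b))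
        _ _ j).1 hj
      refine ⟨j.2, ?_⟩
      rcases hj2 with ⟨h3, h4⟩ | ⟨h3, h4⟩
      · exact Or.inl ⟨(hC u j).1 h3, fun h5 => h4 ((hC v j).2 h5)⟩
      · exact Or.inr ⟨(hC v j).1 h3, fun h5 => h4 ((hC u j).2 h5)⟩
    · rintro ⟨hki, hk⟩
      refine ⟨⟨k, hki⟩, ?_, rfl⟩
      refine (@Finset.mem_symmDiff {j : I // j ≠ i} (fun a b => propDecidable (a = b))
        _ _ _).2 ?_
      rcases hk with ⟨h3, h4⟩ | ⟨h3, h4⟩
      · exact Or.inl ⟨(hC u ⟨k, hki⟩).2 h3, fun h5 => h4 ((hC v ⟨k, hki⟩).1 h5)⟩
      · exact Or.inr ⟨(hC v ⟨k, hki⟩).2 h3, fun h5 => h4 ((hC u ⟨k, hki⟩).1 h5)⟩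
  refine ⟨T', hC, ?_, ?_⟩
  · intro u v huv
    rw [hdd]
    have h1 : i ∈ symmDiff (T.C u) (T.C v) := by
      rw [Finset.mem_symmDiff]
      by_cases h2 : i ∈ T.C u
      · exact Or.inl ⟨h2, fun h3 => huv ⟨fun _ => h3, fun _ => h2⟩⟩
      · refine Or.inr ⟨?_, h2⟩
        by_contra h3
        exact huv ⟨fun h4 => absurd h4 h2, fun h4 => absurd h4 h3⟩
    unfold Lam.dd
    exact Finset.card_erase_add_one h1
  · intro u v huv
    rw [hdd]
    have h1 : i ∉ symmDiff (T.C u) (T.C v) := by
      rw [Finset.mem_symmDiff]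
      rintro (⟨h3, h4⟩ | ⟨h3, h4⟩)
      · exact h4 (huv.1 h3)
      · exact h4 (huv.2 h3)
    rw [Finset.erase_eq_of_notMem h1]
    rfl

theorem lam_le (G : SimpleGraph V) (hG : FourConn G) (R : Rotation G)
    (hE : Nat.card G.edgeSet ≤ Fintype.card V + ncyc R.face) (n : ℕ) :
    ∀ (I : Type) [PartialOrder I] [Fintype I] (T : Lam V I) (p : V → ℕ), Fintype.card I = n →
    (∀ u v, G.Adj u v → T.dd u v ≤ p u + p v) →
    (∀ i, (∃ a, i ∈ T.C a) ∧ ∃ b, i ∉ T.C b) → Fintype.card I ≤ ∑ v, p v := by
  induction n with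
  | zero =>
    intro I _ _ T p hn _ _
    rw [hn]
    exact Nat.zero_le _
  | succ n ih =>
    intro I _ _ T p hn hd hne
    by_cases hH : ∀ i, (∃ a, i ∈ T.C a ∧ p a ≤ T.di a i) ∧ ∃ b, i ∉ T.C b ∧ p b ≤ T.di b i
    · exact core2 G hG R hE T p hd hH
    · push Not at hH
      -- a member `i` and a side `S`
      obtain ⟨i, S, hS, hSne, hSd⟩ : ∃ (i : I) (S : Finset V),
          (∀ u v, u ∈ S → (v ∈ S ↔ (i ∈ T.C u ↔ i ∈ T.C v))) ∧ S.Nonempty ∧
          ∀ a ∈ S, T.di a i < p a := by
        obtain ⟨i, hi⟩ := hH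
        by_cases h1 : ∃ a, i ∈ T.C a ∧ p a ≤ T.di a i
        · obtain ⟨b, hb⟩ := (hne i).2
          refine ⟨i, Finset.univ.filter fun v => i ∉ T.C v, ?_,
            ⟨b, Finset.mem_filter.2 ⟨Finset.mem_univ _, hb⟩⟩, ?_⟩
          · intro u v hu
            have hu' := (Finset.mem_filter.1 hu).2
            rw [Finset.mem_filter]
            constructor
            · rintro ⟨-, hv⟩
              exact ⟨fun h => absurd h hu', fun h => absurd h hv⟩
            · intro h
              exact ⟨Finset.mem_univ _, fun hv => hu' (h.2 hv)⟩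
          · intro a ha
            exact hi h1 a (Finset.mem_filter.1 ha).2
        · push Not at h1
          obtain ⟨a, ha⟩ := (hne i).1
          refine ⟨i, Finset.univ.filter fun v => i ∈ T.C v, ?_,
            ⟨a, Finset.mem_filter.2 ⟨Finset.mem_univ _, ha⟩⟩, ?_⟩
          · intro u v hu
            have hu' := (Finset.mem_filter.1 hu).2
            rw [Finset.mem_filter]
            constructor
            · rintro ⟨-, hv⟩
              exact ⟨fun _ => hv, fun _ => hu'⟩
            · intro h
              exact ⟨Finset.mem_univ _, h.1 hu'⟩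
          · intro b hb
            exact h1 b (Finset.mem_filter.1 hb).2
      obtain ⟨T', hT', hT1, hT2⟩ := remove T i
      let p' : V → ℕ := fun v => if v ∈ S then p v - 1 else p v
      have hcard : Fintype.card {j : I // j ≠ i} = n := by
        rw [Fintype.card_subtype_compl, Fintype.card_subtype_eq, hn]
        rfl
      have hd' : ∀ u v, G.Adj u v → T'.dd u v ≤ p' u + p' v := by
        intro u v huv
        have h1 := hd u v huv
        by_cases hsep : i ∈ T.C u ↔ i ∈ T.C v
        · rw [hT2 u v hsep]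
          by_cases hu : u ∈ S
          · have hv : v ∈ S := (hS u v hu).2 hsep
            have h2 := T.dd_le hsep
            have h3 := hSd u hu
            have h4 := hSd v hv
            show T.dd u v ≤ (if u ∈ S then p u - 1 else p u) + (if v ∈ S then p v - 1 else p v)
            rw [if_pos hu, if_pos hv]
            omega
          · have hv : v ∉ S := fun hv => hu ((hS v u hv).2 hsep.symm)
            show T.dd u v ≤ (if u ∈ S then p u - 1 else p u) + (if v ∈ S then p v - 1 else p v)
            rw [if_neg hu, if_neg hv]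
            exact h1
        · have h2 := hT1 u v hsep
          show T'.dd u v ≤ (if u ∈ S then p u - 1 else p u) + (if v ∈ S then p v - 1 else p v)
          by_cases hu : u ∈ S
          · have hv : v ∉ S := fun hv => hsep ((hS u v hu).1 hv)
            have h3 := hSd u hu
            rw [if_pos hu, if_neg hv]
            omega
          · by_cases hv : v ∈ S
            · have h3 := hSd v hv
              rw [if_neg hu, if_pos hv]
              omega
            · rw [if_neg hu, if_neg hv]
              omega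
      have hne' : ∀ j : {j : I // j ≠ i}, (∃ a, j ∈ T'.C a) ∧ ∃ b, j ∉ T'.C b := by
        intro j
        obtain ⟨⟨a, ha⟩, b, hb⟩ := hne j.1
        exact ⟨⟨a, (hT' a j).2 ha⟩, b, fun h => hb ((hT' b j).1 h)⟩
      have h1 := ih {j : I // j ≠ i} T' p' hcard hd' hne'
      rw [hcard] at h1
      have h2 : (∑ v, p' v) + 1 ≤ ∑ v, p v := by
        obtain ⟨x, hx⟩ := hSne
        have h3 : ∑ v, p' v < ∑ v, p v := by
          refine Finset.sum_lt_sum ?_ ⟨x, Finset.mem_univ _, ?_⟩
          · intro v _
            show (if v ∈ S then p v - 1 else p v) ≤ p v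
            split_ifs
            · exact Nat.sub_le _ _
            · exact le_rfl
          · show (if x ∈ S then p x - 1 else p x) < p x
            rw [if_pos hx]
            have := hSd x hx
            omega
        exact h3
      rw [hn]
      omega

end Pool.Agent.Work.MP_5ce8c0_co.FH
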