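import Pool.Agent.Work.MP_5ce8c0_co.FH.Defs

set_option autoImplicit false

/-!
# FH/Uncross (M-L): uncrossing a weighted family of sets

`sepW Y u v = ∑ S, [S separates u and v] Y S` is written as a sum over a filter. PROOF. Fix `r : V` (if `V` is empty then all is trivial: `∅ = univ`). First replace `Y` by `Y₁ S = Y S + Y Sᶜ` for `r ∉ S`, `Y₁ S = 0` for `r ∈ S`: same total (`S ↦ Sᶜ` is a bijection
between the sets with `r` and the sets without `r`), same separation numbers, `Y₁ ∅ = Y ∅ + Y univ = 0`. Among all `Z : Finset V → ℕ` with `∑ Z = ∑ Y₁`, `Z ∅ = 0`, `Z S = 0` for `r ∈ S` and `sepW Z ≤ sepW Y₁` choose one with maximal potential `∑ S, Z S * |S| ^ 2`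
(bounded by `(∑ Y₁) |V| ^ 2`; e.g. `Nat.findGreatest` or well-founded induction on the difference). Suppose `Z S ≠ 0`, `Z T ≠ 0` with `¬ S ⊆ T`, `¬ T ⊆ S`, `S ∩ T ≠ ∅`. Decrease `Z` by one at `S` and at `T` and increase it by one at `S ∩ T` and `S ∪ T` (four different sets;
`r ∉ S ∪ T`, `S ∩ T ≠ ∅`): the total is the same, the separation numbers do not increase (for every pair `u, v`: the number of `S ∩ T`, `S ∪ T` separating `u, v` is at most the number of `S`, `T`), the potential increases: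
`|S ∩ T| ^ 2 + |S ∪ T| ^ 2 > |S| ^ 2 + |T| ^ 2` as `|S ∩ T| + |S ∪ T| = |S| + |T|` and `|S ∪ T| > max |S| |T|`. Contradiction. `Z univ = 0` as `r ∈ univ`.
-/

namespace Pool.Agent.Work.MP_5ce8c0_co.FH

open Classical

variable {V : Type} [Fintype V]

/-- the linear functional with coefficients `g`. -/
private noncomputable def unL (g Z : Finset V → ℕ) : ℕ := ∑ S : Finset V, Z S * g S

private noncomputable def unD (A X : Finset V) : ℕ := if X = A then 1 else 0

private theorem unL_add (g Z : Finset V → ℕ) (A B : Finset V) :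
    unL g (fun X => Z X + unD A X + unD B X) = unL g Z + g A + g B := by
  unfold unL unD
  simp only [add_mul, Finset.sum_add_distrib, ite_mul, one_mul, zero_mul, Finset.sum_ite_eq',
    Finset.mem_univ, if_true]

private theorem unL_sep (Z : Finset V → ℕ) (u v : V) :
    ∑ S ∈ Finset.univ.filter (fun S : Finset V => ¬ (u ∈ S ↔ v ∈ S)), Z S =
      unL (fun S => if ¬ (u ∈ S ↔ v ∈ S) then 1 else 0) Z := by
  unfold unL
  rw [Finset.sum_filter]
  refine Finset.sum_congr rfl fun S _ => ?_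
  show (if ¬ (u ∈ S ↔ v ∈ S) then Z S else 0) = Z S * (if ¬ (u ∈ S ↔ v ∈ S) then 1 else 0)
  by_cases h : ¬ (u ∈ S ↔ v ∈ S)
  · rw [if_pos h, if_pos h, mul_one]
  · rw [if_neg h, if_neg h, mul_zero]

private theorem unL_one (Z : Finset V → ℕ) : ∑ S : Finset V, Z S = unL (fun _ => 1) Z := by
  unfold unL
  simp

private theorem unL_flip (g Y : Finset V → ℕ) (hg : ∀ S, g Sᶜ = g S) (r : V) :
    unL g (fun S => if r ∈ S then 0 else Y S + Y Sᶜ) = unL g Y := by
  have h1 : ∑ S : Finset V, (if r ∈ S then 0 else Y Sᶜ * g S) =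
      ∑ S : Finset V, (if r ∈ S then Y S * g S else 0) := by
    rw [← Equiv.sum_comp (Function.Involutive.toPerm (compl : Finset V → Finset V) compl_involutive)
      (fun S => if r ∈ S then 0 else Y Sᶜ * g S)]
    refine Finset.sum_congr rfl fun S _ => ?_
    show (if r ∈ Sᶜ then 0 else Y Sᶜᶜ * g Sᶜ) = _
    rw [compl_compl, hg]
    by_cases h : r ∈ S
    · rw [if_neg (by rw [Finset.mem_compl]; exact fun h2 => h2 h), if_pos h]
    · rw [if_pos (Finset.mem_compl.2 h), if_neg h]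
  unfold unL
  have h2 : ∀ S : Finset V, (if r ∈ S then 0 else Y S + Y Sᶜ) * g S =
      (if r ∈ S then 0 else Y S * g S) + (if r ∈ S then 0 else Y Sᶜ * g S) := by
    intro S
    split_ifs
    · simp
    · ring
  rw [Finset.sum_congr rfl fun S _ => h2 S, Finset.sum_add_distrib, h1, ← Finset.sum_add_distrib]
  refine Finset.sum_congr rfl fun S _ => ?_
  split_ifs <;> simp

omit [Fintype V] in
private theorem un_sub (u v : V) (S T : Finset V) :
    (if ¬ (u ∈ S ∩ T ↔ v ∈ S ∩ T) then 1 else 0) + (if ¬ (u ∈ S ∪ T ↔ v ∈ S ∪ T) then 1 else 0) ≤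
      (if ¬ (u ∈ S ↔ v ∈ S) then 1 else 0) + (if ¬ (u ∈ T ↔ v ∈ T) then 1 else 0 : ℕ) := by
  simp only [Finset.mem_inter, Finset.mem_union]
  by_cases h1 : u ∈ S <;> by_cases h2 : u ∈ T <;> by_cases h3 : v ∈ S <;> by_cases h4 : v ∈ T <;>
    simp [h1, h2, h3, h4]

omit [Fintype V] in
private theorem un_sq (S T : Finset V) (h1 : ¬ S ⊆ T) (h2 : ¬ T ⊆ S) :
    S.card ^ 2 + T.card ^ 2 < (S ∩ T).card ^ 2 + (S ∪ T).card ^ 2 := by
  have e := Finset.card_inter_add_card_union S T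
  have l1 : S.card < (S ∪ T).card := by
    apply Finset.card_lt_card
    refine ⟨Finset.subset_union_left, fun h => h2 ?_⟩
    exact (Finset.subset_union_right).trans h
  have l2 : T.card < (S ∪ T).card := by
    apply Finset.card_lt_card
    refine ⟨Finset.subset_union_right, fun h => h1 ?_⟩
    exact (Finset.subset_union_left).trans h
  obtain ⟨x, hx⟩ := Nat.exists_eq_add_of_lt l1
  obtain ⟨y, hy⟩ := Nat.exists_eq_add_of_lt l2
  generalize (S ∩ T).card = a at *
  generalize (S ∪ T).card = b at *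
  generalize S.card = s at *
  generalize T.card = t at *
  have hs : s = a + (y + 1) := by omega
  have ht : t = a + (x + 1) := by omega
  have hb : b = a + (x + 1) + (y + 1) := by omega
  subst hs ht hb
  nlinarith

omit [Fintype V] in
private theorem un_step (Z : Finset V → ℕ) (S T : Finset V) (hS : Z S ≠ 0) (hT : Z T ≠ 0)
    (hST : S ≠ T) : ∃ Z0 : Finset V → ℕ, (∀ X, Z0 X ≤ Z X) ∧
      Z = fun X => Z0 X + unD S X + unD T X := by
  refine ⟨fun X => Z X - unD S X - unD T X, fun X => by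
    show Z X - unD S X - unD T X ≤ Z X
    omega, ?_⟩
  funext X
  show Z X = Z X - unD S X - unD T X + unD S X + unD T X
  unfold unD
  by_cases h1 : X = S
  · subst h1
    rw [if_pos rfl, if_neg hST]
    omega
  · by_cases h2 : X = T
    · subst h2
      rw [if_neg h1, if_pos rfl]
      omega
    · rw [if_neg h1, if_neg h2]
      omega

theorem uncross (Y : Finset V → ℕ) (h0 : Y ∅ = 0) (h1 : Y Finset.univ = 0) :
    ∃ Z : Finset V → ℕ, Z ∅ = 0 ∧ Z Finset.univ = 0 ∧ ∑ S, Z S = ∑ S, Y S ∧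
      (∀ u v, ∑ S ∈ Finset.univ.filter (fun S : Finset V => ¬ (u ∈ S ↔ v ∈ S)), Z S ≤
        ∑ S ∈ Finset.univ.filter (fun S : Finset V => ¬ (u ∈ S ↔ v ∈ S)), Y S) ∧
      ∀ S T, Z S ≠ 0 → Z T ≠ 0 → S ⊆ T ∨ T ⊆ S ∨ Disjoint S T := by
  rcases isEmpty_or_nonempty V with hV | ⟨⟨r⟩⟩
  · refine ⟨Y, h0, h1, rfl, fun u v => le_rfl, fun S T _ _ => Or.inl ?_⟩
    intro x _
    exact (hV.false x).elim
  simp only [unL_sep, unL_one]
  set Y1 : Finset V → ℕ := fun S => if r ∈ S then 0 else Y S + Y Sᶜ with hY1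
  have t1 : unL (fun _ => 1) Y1 = unL (fun _ => 1) Y := unL_flip _ Y (fun _ => rfl) r
  have t2 : ∀ u v : V, unL (fun S => if ¬ (u ∈ S ↔ v ∈ S) then 1 else 0) Y1 =
      unL (fun S => if ¬ (u ∈ S ↔ v ∈ S) then 1 else 0) Y := by
    intro u v
    refine unL_flip _ Y (fun S => ?_) r
    simp only [Finset.mem_compl, not_iff_not]
  let Good : (Finset V → ℕ) → Prop := fun Z => Z ∅ = 0 ∧ (∀ S, r ∈ S → Z S = 0) ∧
    unL (fun _ => 1) Z = unL (fun _ => 1) Y ∧
    ∀ u v : V, unL (fun S => if ¬ (u ∈ S ↔ v ∈ S) then 1 else 0) Z ≤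
      unL (fun S => if ¬ (u ∈ S ↔ v ∈ S) then 1 else 0) Y
  have hg1 : Good Y1 := by
    refine ⟨?_, ?_, t1, fun u v => (t2 u v).le⟩
    · show (if r ∈ (∅ : Finset V) then 0 else Y ∅ + Y ∅ᶜ) = 0
      rw [if_neg (Finset.notMem_empty r), h0, Finset.compl_empty, h1]
    · intro S hS
      show (if r ∈ S then 0 else Y S + Y Sᶜ) = 0
      rw [if_pos hS]
  have hpot : ∀ Z, Good Z → unL (fun S => S.card ^ 2) Z ≤
      unL (fun _ => 1) Y * Fintype.card V ^ 2 := by
    rintro Z ⟨_, _, h2, _⟩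
    rw [← h2]
    unfold unL
    rw [Finset.sum_mul]
    refine Finset.sum_le_sum fun S _ => ?_
    rw [mul_one]
    exact Nat.mul_le_mul_left _ (Nat.pow_le_pow_left (Finset.card_le_univ S) 2)
  obtain ⟨Z, hZ, hmax⟩ : ∃ Z, Good Z ∧ ∀ Z', Good Z' →
      unL (fun S => S.card ^ 2) Z' ≤ unL (fun S => S.card ^ 2) Z := by
    obtain ⟨Z, hZ, hmin⟩ := WellFounded.has_min
      (measure (fun Z : Finset V → ℕ => unL (fun _ => 1) Y * Fintype.card V ^ 2 -
        unL (fun S => S.card ^ 2) Z)).wf {Z | Good Z} ⟨Y1, hg1⟩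
    refine ⟨Z, hZ, fun Z' hZ' => ?_⟩
    have h2 := hmin Z' hZ'
    have h3 := hpot Z hZ
    have h4 := hpot Z' hZ'
    change ¬ (unL (fun _ => 1) Y * Fintype.card V ^ 2 - unL (fun S => S.card ^ 2) Z' <
      unL (fun _ => 1) Y * Fintype.card V ^ 2 - unL (fun S => S.card ^ 2) Z) at h2
    omega
  obtain ⟨z1, z2, z3, z4⟩ := hZ
  refine ⟨Z, z1, z2 _ (Finset.mem_univ r), z3, z4, ?_⟩
  intro S T hS hT
  by_contra hcon
  push Not at hcon
  obtain ⟨c1, c2, c3⟩ := hcon
  have hST : S ≠ T := by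
    rintro rfl
    exact c1 subset_rfl
  have hI : S ∩ T ≠ ∅ := fun h => c3 (Finset.disjoint_iff_inter_eq_empty.2 h)
  have hrS : r ∉ S := fun h => hS (z2 S h)
  have hrT : r ∉ T := fun h => hT (z2 T h)
  obtain ⟨Z0, hZ0, hZeq⟩ := un_step Z S T hS hT hST
  have hgood : Good (fun X => Z0 X + unD (S ∩ T) X + unD (S ∪ T) X) := by
    refine ⟨?_, ?_, ?_, ?_⟩
    · show Z0 ∅ + unD (S ∩ T) ∅ + unD (S ∪ T) ∅ = 0
      have a1 := hZ0 ∅
      have a2 : unD (S ∩ T) ∅ = 0 := if_neg (fun h => hI h.symm)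
      have a3 : unD (S ∪ T) ∅ = 0 := by
        refine if_neg (fun h => hI ?_)
        have h5 : S = ∅ := Finset.subset_empty.1 (h ▸ Finset.subset_union_left)
        rw [h5, Finset.empty_inter]
      omega
    · intro X hX
      show Z0 X + unD (S ∩ T) X + unD (S ∪ T) X = 0
      have a1 := hZ0 X
      have a4 := z2 X hX
      have a2 : unD (S ∩ T) X = 0 := if_neg (fun h => hrS (Finset.mem_inter.1 (h ▸ hX)).1)
      have a3 : unD (S ∪ T) X = 0 := by
        refine if_neg (fun h => ?_)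
        rcases Finset.mem_union.1 (h ▸ hX) with h5 | h5
        · exact hrS h5
        · exact hrT h5
      omega
    · rw [unL_add, ← z3]
      conv_rhs => rw [hZeq]
      rw [unL_add]
    · intro u v
      refine le_trans ?_ (z4 u v)
      rw [unL_add]
      conv_rhs => rw [hZeq]
      rw [unL_add]
      have := un_sub u v S T
      omega
  have h5 := hmax (fun X => Z0 X + unD (S ∩ T) X + unD (S ∪ T) X) hgood
  rw [unL_add] at h5
  conv_rhs at h5 => rw [hZeq]
  rw [unL_add] at h5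
  have h6 := un_sq S T c1 c2
  omega

end Pool.Agent.Work.MP_5ce8c0_co.FH
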