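import Pool.Agent.Work.MP_5ce8c0_co.FH.Elim
import Pool.Agent.Work.MP_5ce8c0_co.FH.Uncross
import Pool.Agent.Work.MP_5ce8c0_co.FH.Build
import Pool.Agent.Work.MP_5ce8c0_co.FH.Cert

set_option autoImplicit false

/-!
# FH/Final (helper3): every 4-connected toroidal graph is fractionally Hamiltonian
-/

namespace Pool.Agent.Work.MP_5ce8c0_co.FH

open Classical

variable {V : Type} [Fintype V]

theorem frac_ham (G : SimpleGraph V) (hG : FourConn G) (R : Rotation G)
    (hE : Nat.card G.edgeSet ≤ Fintype.card V + ncyc R.face) : ∃ x : V → V → ℚ, FracHam G x := by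
  rcases frac_or_cert G hG.1 with h | ⟨Y, p, h0, h1, hd, hlt⟩
  · exact h
  · exfalso
    obtain ⟨Z, hZ0, hZ1, hsum, hsep, hl⟩ := uncross Y h0 h1
    obtain ⟨I, _, _, T, hc, hdd, hne⟩ := build Z hZ0 hZ1 hl
    have h := lam_le G hG R hE _ I T p rfl (fun u v huv => by
      rw [hdd]
      exact (hsep u v).trans (hd u v huv)) hne
    omega

end Pool.Agent.Work.MP_5ce8c0_co.FH
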