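import Pool.Agent.Work.MP_5ce8c0_co.FH.Defs

set_option autoImplicit false

/-!
# FH/Genus (M): the genus of a pair of permutations is nonnegative

PROOF (linear algebra). For a permutation `π` of `D` let `Fix π ⊆ (D → ℚ)` be the subspace of the functions `f` with
`f (π x) = f x`; `finrank (Fix π) = ncyc π` (functions on the quotient by `SameCycle`). By the hypothesis
`Fix σ ⊓ Fix α` consists of constants, dimension at most `1` (exactly one if `D` is nonempty; if `D` is empty all
numbers are `0`). So `dim (Fix σ ⊔ Fix α) ≥ ncyc σ + ncyc α - 1`. Let `f ∈ Fix (σ * α)`, `f (σ (α x)) = f x`, and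
`g x = f (σ x) - f x`. Then `∑ x, g x * h x = 0` for `h ∈ Fix σ` (change of variables `x → σ x`), and since
`f (σ x) = f (α⁻¹ x)` (put `x = α⁻¹ y`), `g x = f (α⁻¹ x) - f x` and `∑ x, g x * h x = 0` for `h ∈ Fix α`. So
`f ↦ g` is a linear map from `Fix (σ * α)` to the orthogonal complement of `Fix σ ⊔ Fix α` for the standard bilinear form,
of dimension `card D - dim (Fix σ ⊔ Fix α)`. Its kernel: `g = 0` gives `f ∈ Fix σ`, `f ∈ Fix α`, so `f` is constant:
dimension at most `1`. Hence `ncyc (σ * α) - 1 ≤ card D - (ncyc σ + ncyc α - 1)`.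
(For the complement: `LinearMap.BilinForm` / `Submodule.finrank_add_finrank_orthogonal`, or
`Submodule.finrank_add_finrank_dualAnnihilator_eq`, or use the Euclidean space over `ℝ`.)
-/

namespace Pool.Agent.Work.MP_5ce8c0_co.FH

open Classical

/-- the functions invariant under `π` -/
private def gfix {D : Type} (π : Equiv.Perm D) : Submodule ℚ (D → ℚ) where
  carrier := {f | ∀ x, f (π x) = f x}
  zero_mem' := fun _ => rfl
  add_mem' := by
    intro f g hf hg x
    simp only [Pi.add_apply, hf x, hg x]
  smul_mem' := by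
    intro c f hf x
    simp only [Pi.smul_apply, hf x]

private theorem gfix_same {D : Type} (π : Equiv.Perm D) {f : D → ℚ} (hf : ∀ x, f (π x) = f x)
    {x y : D} (h : π.SameCycle x y) : f x = f y := by
  obtain ⟨i, rfl⟩ := h
  let H : Subgroup (Equiv.Perm D) :=
    { carrier := {g | ∀ x, f (g x) = f x}
      mul_mem' := by
        intro g h hg hh x
        rw [Equiv.Perm.mul_apply, hg, hh]
      one_mem' := fun _ => rfl
      inv_mem' := by
        intro g hg x
        have := hg (g⁻¹ x)
        rw [← Equiv.Perm.mul_apply, mul_inv_cancel, Equiv.Perm.one_apply] at this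
        exact this.symm }
  have h1 : π ^ i ∈ H := H.zpow_mem hf i
  exact (h1 x).symm

private noncomputable def gequiv {D : Type} (π : Equiv.Perm D) :
    gfix π ≃ₗ[ℚ] (Quotient (Equiv.Perm.SameCycle.setoid π) → ℚ) where
  toFun f := fun q => Quotient.lift (f : D → ℚ) (fun _ _ hab => gfix_same π f.2 hab) q
  map_add' := by
    intro f g
    funext q
    induction q using Quotient.inductionOn
    rfl
  map_smul' := by
    intro c f
    funext q
    induction q using Quotient.inductionOn
    rfl
  invFun g := ⟨fun x => g (Quotient.mk _ x), fun x => congrArg g (Quotient.sound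
    (Equiv.Perm.sameCycle_apply_left.2 (Equiv.Perm.SameCycle.refl π x)))⟩
  left_inv := by
    intro f
    rfl
  right_inv := by
    intro g
    funext q
    induction q using Quotient.inductionOn
    rfl

private theorem gfix_finrank {D : Type} [Fintype D] (π : Equiv.Perm D) :
    Module.finrank ℚ (gfix π) = ncyc π := by
  have : Fintype (Quotient (Equiv.Perm.SameCycle.setoid π)) := Fintype.ofFinite _
  rw [(gequiv π).finrank_eq, Module.finrank_fintype_fun_eq_card, ncyc, Nat.card_eq_fintype_card]

/-- `f ↦ f ∘ σ - f` -/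
private def gmap {D : Type} (σ : Equiv.Perm D) : (D → ℚ) →ₗ[ℚ] (D → ℚ) where
  toFun f := fun x => f (σ x) - f x
  map_add' := by
    intro f g
    funext x
    simp only [Pi.add_apply]
    ring
  map_smul' := by
    intro c f
    funext x
    simp only [Pi.smul_apply, smul_eq_mul, RingHom.id_apply]
    ring

theorem genus {D : Type} [Fintype D] (σ α : Equiv.Perm D)
    (h : ∀ f : D → ℚ, (∀ x, f (σ x) = f x) → (∀ x, f (α x) = f x) → ∀ x y, f x = f y) :
    ncyc σ + ncyc α + ncyc (σ * α) ≤ Fintype.card D + 2 := by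
  set A := gfix σ with hA
  set B := gfix α with hB
  set C := gfix (σ * α) with hC
  -- the intersection
  have hAB : Module.finrank ℚ (A ⊓ B : Submodule ℚ (D → ℚ)) ≤ 1 := by
    have h1 : A ⊓ B ≤ Submodule.span ℚ {(fun _ => 1 : D → ℚ)} := by
      intro f hf
      rw [Submodule.mem_span_singleton]
      rcases isEmpty_or_nonempty D with hD | ⟨⟨x0⟩⟩
      · exact ⟨0, funext fun x => (hD.false x).elim⟩
      · refine ⟨f x0, ?_⟩
        funext x
        simp only [Pi.smul_apply, smul_eq_mul, mul_one]
        exact h f hf.1 hf.2 x0 x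
    refine (Submodule.finrank_mono h1).trans ((finrank_span_le_card _).trans ?_)
    simp
  have hW := Submodule.finrank_sup_add_finrank_inf_eq A B
  rw [hA, hB, gfix_finrank, gfix_finrank, ← hA, ← hB] at hW
  -- the image of `C`
  set Z := C.map (gmap σ) with hZ
  have hCZ : ncyc (σ * α) ≤ Module.finrank ℚ Z + 1 := by
    have h1 := ((gmap σ).domRestrict C).finrank_range_add_finrank_ker
    have h0 : Module.finrank ℚ C = ncyc (σ * α) := gfix_finrank _
    rw [LinearMap.range_domRestrict, h0, ← hZ] at h1
    have h2 : Module.finrank ℚ (LinearMap.ker ((gmap σ).domRestrict C)) ≤ 1 := by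
      refine le_trans ?_ hAB
      have h3 : (LinearMap.ker ((gmap σ).domRestrict C)).map C.subtype ≤ A ⊓ B := by
        rintro _ ⟨f, hf, rfl⟩
        have hf0 : gmap σ (f : D → ℚ) = 0 := hf
        have hf1 : ∀ x, (f : D → ℚ) (σ x) = (f : D → ℚ) x := fun x => by
          have := congrFun hf0 x
          exact sub_eq_zero.1 this
        refine ⟨hf1, fun x => ?_⟩
        have h4 : (f : D → ℚ) ((σ * α) x) = (f : D → ℚ) x := f.2 x
        rw [Equiv.Perm.mul_apply, hf1] at h4
        exact h4
      have h5 := Submodule.finrank_mono h3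
      rwa [Submodule.finrank_map_subtype_eq] at h5
    omega
  -- orthogonality
  have horth : ∀ g ∈ Z, ∀ k ∈ A ⊔ B, ∑ x, g x * k x = 0 := by
    rintro _ ⟨f, hf, rfl⟩ k hk
    obtain ⟨u, hu, v, hv, rfl⟩ := Submodule.mem_sup.1 hk
    have e1 : ∑ x, (f (σ x) - f x) * u x = 0 := by
      have e2 : ∑ x, f (σ x) * u x = ∑ x, f x * u x := by
        rw [← Equiv.sum_comp σ (fun x => f x * u x)]
        exact Finset.sum_congr rfl fun x _ => by rw [hu x]
      simp only [sub_mul, Finset.sum_sub_distrib, e2, sub_self]
    have e3 : ∑ x, (f (σ x) - f x) * v x = 0 := by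
      have e2 : ∑ x, f (σ x) * v x = ∑ x, f x * v x := by
        rw [← Equiv.sum_comp α (fun x => f (σ x) * v x)]
        refine Finset.sum_congr rfl fun x _ => ?_
        have h4 : f (σ (α x)) = f x := hf x
        rw [h4, hv x]
      simp only [sub_mul, Finset.sum_sub_distrib, e2, sub_self]
    have e4 : ∑ x, gmap σ f x * (u + v) x = ∑ x, (f (σ x) - f x) * u x +
        ∑ x, (f (σ x) - f x) * v x := by
      rw [← Finset.sum_add_distrib]
      refine Finset.sum_congr rfl fun x _ => ?_
      show (f (σ x) - f x) * (u x + v x) = _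
      ring
    rw [e4, e1, e3, add_zero]
  have hZW : Z ⊓ (A ⊔ B) = ⊥ := by
    rw [eq_bot_iff]
    intro g hg
    rw [Submodule.mem_bot]
    have h1 := horth g hg.1 g hg.2
    funext x
    have h2 := (Finset.sum_eq_zero_iff_of_nonneg (fun x _ => mul_self_nonneg (g x))).1 h1 x
      (Finset.mem_univ x)
    exact mul_self_eq_zero.1 h2
  have hsum := Submodule.finrank_sup_add_finrank_inf_eq Z (A ⊔ B)
  rw [hZW, finrank_bot, add_zero] at hsum
  have hle : Module.finrank ℚ (Z ⊔ (A ⊔ B) : Submodule ℚ (D → ℚ)) ≤ Fintype.card D := by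
    refine (Submodule.finrank_le _).trans (le_of_eq ?_)
    exact Module.finrank_fintype_fun_eq_card ℚ
  omega

end Pool.Agent.Work.MP_5ce8c0_co.FH
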