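import Pool.Agent.Work.MP_5ce8c0_co.FH.Defs

set_option autoImplicit false

/-!
# FH/LSumA (S-M): the bound of a triangle as a sum over levels

`∑ t < P, [t < p v] = p v` for `p v ≤ P`. For distinct corners `∑ t < P, wt a b c A_t` counts the `t` below the second largest and the `t` below the smallest of
`p a, p b, p c`: sum of the two smallest, `= min (p a + p b) (min ...)` (case distinction on the order; `Finset.sum_ite`, `Finset.card_filter`, or first prove
`wt a b c A_t = [t < mid] + [t < small]`).
-/

namespace Pool.Agent.Work.MP_5ce8c0_co.FH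

open Classical

variable {V : Type} [Fintype V]

private theorem lsa_ind {x P : ℕ} (h : x ≤ P) :
    ∑ t ∈ Finset.range P, (if t < x then 1 else 0) = x := by
  rw [← Finset.sum_filter]
  have h1 : (Finset.range P).filter (fun t => t < x) = Finset.range x := by
    ext t
    rw [Finset.mem_filter, Finset.mem_range, Finset.mem_range]
    omega
  rw [h1]
  simp

theorem sum_level (p : V → ℕ) (P : ℕ) (hP : ∀ v, p v ≤ P) :
    ∑ t ∈ Finset.range P, (Finset.univ.filter fun v => t < p v).card = ∑ v, p v := by
  have h1 : ∀ t, (Finset.univ.filter fun v => t < p v).card = ∑ v, (if t < p v then 1 else 0) := by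
    intro t
    rw [Finset.card_filter]
  rw [Finset.sum_congr rfl fun t _ => h1 t, Finset.sum_comm]
  exact Finset.sum_congr rfl fun v _ => lsa_ind (hP v)

theorem bd_eq (p : V → ℕ) (P : ℕ) (hP : ∀ v, p v ≤ P) (a b c : V) :
    ∑ t ∈ Finset.range P, wt a b c (Finset.univ.filter fun v => t < p v) = bd p a b c := by
  unfold wt bd
  simp only [Finset.mem_filter, Finset.mem_univ, true_and]
  have hm : ∀ v : V, ∑ t ∈ Finset.range P, (if t < p v then 1 else 0) = p v :=
    fun v => lsa_ind (hP v)
  split_ifs with h1 h2 h3 h4
  · simp
  · exact hm a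
  · exact hm b
  · exact hm a
  · have ha := hP a
    have hb := hP b
    have hc := hP c
    have e1 : ∀ t, (if t < p a ∧ t < p b ∧ t < p c then 2
        else if (t < p a ∧ t < p b) ∨ (t < p b ∧ t < p c) ∨ (t < p a ∧ t < p c) then 1 else 0) =
        (if t < max (min (p a) (p b)) (max (min (p b) (p c)) (min (p a) (p c))) then 1 else 0) +
          (if t < min (p a) (min (p b) (p c)) then 1 else 0) := by
      intro t
      split_ifs <;> omega
    rw [Finset.sum_congr rfl fun t _ => e1 t, Finset.sum_add_distrib, lsa_ind (by omega),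
      lsa_ind (by omega)]
    omega

end Pool.Agent.Work.MP_5ce8c0_co.FH
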