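import Pool.Agent.Work.MP_5ce8c0_co.FH.WSum
import Pool.Agent.Work.MP_5ce8c0_co.FH.LSumA

set_option autoImplicit false

/-!
# FH/LSum (M-L): the sum over all triangles

PROOF. Let `P = sup p`, `A_t = {v | t < p v}`. `∑ x, bd p (corners of x) = ∑ t < P, M.W wt A_t` (`bd_eq`, exchange the sums), and `∑ t < P, 12 |A_t| = 12 ∑ p`
(`sum_level`). If every level satisfies the first alternative of `w_level` we are done by `h1`. Otherwise some level `A = A_{t0}` satisfies the second: `A = {u, v, w}`,
choose the names such that `p u ≥ p v ≥ p w > t0`, and all other vertices have `p ≤ t0`. The levels `t < P` with `|A_t| = 3` have `A_t = A` (the `A_t` decrease), `t < p w`: their number is at most `p w`, and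
`W ≤ 39 = 36 + 3` for them. The levels with `|A_t| ≠ 3` have `W ≤ 12 |A_t|`. The levels `p v ≤ t < p u` have `A_t = {u}` and `W = 0` (`w_single`, no loops at
`u ∈ A`), so they save `12` each. Hence `∑ x, bd ≤ 12 ∑ p + 3 p w - 12 (p u - p v)`. Let `x0` be a dart with all three corners in `A`; by the last condition its corners are
distinct, so they are `u, v, w` in some order; for the three (distinct) darts `x0, ph x0, ph (ph x0)` we have `bd = p v + p w` and `s ≤ p u` by `h2`. So
`∑ s ≤ ∑ bd - 3 (p v + p w - min (p u) (p v + p w))`. If `p u ≤ p v + p w`: the total is at most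
`12 ∑ p + 3 p w - 12 (p u - p v) - 3 (p v + p w - p u) = 12 ∑ p - 9 (p u - p v)`. Otherwise `12 (p u - p v) ≥ 12 p w`.
-/

namespace Pool.Agent.Work.MP_5ce8c0_co.FH

open Classical

variable {V D : Type} [Fintype V] [Fintype D]

/-- the sum of the bounds is the sum of the weights of the levels -/
private theorem sum_bd (M : CMap V D) (p : V → ℕ) (P : ℕ) (hP : ∀ v, p v ≤ P) :
    ∑ x, bd p (M.tail x) (M.tail (M.ph x)) (M.tail (M.ph (M.ph x))) =
      ∑ t ∈ Finset.range P, M.W wt (Finset.univ.filter fun v => t < p v) := by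
  unfold CMap.W
  rw [Finset.sum_comm]
  exact Finset.sum_congr rfl fun x _ => (bd_eq p P hP _ _ _).symm

/-- the arithmetic of one exceptional level -/
private theorem arith (S B p12 u v w : ℕ) (hvw : w ≤ v) (huv : v ≤ u)
    (hB : B + 12 * (u - v) ≤ p12 + 3 * w)
    (hS1 : S ≤ B) (hS2 : S + 3 * (v + w) ≤ B + 3 * u) : S ≤ p12 := by
  omega

theorem level_sum (G : SimpleGraph V) (hG : FourConn G) (M : CMap V D) (hM : M.Tri) (hH : M.Hosts G)
    (hE : Fintype.card D ≤ 6 * Fintype.card V) (p : V → ℕ) (s : D → ℕ)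
    (h1 : ∀ x, s x ≤ bd p (M.tail x) (M.tail (M.ph x)) (M.tail (M.ph (M.ph x))))
    (h2 : ∀ x, s x ≤ max (p (M.tail x)) (max (p (M.tail (M.ph x))) (p (M.tail (M.ph (M.ph x)))))) :
    ∑ x, s x ≤ 12 * ∑ v, p v := by
  let P : ℕ := Finset.univ.sup p
  have hP : ∀ v, p v ≤ P := fun v => Finset.le_sup (Finset.mem_univ v)
  have hsum := sum_bd M p P hP
  have hlev := sum_level p P hP
  have hsle : ∑ x, s x ≤ ∑ x, bd p (M.tail x) (M.tail (M.ph x)) (M.tail (M.ph (M.ph x))) :=
    Finset.sum_le_sum fun x _ => h1 x
  by_cases hall : ∀ t ∈ Finset.range P, M.W wt (Finset.univ.filter fun v => t < p v) ≤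
      12 * (Finset.univ.filter fun v => t < p v).card
  · calc ∑ x, s x ≤ _ := hsle
      _ = _ := hsum
      _ ≤ ∑ t ∈ Finset.range P, 12 * (Finset.univ.filter fun v => t < p v).card :=
          Finset.sum_le_sum hall
      _ = 12 * ∑ v, p v := by rw [← Finset.mul_sum, hlev]
  push Not at hall
  obtain ⟨t0, ht0, hbad⟩ := hall
  obtain ⟨hc3, -, ⟨x0, hx1, hx2, hx3⟩, hne⟩ : (Finset.univ.filter fun v => t0 < p v).card = 3 ∧
      M.W wt (Finset.univ.filter fun v => t0 < p v) ≤ 39 ∧
      (∃ x, M.tail x ∈ (Finset.univ.filter fun v => t0 < p v) ∧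
        M.tail (M.ph x) ∈ (Finset.univ.filter fun v => t0 < p v) ∧
        M.tail (M.ph (M.ph x)) ∈ (Finset.univ.filter fun v => t0 < p v)) ∧
      ∀ x, M.tail x ∈ (Finset.univ.filter fun v => t0 < p v) →
        M.tail (M.ph x) ∈ (Finset.univ.filter fun v => t0 < p v) →
        M.tail x ≠ M.tail (M.ph x) := by
    rcases w_level G hG M hM hH hE (Finset.univ.filter fun v => t0 < p v) with h | h
    · exact absurd h (not_le.2 hbad)
    · exact h
  -- the three vertices in decreasing order
  obtain ⟨u, v, w, huv, hvw, huw, hA, hpuv, hpvw⟩ : ∃ u v w : V, u ≠ v ∧ v ≠ w ∧ u ≠ w ∧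
      (Finset.univ.filter fun v => t0 < p v) = {u, v, w} ∧ p v ≤ p u ∧ p w ≤ p v := by
    obtain ⟨a, b, c, hab, hac, hbc, hA⟩ := Finset.card_eq_three.1 hc3
    rcases le_total (p a) (p b) with h12 | h12 <;> rcases le_total (p b) (p c) with h23 | h23 <;>
      rcases le_total (p a) (p c) with h13 | h13
    · exact ⟨c, b, a, hbc.symm, hab.symm, hac.symm, by rw [hA]; ext z; simp; tauto, h23, h12⟩
    · exact ⟨c, b, a, hbc.symm, hab.symm, hac.symm, by rw [hA]; ext z; simp; tauto, h23, h12⟩
    · exact ⟨b, c, a, hbc, hac.symm, hab.symm, by rw [hA]; ext z; simp; tauto, h23, h13⟩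
    · exact ⟨b, a, c, hab.symm, hac, hbc, by rw [hA]; ext z; simp; tauto, h12, h13⟩
    · exact ⟨c, a, b, hac.symm, hab, hbc.symm, by rw [hA]; ext z; simp; tauto, h13, h12⟩
    · exact ⟨a, c, b, hac, hbc.symm, hab, by rw [hA]; ext z; simp; tauto, h13, h23⟩
    · exact ⟨a, b, c, hab, hbc, hac, by rw [hA], h12, h23⟩
    · exact ⟨a, b, c, hab, hbc, hac, by rw [hA], h12, h23⟩
  have hmem : ∀ z, t0 < p z ↔ z = u ∨ z = v ∨ z = w := by
    intro z
    have := congrArg (fun s => z ∈ s) hA
    simpa using this
  have hpw : t0 < p w := (hmem w).2 (Or.inr (Or.inr rfl))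
  have hlow : ∀ z, z ≠ u → z ≠ v → z ≠ w → p z ≤ t0 := by
    intro z h3 h4 h5
    by_contra h
    rcases (hmem z).1 (not_le.1 h) with h' | h' | h'
    · exact h3 h'
    · exact h4 h'
    · exact h5 h'
  -- no loops at `u`
  have hloop : ∀ x, M.tail x = u → M.tail (M.ph x) ≠ u := by
    intro x hx hx'
    refine hne x ?_ ?_ ?_
    · rw [hx, hA]
      simp
    · rw [hx', hA]
      simp
    · rw [hx, hx']
  have hWu := w_single M hM u hloop
  -- the bound of every level
  have hlevel : ∀ t ∈ Finset.range P, M.W wt (Finset.univ.filter fun v => t < p v) +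
      (if p v ≤ t ∧ t < p u then 12 else 0) ≤
      12 * (Finset.univ.filter fun v => t < p v).card + (if t < p w then 3 else 0) := by
    intro t _
    by_cases hmid : p v ≤ t ∧ t < p u
    · rw [if_pos hmid]
      have hAt : (Finset.univ.filter fun v => t < p v) = {u} := by
        ext z
        simp only [Finset.mem_filter, Finset.mem_univ, true_and, Finset.mem_singleton]
        constructor
        · intro hz
          by_contra hzu
          have : t0 < p z := by omega
          rcases (hmem z).1 this with h' | h' | h'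
          · exact hzu h'
          · rw [h'] at hz
            omega
          · rw [h'] at hz
            omega
        · intro hz
          rw [hz]
          exact hmid.2
      rw [hAt, hWu, Finset.card_singleton]
      omega
    · rw [if_neg hmid, add_zero]
      rcases w_level G hG M hM hH hE (Finset.univ.filter fun v => t < p v) with h | h
      · exact h.trans (Nat.le_add_right _ _)
      · obtain ⟨hc, hW, -, -⟩ := h
        have htw : t < p w := by
          by_contra htw
          have hsub : (Finset.univ.filter fun v => t < p v) ⊆ {u, v} := by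
            intro z hz
            have hz' : t < p z := by simpa using hz
            have : t0 < p z := by omega
            rcases (hmem z).1 this with h' | h' | h'
            · simp [h']
            · simp [h']
            · rw [h'] at hz'
              omega
          have := Finset.card_le_card hsub
          have h6 : ({u, v} : Finset V).card ≤ 2 := Finset.card_le_two
          omega
        rw [if_pos htw, hc]
        omega
  have hPu : p u ≤ P := hP u
  have hB : (∑ x, bd p (M.tail x) (M.tail (M.ph x)) (M.tail (M.ph (M.ph x)))) +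
      12 * (p u - p v) ≤ 12 * ∑ v, p v + 3 * p w := by
    have h3 := Finset.sum_le_sum hlevel
    rw [Finset.sum_add_distrib, Finset.sum_add_distrib, ← Finset.mul_sum, hlev, ← hsum] at h3
    have h4 : ∑ t ∈ Finset.range P, (if p v ≤ t ∧ t < p u then 12 else 0) = 12 * (p u - p v) := by
      rw [← Finset.sum_filter, Finset.sum_const, smul_eq_mul, mul_comm]
      congr 1
      have : (Finset.range P).filter (fun t => p v ≤ t ∧ t < p u) = Finset.Ico (p v) (p u) := by
        ext t
        simp only [Finset.mem_filter, Finset.mem_range, Finset.mem_Ico]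
        constructor
        · exact fun h => h.2
        · exact fun h => ⟨by omega, h⟩
      rw [this, Nat.card_Ico]
    have h5 : ∑ t ∈ Finset.range P, (if t < p w then 3 else 0) = 3 * p w := by
      rw [← Finset.sum_filter, Finset.sum_const, smul_eq_mul, mul_comm]
      congr 1
      have : (Finset.range P).filter (fun t => t < p w) = Finset.range (p w) := by
        ext t
        simp only [Finset.mem_filter, Finset.mem_range]
        constructor
        · exact fun h => h.2
        · exact fun h => ⟨by omega, h⟩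
      rw [this, Finset.card_range]
    rw [h4, h5] at h3
    exact h3
  -- the three darts of the exceptional triangle
  have hph3 := hM.1
  have hne1 := hM.2
  have hx01 : M.tail x0 ≠ M.tail (M.ph x0) := hne x0 hx1 hx2
  have hx12 : M.tail (M.ph x0) ≠ M.tail (M.ph (M.ph x0)) := hne (M.ph x0) hx2 hx3
  have hx20 : M.tail (M.ph (M.ph x0)) ≠ M.tail x0 := by
    have := hne (M.ph (M.ph x0)) hx3 (by rw [hph3]; exact hx1)
    rwa [hph3] at this
  have hmx : ∀ z, z ∈ (Finset.univ.filter fun v => t0 < p v) → z = u ∨ z = v ∨ z = w := by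
    intro z hz
    exact (hmem z).1 (by simpa using hz)
  have hbd : ∀ a b c : V, a ≠ b → b ≠ c → c ≠ a → (a = u ∨ a = v ∨ a = w) →
      (b = u ∨ b = v ∨ b = w) → (c = u ∨ c = v ∨ c = w) → bd p a b c = p v + p w ∧
        max (p a) (max (p b) (p c)) = p u := by
    intro a b c hab hbc hca ha hb hc
    have e1 : bd p a b c = min (p a + p b) (min (p b + p c) (p a + p c)) := by
      unfold bd
      rw [if_neg (fun h => hab h.1), if_neg hab, if_neg hbc, if_neg hca.symm]
    rw [e1]
    rcases ha with rfl | rfl | rfl <;> rcases hb with rfl | rfl | rfl <;>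
      rcases hc with rfl | rfl | rfl <;> first
        | exact absurd rfl hab
        | exact absurd rfl hbc
        | exact absurd rfl hca
        | (constructor <;> omega)
  have hb0 := hbd _ _ _ hx01 hx12 hx20 (hmx _ hx1) (hmx _ hx2) (hmx _ hx3)
  have hb1 := hbd _ _ _ hx12 hx20 hx01 (hmx _ hx2) (hmx _ hx3) (hmx _ hx1)
  have hb2 := hbd _ _ _ hx20 hx01 hx12 (hmx _ hx3) (hmx _ hx1) (hmx _ hx2)
  have hS2 : (∑ x, s x) + 3 * (p v + p w) ≤
      (∑ x, bd p (M.tail x) (M.tail (M.ph x)) (M.tail (M.ph (M.ph x)))) + 3 * p u := by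
    have hd01 : x0 ≠ M.ph x0 := (hne1 x0).symm
    have hd12 : M.ph x0 ≠ M.ph (M.ph x0) := (hne1 _).symm
    have hd02 : x0 ≠ M.ph (M.ph x0) := by
      intro h
      exact hx20 (by rw [← h])
    have hsplit : ∀ f : D → ℕ, ∑ x, f x = (∑ x ∈ (Finset.univ \ {x0, M.ph x0, M.ph (M.ph x0)}), f x) +
        (f x0 + (f (M.ph x0) + f (M.ph (M.ph x0)))) := by
      intro f
      rw [← Finset.sum_sdiff (Finset.subset_univ {x0, M.ph x0, M.ph (M.ph x0)})]
      congr 1
      rw [Finset.sum_insert, Finset.sum_insert, Finset.sum_singleton]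
      · simpa using hd12
      · simp [hd01, hd02]
    rw [hsplit s, hsplit (fun x => bd p (M.tail x) (M.tail (M.ph x)) (M.tail (M.ph (M.ph x))))]
    have h3 : ∑ x ∈ (Finset.univ \ {x0, M.ph x0, M.ph (M.ph x0)}), s x ≤
        ∑ x ∈ (Finset.univ \ {x0, M.ph x0, M.ph (M.ph x0)}),
          bd p (M.tail x) (M.tail (M.ph x)) (M.tail (M.ph (M.ph x))) :=
      Finset.sum_le_sum fun x _ => h1 x
    have s0 := h2 x0
    have s1 := h2 (M.ph x0)
    have s2 := h2 (M.ph (M.ph x0))
    simp only [hph3] at s1 s2 ⊢
    rw [hb0.2] at s0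
    rw [hb1.2] at s1
    rw [hb2.2] at s2
    rw [hb0.1, hb1.1, hb2.1]
    omega
  exact arith _ _ _ (p u) (p v) (p w) hpvw hpuv hB hsle hS2

end Pool.Agent.Work.MP_5ce8c0_co.FH
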