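import Pool.Agent.Work.MP_5ce8c0_co.FH.Star

set_option autoImplicit false

/-!
# FH/LevelB (M): the Euler inequality for a set of at least four vertices

PROOF. Induction on the number of vertices outside `A`. If `A = univ`: `t3 A ≤ card D ≤ 6 |V|`, `f2 A = 0`. Otherwise let `r ∉ A` and
`C = {v | ReflTransGen (M.Step Aᶜ) r v}` (`v ∉ A`): `C` is connected (`Step` is symmetric, use `al`), disjoint from `A`, and `nb C ⊆ A` (a neighbour of `C`
outside `A` is in `C`). `4 ≤ (nb C).card`: if there is a vertex `b ∉ C ∪ nb C` and `(nb C).card < 4` then the graph `G` minus `nb C` is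
connected (`hG.2`), but no edge of `G` (hosted) goes from `C` to the rest (walk from `r` to `b`), contradiction; otherwise
`A ⊆ nb C` (`A` is disjoint from `C`).
`t3 (A ∪ C) = t3 A + tc C` (a face with a corner in `C` has all corners in `A ∪ C`: two corners of a face are adjacent), `f2 A = f2 (A ∪ C) + fc C` (a face with exactly two
corners in `A`: the third is in `C` or not; a face with exactly one corner in `C` has the others in `nb C ⊆ A`; a face with exactly two corners in `A ∪ C` has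
none in `C`, since otherwise the third is in `A ∪ C`). By `star` and `nb_le_fc`: `6 |C| + 3 fc ≤ tc` or (`6 |C| + 6 + 3 fc ≤ tc + 12` and
`fc ≥ 4`); in both cases `12 |C| + 3 fc ≤ 2 tc`. With the inequality for `A ∪ C`:
`2 (t3 A + tc) + 3 (f2 A - fc) ≤ 12 |A| + 12 |C|`.
-/

namespace Pool.Agent.Work.MP_5ce8c0_co.FH

open Classical

variable {V D : Type} [Fintype V] [Fintype D]

private theorem mem_nb' {V' D' : Type} [Fintype V'] (M : CMap V' D') (C : Finset V') (a : V') :
    a ∈ M.nb C ↔ a ∉ C ∧ ∃ x, M.tail x = a ∧ M.tail (M.ph x) ∈ C := by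
  unfold CMap.nb
  rw [Finset.mem_filter]
  exact ⟨fun h => h.2, fun h => ⟨Finset.mem_univ _, h⟩⟩

private theorem lb_symm (M : CMap V D) (x : D) :
    M.tail (M.al x) = M.tail (M.ph x) ∧ M.tail (M.ph (M.al x)) = M.tail x := by
  constructor
  · exact (M.tail_ph x).symm
  · rw [M.tail_ph, M.al_al]

/-- the two counting identities -/
private theorem lb_count (M : CMap V D) (hM : M.Tri) (A C : Finset V)
    (hcl : ∀ x, M.tail x ∈ C → M.tail (M.ph x) ∈ A ∨ M.tail (M.ph x) ∈ C)
    (hdis : ∀ v, v ∈ A → v ∉ C) :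
    M.t3 (A ∪ C) = M.t3 A + M.tc C ∧ M.f2 A = M.f2 (A ∪ C) + M.fc C := by
  have hcl' : ∀ x, M.tail (M.ph x) ∈ C → M.tail x ∈ A ∨ M.tail x ∈ C := by
    intro x hx
    have h1 := hcl (M.al x)
    rw [(lb_symm M x).1, (lb_symm M x).2] at h1
    exact h1 hx
  have face : ∀ x, (M.tail x ∈ C → M.tail (M.ph x) ∈ A ∨ M.tail (M.ph x) ∈ C) ∧
      (M.tail (M.ph x) ∈ C → M.tail x ∈ A ∨ M.tail x ∈ C) ∧
      (M.tail (M.ph x) ∈ C → M.tail (M.ph (M.ph x)) ∈ A ∨ M.tail (M.ph (M.ph x)) ∈ C) ∧
      (M.tail (M.ph (M.ph x)) ∈ C → M.tail (M.ph x) ∈ A ∨ M.tail (M.ph x) ∈ C) ∧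
      (M.tail (M.ph (M.ph x)) ∈ C → M.tail x ∈ A ∨ M.tail x ∈ C) ∧
      (M.tail x ∈ C → M.tail (M.ph (M.ph x)) ∈ A ∨ M.tail (M.ph (M.ph x)) ∈ C) := by
    intro x
    have h1 := hcl (M.ph (M.ph x))
    have h2 := hcl' (M.ph (M.ph x))
    rw [hM.1 x] at h1 h2
    exact ⟨hcl x, hcl' x, hcl (M.ph x), hcl' (M.ph x), h1, h2⟩
  constructor
  · unfold CMap.t3 CMap.tc
    rw [← Finset.card_union_of_disjoint]
    · congr 1
      ext x
      simp only [Finset.mem_filter, Finset.mem_univ, true_and, Finset.mem_union]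
      obtain ⟨g1, g2, g3, g4, g5, g6⟩ := face x
      constructor
      · rintro ⟨h1, h2, h3⟩
        by_cases hc : M.tail x ∈ C ∨ M.tail (M.ph x) ∈ C ∨ M.tail (M.ph (M.ph x)) ∈ C
        · exact Or.inr hc
        · push Not at hc
          exact Or.inl ⟨h1.resolve_right hc.1, h2.resolve_right hc.2.1, h3.resolve_right hc.2.2⟩
      · rintro (⟨h1, h2, h3⟩ | h1 | h1 | h1)
        · exact ⟨Or.inl h1, Or.inl h2, Or.inl h3⟩
        · exact ⟨Or.inr h1, g1 h1, g6 h1⟩
        · exact ⟨g2 h1, Or.inr h1, g3 h1⟩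
        · exact ⟨g5 h1, g4 h1, Or.inr h1⟩
    · rw [Finset.disjoint_filter]
      rintro x - ⟨h1, h2, h3⟩ (h4 | h4 | h4)
      · exact hdis _ h1 h4
      · exact hdis _ h2 h4
      · exact hdis _ h3 h4
  · unfold CMap.f2 CMap.fc
    rw [← Finset.card_union_of_disjoint]
    · congr 1
      ext x
      simp only [Finset.mem_filter, Finset.mem_univ, true_and, Finset.mem_union]
      obtain ⟨g1, g2, g3, g4, g5, g6⟩ := face x
      constructor
      · rintro ⟨h1, h2, h3⟩
        by_cases hc : M.tail (M.ph (M.ph x)) ∈ C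
        · exact Or.inr ⟨hdis _ h1, hdis _ h2, hc⟩
        · exact Or.inl ⟨Or.inl h1, Or.inl h2, fun h4 => h4.elim h3 hc⟩
      · rintro (⟨h1, h2, h3⟩ | ⟨h1, h2, h3⟩)
        · push Not at h3
          refine ⟨h1.resolve_right fun h4 => ?_, h2.resolve_right fun h4 => ?_, h3.1⟩
          · exact (g6 h4).elim h3.1 h3.2
          · exact (g3 h4).elim h3.1 h3.2
        · exact ⟨(g5 h3).resolve_right h1, (g4 h3).resolve_right h2, fun h4 => hdis _ h4 h3⟩
    · rw [Finset.disjoint_filter]
      rintro x - ⟨h1, h2, h3⟩ ⟨h4, h5, h6⟩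
      exact h3 (Finset.mem_union_right _ h6)

theorem level_big (G : SimpleGraph V) (hG : FourConn G) (M : CMap V D) (hM : M.Tri) (hH : M.Hosts G)
    (hE : Fintype.card D ≤ 6 * Fintype.card V) (A : Finset V) (hA : 4 ≤ A.card) :
    2 * M.t3 A + 3 * M.f2 A ≤ 12 * A.card := by
  obtain ⟨n, hn⟩ : ∃ n : ℕ, n = (Aᶜ).card := ⟨_, rfl⟩
  induction n using Nat.strong_induction_on generalizing A with
  | _ n ih =>
  by_cases hAu : A = Finset.univ
  · subst hAu
    have h1 : M.t3 Finset.univ ≤ Fintype.card D := by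
      unfold CMap.t3
      exact Finset.card_le_univ _
    have h2 : M.f2 Finset.univ = 0 := by
      unfold CMap.f2
      rw [Finset.card_eq_zero, Finset.filter_eq_empty_iff]
      rintro x - ⟨-, -, h3⟩
      exact h3 (Finset.mem_univ _)
    rw [h2, Finset.card_univ]
    omega
  · obtain ⟨r, hr⟩ : ∃ r, r ∉ A := by
      by_contra hcon
      push Not at hcon
      exact hAu (Finset.eq_univ_iff_forall.2 hcon)
    obtain ⟨C, hCd⟩ : ∃ C : Finset V, C = Finset.univ.filter fun v => v ∉ A ∧
        Relation.ReflTransGen (M.Step Aᶜ) r v := ⟨_, rfl⟩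
    have hCm : ∀ v, v ∈ C ↔ v ∉ A ∧ Relation.ReflTransGen (M.Step Aᶜ) r v := by
      intro v
      rw [hCd, Finset.mem_filter]
      exact ⟨fun h => h.2, fun h => ⟨Finset.mem_univ _, h⟩⟩
    have hrC : r ∈ C := (hCm r).2 ⟨hr, Relation.ReflTransGen.refl⟩
    have hdis : ∀ v, v ∈ A → v ∉ C := fun v hv hvC => ((hCm v).1 hvC).1 hv
    have hcl : ∀ x, M.tail x ∈ C → M.tail (M.ph x) ∈ A ∨ M.tail (M.ph x) ∈ C := by
      intro x hx
      by_cases hA1 : M.tail (M.ph x) ∈ A
      · exact Or.inl hA1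
      · right
        obtain ⟨h1, h2⟩ := (hCm _).1 hx
        exact (hCm _).2 ⟨hA1, h2.tail ⟨Finset.mem_compl.2 h1, Finset.mem_compl.2 hA1, x, rfl, rfl⟩⟩
    have hsymm : ∀ a b, M.Step C a b → M.Step C b a := by
      rintro a b ⟨h1, h2, x, rfl, rfl⟩
      exact ⟨h2, h1, M.al x, (lb_symm M x).1, (lb_symm M x).2⟩
    have hrev : ∀ a b, Relation.ReflTransGen (M.Step C) a b →
        Relation.ReflTransGen (M.Step C) b a := by
      intro a b h
      induction h with
      | refl => exact Relation.ReflTransGen.refl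
      | tail _ h2 ih2 => exact Relation.ReflTransGen.head (hsymm _ _ h2) ih2
    have hreach : ∀ v, Relation.ReflTransGen (M.Step Aᶜ) r v →
        Relation.ReflTransGen (M.Step C) r v := by
      intro v hv
      induction hv with
      | refl => exact Relation.ReflTransGen.refl
      | tail h1 h2 ih1 =>
        refine ih1.tail ⟨?_, ?_, h2.2.2⟩
        · exact (hCm _).2 ⟨Finset.mem_compl.1 h2.1, h1⟩
        · exact (hCm _).2 ⟨Finset.mem_compl.1 h2.2.1, h1.tail h2⟩
    have hconn : M.Conn C := by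
      intro u hu v hv
      have h1 := hreach u ((hCm u).1 hu).2
      have h2 := hreach v ((hCm v).1 hv).2
      exact (hrev _ _ h1).trans h2
    -- the neighbours of `C`
    have hnb4 : 4 ≤ (M.nb C).card := by
      by_contra hlt
      push Not at hlt
      obtain ⟨b, hbA, hbn⟩ : ∃ b ∈ A, b ∉ M.nb C := by
        by_contra hcon
        push Not at hcon
        have h1 := Finset.card_le_card (fun b hb => hcon b hb : A ⊆ M.nb C)
        omega
      have hrn : r ∉ M.nb C := by
        rw [mem_nb']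
        rintro ⟨h1, -⟩
        exact h1 hrC
      have hc := hG.2 (M.nb C) hlt
      have hrm : r ∈ ((↑(M.nb C) : Set V)ᶜ) := by
        rw [Set.mem_compl_iff, Finset.mem_coe]
        exact hrn
      have hbm : b ∈ ((↑(M.nb C) : Set V)ᶜ) := by
        rw [Set.mem_compl_iff, Finset.mem_coe]
        exact hbn
      obtain ⟨w⟩ := hc.preconnected ⟨r, hrm⟩ ⟨b, hbm⟩
      have key : ∀ (p q : ((↑(M.nb C) : Set V)ᶜ : Set V)),
          (G.induce ((↑(M.nb C) : Set V)ᶜ)).Walk p q → p.1 ∈ C → q.1 ∈ C := by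
        intro p q w
        induction w with
        | nil => exact fun h => h
        | @cons p q t hpq w' ih' =>
          intro hp
          apply ih'
          by_contra hq
          have hadj : G.Adj p.1 q.1 := hpq
          obtain ⟨x, hx1, hx2⟩ := hH p.1 q.1 hadj
          apply q.2
          rw [Finset.mem_coe, mem_nb']
          refine ⟨hq, M.al x, ?_, ?_⟩
          · rw [(lb_symm M x).1, hx2]
          · rw [(lb_symm M x).2, hx1]
            exact hp
      exact hdis b hbA (key _ _ w hrC)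
    have hout : (M.nb C).Nonempty := Finset.card_pos.1 (by omega)
    obtain ⟨s1, s2⟩ := star M hM C hconn hout
    obtain ⟨c1, c2⟩ := lb_count M hM A C hcl hdis
    have hd : Disjoint A C := Finset.disjoint_left.2 hdis
    have hcard : (A ∪ C).card = A.card + C.card := Finset.card_union_of_disjoint hd
    have hCpos : 0 < C.card := Finset.card_pos.2 ⟨r, hrC⟩
    have hlt : ((A ∪ C)ᶜ).card < n := by
      rw [hn, Finset.card_compl, Finset.card_compl, hcard]
      have h1 : (A ∪ C).card ≤ Fintype.card V := Finset.card_le_univ _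
      omega
    have hIH := ih _ hlt (A ∪ C) (by omega) rfl
    rw [c1, hcard] at hIH
    have hfin : 12 * C.card + 3 * M.fc C ≤ 2 * M.tc C := by
      rcases s2 with h1 | h1
      · omega
      · have h2 := nb_le_fc M C (h1 (by omega))
        omega
    omega

end Pool.Agent.Work.MP_5ce8c0_co.FH
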