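import Pool.Agent.Work.MP_5ce8c0_co.FH.Star

set_option autoImplicit false

/-!
# FH/LevelS (M): the Euler inequality for a set of at most three vertices

PROOF. `C = Aᶜ` is nonempty and connected (`hG.2 A`, hosted), `nb C = A` (every vertex has at least four neighbours in a 4-connected graph: otherwise delete the
neighbours; more than 4 vertices; so a vertex of `A` has a neighbour outside `A`, `|A| ≤ 3`). `tc C + t3 A = card D ≤ 6 |V| = 6 |C| + 6 |A|`, `fc C = f2 A`. By `star`: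
`6 |C| + 6 + 3 f2 ≤ tc + 12 ≤ 6 |C| + 6 |A| - t3 + 12`, so `t3 + 3 f2 ≤ 6 |A| + 6`. Second part (`|A| = 3`): if `6 |C| + 3 fc ≤ tc` then `t3 + 3 f2 ≤ 18`, so
`2 t3 + 3 f2 ≤ 36`. Otherwise every `a ∈ A` is the tail of a dart `x_a` counted by `f2 A` with `tail (ph x_a) ≠ a`, so `f2 ≥ 3`,
`t3 ≤ 24 - 9 = 15`; `3 ∣ t3` (`three_dvd`); if `t3 ≤ 12` then `2 t3 + 3 f2 ≤ 24 + 12`; if `t3 = 15` then `f2 = 3` and the darts counted by `f2 A` are exactly
the three `x_a`, so `tail x ≠ tail (ph x)` for all of them.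
`three_dvd`: `ph` permutes the set counted by `t3 A`, in cycles of length 3 (e.g. `Equiv.Perm` of order 3 without fixed points on a subtype; or
`Finset.card` of a set with a free action; `card_le_mul_ncyc`-like; `Equiv.Perm.card_fixedPoints_modEq` gives `card ≡ 0 (mod 3)` for `π ^ 3 = 1` without fixed points).
-/

namespace Pool.Agent.Work.MP_5ce8c0_co.FH

open Classical

variable {V D : Type} [Fintype V] [Fintype D]

theorem three_dvd (M : CMap V D) (hM : M.Tri) (A : Finset V) : 3 ∣ M.t3 A := by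
  obtain ⟨S, hS⟩ : ∃ S : Finset D, S = Finset.univ.filter fun x : D =>
    M.tail x ∈ A ∧ M.tail (M.ph x) ∈ A ∧ M.tail (M.ph (M.ph x)) ∈ A := ⟨_, rfl⟩
  have hmem : ∀ x, x ∈ S ↔ M.tail x ∈ A ∧ M.tail (M.ph x) ∈ A ∧ M.tail (M.ph (M.ph x)) ∈ A := by
    intro x
    rw [hS, Finset.mem_filter]
    exact ⟨fun h => h.2, fun h => ⟨Finset.mem_univ _, h⟩⟩
  have hinv : ∀ x, x ∈ S → M.ph x ∈ S := by
    intro x hx
    rw [hmem] at hx ⊢
    rw [hM.1 x]
    exact ⟨hx.2.1, hx.2.2, hx.1⟩
  obtain ⟨f, hf⟩ : ∃ f : Function.End {x // x ∈ S}, ∀ x, ((f x : {x // x ∈ S}) : D) = M.ph x :=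
    ⟨fun x => ⟨M.ph x, hinv _ x.2⟩, fun _ => rfl⟩
  have hf3 : f ^ 3 ^ 1 = 1 := by
    funext x
    apply Subtype.ext
    have h1 : (f ^ 3 ^ 1) x = f (f (f x)) := rfl
    rw [h1, hf, hf, hf, hM.1]
    rfl
  have : Fact (Nat.Prime 3) := ⟨Nat.prime_three⟩
  have h1 := Equiv.Perm.card_fixedPoints_modEq hf3
  have h2 : Fintype.card (Function.fixedPoints f) = 0 := by
    rw [Fintype.card_eq_zero_iff]
    refine ⟨?_⟩
    rintro ⟨x, hx⟩
    have h3 : f x = x := hx
    have h4 := congrArg Subtype.val h3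
    rw [hf] at h4
    exact hM.2 _ h4
  rw [h2, Fintype.card_coe] at h1
  have h3 : M.t3 A = S.card := by
    rw [hS]
    rfl
  rw [h3]
  exact (Nat.modEq_zero_iff_dvd).1 h1

private theorem ls_conn (G : SimpleGraph V) (M : CMap V D) (hH : M.Hosts G) (A : Finset V)
    (h : (G.induce ((↑A : Set V)ᶜ)).Connected) : M.Conn Aᶜ := by
  intro u hu v hv
  have hu' : u ∈ ((↑A : Set V)ᶜ) := by
    rw [Finset.mem_compl] at hu
    exact fun e => hu (Finset.mem_coe.1 e)
  have hv' : v ∈ ((↑A : Set V)ᶜ) := by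
    rw [Finset.mem_compl] at hv
    exact fun e => hv (Finset.mem_coe.1 e)
  have h1 := (SimpleGraph.reachable_iff_reflTransGen _ _).1 (h.preconnected ⟨u, hu'⟩ ⟨v, hv'⟩)
  have h3 : (G.induce ((↑A : Set V)ᶜ)).Adj ≤
      Function.onFun (M.Step Aᶜ) (fun x : ((↑A : Set V)ᶜ : Set V) => (x : V)) := by
    rintro ⟨a, ha⟩ ⟨b, hb⟩ hab
    refine ⟨?_, ?_, ?_⟩
    · rw [Finset.mem_compl]
      exact fun e => ha (Finset.mem_coe.2 e)
    · rw [Finset.mem_compl]
      exact fun e => hb (Finset.mem_coe.2 e)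
    · exact hH a b hab
  exact Relation.ReflTransGen.lift (fun x : ((↑A : Set V)ᶜ : Set V) => (x : V)) h3 _ _ h1

private theorem ls_nb (G : SimpleGraph V) (hG : FourConn G) (M : CMap V D) (hH : M.Hosts G)
    (A : Finset V) (hA : A.card ≤ 3) : M.nb Aᶜ = A := by
  ext a
  have hmem : a ∈ M.nb Aᶜ ↔ a ∈ A ∧ ∃ x, M.tail x = a ∧ M.tail (M.ph x) ∈ Aᶜ := by
    unfold CMap.nb
    simp only [Finset.mem_filter, Finset.mem_univ, true_and, Finset.mem_compl, not_not]
  rw [hmem]
  constructor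
  · exact fun h => h.1
  · intro ha
    refine ⟨ha, ?_⟩
    -- delete the other elements of `A`
    have hAc : Aᶜ.Nonempty := by
      rw [← Finset.card_pos, Finset.card_compl]
      have := hG.1
      omega
    obtain ⟨c, hc⟩ := hAc
    rw [Finset.mem_compl] at hc
    have hcard : (A.erase a).card < 4 := by
      have := Finset.card_erase_le (s := A) (a := a)
      omega
    have hconn := hG.2 (A.erase a) hcard
    have ha' : a ∈ ((↑(A.erase a) : Set V)ᶜ) := by
      intro e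
      exact Finset.notMem_erase a A (Finset.mem_coe.1 e)
    have hc' : c ∈ ((↑(A.erase a) : Set V)ᶜ) := by
      intro e
      exact hc (Finset.mem_of_mem_erase (Finset.mem_coe.1 e))
    have h1 := (SimpleGraph.reachable_iff_reflTransGen _ _).1
      (hconn.preconnected ⟨a, ha'⟩ ⟨c, hc'⟩)
    rcases h1.cases_head with h2 | ⟨b, h2, -⟩
    · exfalso
      have h3 := congrArg Subtype.val h2
      dsimp only at h3
      rw [← h3] at hc
      exact hc ha
    · have h3 : G.Adj a (b : V) := h2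
      obtain ⟨x, hx1, hx2⟩ := hH a b h3
      refine ⟨x, hx1, ?_⟩
      rw [hx2, Finset.mem_compl]
      intro h4
      apply b.2
      rw [Finset.mem_coe, Finset.mem_erase]
      exact ⟨fun e => h3.ne e.symm, h4⟩

private theorem ls_tc (M : CMap V D) (A : Finset V) : M.tc Aᶜ + M.t3 A = Fintype.card D := by
  unfold CMap.tc CMap.t3
  rw [← Finset.card_univ, ← Finset.card_filter_add_card_filter_not (s := Finset.univ)
    (fun x : D => M.tail x ∈ Aᶜ ∨ M.tail (M.ph x) ∈ Aᶜ ∨ M.tail (M.ph (M.ph x)) ∈ Aᶜ)]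
  congr 2
  ext x
  simp only [Finset.mem_filter, Finset.mem_univ, true_and, Finset.mem_compl, not_or, not_not]

private theorem ls_fc (M : CMap V D) (A : Finset V) : M.fc Aᶜ = M.f2 A := by
  unfold CMap.fc CMap.f2
  congr 1
  ext x
  simp only [Finset.mem_filter, Finset.mem_univ, true_and, Finset.mem_compl, not_not]

theorem level_small (G : SimpleGraph V) (hG : FourConn G) (M : CMap V D) (hM : M.Tri) (hH : M.Hosts G)
    (hE : Fintype.card D ≤ 6 * Fintype.card V) (A : Finset V) (h1 : A.Nonempty) (hA : A.card ≤ 3) :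
    M.t3 A + 3 * M.f2 A ≤ 6 * A.card + 6 := by
  have hnb := ls_nb G hG M hH A hA
  have hconn := ls_conn G M hH A (hG.2 A (by omega))
  have hs := (star M hM Aᶜ hconn (by rw [hnb]; exact h1)).1
  have htc := ls_tc M A
  have hfc := ls_fc M A
  have hc := Finset.card_compl_add_card A
  omega

theorem level_three (G : SimpleGraph V) (hG : FourConn G) (M : CMap V D) (hM : M.Tri) (hH : M.Hosts G)
    (hE : Fintype.card D ≤ 6 * Fintype.card V) (A : Finset V) (hA : A.card = 3) :
    2 * M.t3 A + 3 * M.f2 A ≤ 36 ∨ (M.t3 A = 15 ∧ M.f2 A = 3 ∧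
      ∀ x, M.tail x ∈ A → M.tail (M.ph x) ∈ A → M.tail (M.ph (M.ph x)) ∉ A → M.tail x ≠ M.tail (M.ph x)) := by
  have hne : A.Nonempty := by
    rw [← Finset.card_pos]
    omega
  have hnb := ls_nb G hG M hH A (by omega)
  have hconn := ls_conn G M hH A (hG.2 A (by omega))
  obtain ⟨hs1, hs2⟩ := star M hM Aᶜ hconn (by rw [hnb]; exact hne)
  have htc := ls_tc M A
  have hfc := ls_fc M A
  have hc := Finset.card_compl_add_card A
  rcases hs2 with hs2 | hs2
  · left
    omega
  · have h1 := hs2 (by rw [hnb]; omega)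
    have h2 := nb_le_fc M Aᶜ h1
    rw [hnb] at h1 h2
    rw [hfc] at h2
    obtain ⟨t, ht⟩ := three_dvd M hM A
    by_cases h3 : M.t3 A ≤ 12
    · left
      omega
    right
    have h4 : M.t3 A = 15 ∧ M.f2 A = 3 := by omega
    refine ⟨h4.1, h4.2, ?_⟩
    obtain ⟨F, hF⟩ : ∃ F : Finset D, F = Finset.univ.filter fun x : D =>
      M.tail x ∈ A ∧ M.tail (M.ph x) ∈ A ∧ M.tail (M.ph (M.ph x)) ∉ A := ⟨_, rfl⟩
    have hFc : F.card = 3 := by
      rw [← h4.2, hF]
      rfl
    have hF' : F.filter (fun x => M.tail x ≠ M.tail (M.ph x)) = F := by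
      apply Finset.eq_of_subset_of_card_le (Finset.filter_subset _ _)
      rw [hFc, ← hA]
      have h5 : A ⊆ (F.filter (fun x => M.tail x ≠ M.tail (M.ph x))).image M.tail := by
        intro a ha
        obtain ⟨x, hx1, hx2, hx3, hx4⟩ := h1 a ha
        rw [Finset.mem_compl, not_not] at hx2
        rw [Finset.mem_compl] at hx4
        refine Finset.mem_image.2 ⟨x, ?_, hx1⟩
        rw [Finset.mem_filter, hF, Finset.mem_filter]
        refine ⟨⟨Finset.mem_univ _, by rw [hx1]; exact ha, hx2, hx4⟩, ?_⟩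
        rw [hx1]
        exact hx3.symm
      exact (Finset.card_le_card h5).trans Finset.card_image_le
    intro x hx1 hx2 hx3
    have h5 : x ∈ F := by
      rw [hF, Finset.mem_filter]
      exact ⟨Finset.mem_univ _, hx1, hx2, hx3⟩
    rw [← hF', Finset.mem_filter] at h5
    exact h5.2

end Pool.Agent.Work.MP_5ce8c0_co.FH
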