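import Pool.Agent.Work.MP_5ce8c0_co.FH.Defs

set_option autoImplicit false

/-!
# FH/Perm (S-M): cycles of permutations

`le_ncyc`: `c` factors through the quotient (the same theorem is `le_ncyc_of_surj` in Pool/Agent/Work/MP_85d607_co/Cyc.lean, copy
that proof). `card_le_mul_ncyc`: the fibres of `D → Quotient` have at most `k` elements: the class of `x` is
`{x, π x, ..., π ^ (k-1) x}` (the exponent only matters modulo `k`); `Finset.card_le_mul_card_image` or
`Fintype.card_le_mul_card...`. `exists_exit`: if `P` were preserved by `π` along the cycle of `x` then `P y`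
(the same proof as `cross` in MP_85d607_co/Euler.lean). `exists_exit2`: apply it to `fun z => t z = t x`.
-/

namespace Pool.Agent.Work.MP_5ce8c0_co.FH

open Classical

theorem le_ncyc {D Q : Type} [Finite D] [Finite Q] (π : Equiv.Perm D) (c : D → Q)
    (hc : ∀ d, c (π d) = c d) (hs : Function.Surjective c) : Nat.card Q ≤ ncyc π := by
  have hpow : ∀ (n : ℕ) (d : D), c ((π ^ n) d) = c d := by
    intro n
    induction n with
    | zero => intro d; simp
    | succ n ih => intro d; rw [pow_succ, Equiv.Perm.mul_apply, ih, hc]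
  let f : Quotient (Equiv.Perm.SameCycle.setoid π) → Q := Quotient.lift c (by
    intro x y (h : π.SameCycle x y)
    obtain ⟨n, hn⟩ := h.exists_nat_pow_eq
    rw [← hn, hpow])
  have hf : Function.Surjective f := by
    intro q
    obtain ⟨d, hd⟩ := hs q
    exact ⟨Quotient.mk _ d, hd⟩
  exact Nat.card_le_card_of_surjective f hf

theorem card_le_mul_ncyc {D : Type} [Fintype D] (π : Equiv.Perm D) (k : ℕ) (hk : 0 < k)
    (h : ∀ x, (π ^ k) x = x) : Fintype.card D ≤ k * ncyc π := by
  have : Fintype (Quotient (Equiv.Perm.SameCycle.setoid π)) := Fintype.ofFinite _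
  let f : D → Quotient (Equiv.Perm.SameCycle.setoid π) := fun x => Quotient.mk _ x
  have hpi : π ^ k = 1 := Equiv.ext h
  have h1 : (Finset.univ : Finset D).card ≤ k * ((Finset.univ : Finset D).image f).card := by
    refine Finset.card_le_mul_card_image _ k fun q hq => ?_
    obtain ⟨x, -, rfl⟩ := Finset.mem_image.1 hq
    have hsub : (Finset.univ.filter fun y : D => f y = f x) ⊆
        (Finset.range k).image fun n => (π ^ n) x := by
      intro y hy
      have hy1 : f y = f x := (Finset.mem_filter.1 hy).2
      have hy2 : π.SameCycle y x := Quotient.exact hy1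
      obtain ⟨n, hn⟩ := hy2.symm.exists_nat_pow_eq
      refine Finset.mem_image.2 ⟨n % k, Finset.mem_range.2 (Nat.mod_lt _ hk), ?_⟩
      rw [← hn]
      conv_rhs => rw [← Nat.div_add_mod n k, pow_add, pow_mul, hpi, one_pow, one_mul]
    refine (Finset.card_le_card hsub).trans (Finset.card_image_le.trans ?_)
    rw [Finset.card_range]
  have h2 : ((Finset.univ : Finset D).image f).card ≤ ncyc π := by
    unfold ncyc
    rw [Nat.card_eq_fintype_card]
    exact Finset.card_le_univ _
  rw [Finset.card_univ] at h1
  exact h1.trans (Nat.mul_le_mul_left _ h2)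

theorem exists_exit {D : Type} [Finite D] (π : Equiv.Perm D) (P : D → Prop) {x y : D} (h : π.SameCycle x y)
    (hx : P x) (hy : ¬ P y) : ∃ z, π.SameCycle x z ∧ P z ∧ ¬ P (π z) := by
  by_contra hne
  push Not at hne
  have key : ∀ n : ℕ, P ((π ^ n) x) := by
    intro n
    induction n with
    | zero => simpa using hx
    | succ n ih =>
      have := hne ((π ^ n) x) ⟨(n : ℤ), by simp⟩ ih
      rw [pow_succ', Equiv.Perm.mul_apply]
      exact this
  obtain ⟨n, hn⟩ := h.exists_nat_pow_eq
  exact hy (hn ▸ key n)

theorem exists_exit2 {D V : Type} [Finite D] (π : Equiv.Perm D) (t : D → V) {x y : D} (h : π.SameCycle x y)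
    (hxy : t x ≠ t y) : ∃ z, π.SameCycle x z ∧ t z = t x ∧ t (π z) ≠ t x :=
  exists_exit π (fun z => t z = t x) h rfl fun e => hxy e.symm

/-- a function invariant under `π` is constant on cycles -/
theorem eq_of_sameCycle {D Q : Type} [Finite D] (π : Equiv.Perm D) (c : D → Q) (hc : ∀ d, c (π d) = c d)
    {x y : D} (h : π.SameCycle x y) : c x = c y := by
  by_contra hne
  obtain ⟨z, -, hz1, hz2⟩ := exists_exit2 π c h hne
  exact hz2 ((hc z).trans hz1)

end Pool.Agent.Work.MP_5ce8c0_co.FH
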