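import Pool.Agent.Work.MP_5ce8c0_co.FH.StarP

set_option autoImplicit false

/-!
# FH/StarS (M): the vertices of the contracted map

`σC = φC * αC`. For `x` in `DC` with `tail x ∈ C`: `φC (αC x) = ph (al x)` (its tail is `tail x ∈ C`), `tail` is preserved (`tail (ph (al x)) =
tail (al (al x)) = tail x`). For `tail x ∉ C`: `tail (σC x) ∉ C` (if `ph (al x)` has no end in `C` then the tail of `ph (ph (al x))`
is its end). `tail_sigC`: these two facts.
`star_i`: `le_ncyc` with `c : DC → Option V'`, `V' = {v // v ∈ C}`: `some (tail x)` if `tail x ∈ C`, `none` otherwise;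
surjective by `M.surj` and `hout`.
`star_ii`: if two darts `y, y'` of `DC` with tails outside `C` are in different cycles of `σC`, then `le_ncyc` with
`c : DC → Option (Option V')`, which also records whether the dart is in the cycle of `y`. Otherwise let `2 ≤ (nb C).card` and `a ∈ nb C`: there
are darts `y, y'` of `DC` with tail `a` and with tail `a' ≠ a`, `a' ∉ C`; `exists_exit2` gives `z` with `tail z = a`,
`tail (σC z) ≠ a`. So `x = ph (al z)` is not in `DC` (its tail is `a`), and `σC z = ph x`: `tail (ph x) ∉ C`, `≠ a`, and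
`ph (ph x) = al z` has tail `tail (ph z) ∈ C` since `z` is in `DC` and `a ∉ C`.
`const_of_inv`: `f` invariant under `φC` and `αC` is constant: on the darts with a given tail in `C` by `M.vert` (`σC` is `ph * al` there, induction along the cycle,
`eq_of_sameCycle`-like), along a dart `x` with both ends in `C` by `αC`, so by `Conn` on all darts with tail in `C`; a dart with tail outside `C` is `αC`
of a dart with tail in `C`.
-/

namespace Pool.Agent.Work.MP_5ce8c0_co.FH

open Classical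

variable {V D : Type} [Fintype V] [Fintype D]

omit [Fintype D] in
private theorem ss_nb (M : CMap V D) (C : Finset V) (a : V) :
    a ∈ M.nb C ↔ a ∉ C ∧ ∃ x, M.tail x = a ∧ M.tail (M.ph x) ∈ C := by
  unfold CMap.nb
  rw [Finset.mem_filter]
  exact ⟨fun h => h.2, fun h => ⟨Finset.mem_univ _, h⟩⟩

omit [Fintype V] [Fintype D] in
private theorem ss_tail (M : CMap V D) (x : D) : M.tail (M.ph (M.al x)) = M.tail x := by
  rw [M.tail_ph, M.al_al]

omit [Fintype V] [Fintype D] in
private theorem ss_sig (M : CMap V D) (C : Finset V) (αC φC : Equiv.Perm (M.DC C))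
    (hα : ∀ x, (αC x).1 = M.al x.1)
    (hφ : ∀ x, (φC x).1 =
      if M.tail (M.ph x.1) ∈ C ∨ M.tail (M.ph (M.ph x.1)) ∈ C then M.ph x.1 else M.ph (M.ph x.1))
    (x : M.DC C) : (M.tail x.1 ∈ C → ((φC * αC) x).1 = M.ph (M.al x.1) ∧
      M.tail ((φC * αC) x).1 = M.tail x.1) ∧
    (M.tail x.1 ∉ C → M.tail ((φC * αC) x).1 ∉ C ∧ (M.tail ((φC * αC) x).1 = M.tail x.1 ∨
      (((φC * αC) x).1 = M.ph (M.ph (M.al x.1)) ∧ M.tail (M.ph (M.ph (M.al x.1))) ∉ C))) := by
  have h1 : ((φC * αC) x).1 = if M.tail x.1 ∈ C ∨ M.tail (M.ph (M.ph (M.al x.1))) ∈ C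
      then M.ph (M.al x.1) else M.ph (M.ph (M.al x.1)) := by
    rw [Equiv.Perm.mul_apply, hφ, hα, ss_tail]
  constructor
  · intro hx
    rw [if_pos (Or.inl hx)] at h1
    rw [h1, ss_tail]
    exact ⟨rfl, rfl⟩
  · intro hx
    by_cases h2 : M.tail (M.ph (M.ph (M.al x.1))) ∈ C
    · rw [if_pos (Or.inr h2)] at h1
      rw [h1, ss_tail]
      exact ⟨hx, Or.inl rfl⟩
    · rw [if_neg (by tauto)] at h1
      rw [h1]
      exact ⟨h2, Or.inr ⟨rfl, h2⟩⟩

theorem star_i (M : CMap V D) (hM : M.Tri) (C : Finset V) (αC φC : Equiv.Perm (M.DC C))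
    (hα : ∀ x, (αC x).1 = M.al x.1)
    (hφ : ∀ x, (φC x).1 =
      if M.tail (M.ph x.1) ∈ C ∨ M.tail (M.ph (M.ph x.1)) ∈ C then M.ph x.1 else M.ph (M.ph x.1))
    (hout : (M.nb C).Nonempty) : C.card + 1 ≤ ncyc (φC * αC) := by
  have hs := ss_sig M C αC φC hα hφ
  have h1 := le_ncyc (φC * αC)
    (fun x : M.DC C => if h : M.tail x.1 ∈ C then some (⟨M.tail x.1, h⟩ : {v // v ∈ C}) else none)
    (by
      intro x
      by_cases hx : M.tail x.1 ∈ C
      · have h2 := ((hs x).1 hx).2
        have h3 : M.tail ((φC * αC) x).1 ∈ C := by rw [h2]; exact hx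
        rw [dif_pos hx, dif_pos h3, Option.some_inj]
        exact Subtype.ext h2
      · rw [dif_neg hx, dif_neg ((hs x).2 hx).1])
    (by
      intro o
      rcases o with _ | ⟨v, hv⟩
      · obtain ⟨a, ha⟩ := hout
        obtain ⟨h2, x, h3, h4⟩ := (ss_nb M C a).1 ha
        refine ⟨⟨x, Or.inr h4⟩, ?_⟩
        rw [← h3] at h2
        exact dif_neg h2
      · obtain ⟨x, hx⟩ := M.surj v
        have h2 : M.tail x ∈ C := by rw [hx]; exact hv
        refine ⟨⟨x, Or.inl h2⟩, ?_⟩
        show (if h : M.tail x ∈ C then some (⟨M.tail x, h⟩ : {v // v ∈ C}) else none) = _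
        rw [dif_pos h2, Option.some_inj]
        exact Subtype.ext hx)
  rw [Nat.card_eq_fintype_card, Fintype.card_option, Fintype.card_coe] at h1
  exact h1

theorem star_ii (M : CMap V D) (hM : M.Tri) (C : Finset V) (αC φC : Equiv.Perm (M.DC C))
    (hα : ∀ x, (αC x).1 = M.al x.1)
    (hφ : ∀ x, (φC x).1 =
      if M.tail (M.ph x.1) ∈ C ∨ M.tail (M.ph (M.ph x.1)) ∈ C then M.ph x.1 else M.ph (M.ph x.1)) :
    C.card + 2 ≤ ncyc (φC * αC) ∨ (2 ≤ (M.nb C).card → ∀ a ∈ M.nb C, ∃ x, M.tail x = a ∧ M.tail (M.ph x) ∉ C ∧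
      M.tail (M.ph x) ≠ a ∧ M.tail (M.ph (M.ph x)) ∈ C) := by
  have hs := ss_sig M C αC φC hα hφ
  by_cases hy : ∃ y y' : M.DC C, M.tail y.1 ∉ C ∧ M.tail y'.1 ∉ C ∧ ¬ (φC * αC).SameCycle y y'
  · left
    obtain ⟨y, y', hyC, hyC', hyy⟩ := hy
    have h1 := le_ncyc (φC * αC)
      (fun x : M.DC C => if h : M.tail x.1 ∈ C then some (some (⟨M.tail x.1, h⟩ : {v // v ∈ C}))
        else if (φC * αC).SameCycle y x then some none else none)
      (by
        intro x
        by_cases hx : M.tail x.1 ∈ C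
        · have h2 := ((hs x).1 hx).2
          have h3 : M.tail ((φC * αC) x).1 ∈ C := by rw [h2]; exact hx
          rw [dif_pos hx, dif_pos h3, Option.some_inj, Option.some_inj]
          exact Subtype.ext h2
        · rw [dif_neg hx, dif_neg ((hs x).2 hx).1]
          have h4 : (φC * αC).SameCycle y ((φC * αC) x) ↔ (φC * αC).SameCycle y x :=
            Equiv.Perm.sameCycle_apply_right
          by_cases h5 : (φC * αC).SameCycle y x
          · rw [if_pos h5, if_pos (h4.2 h5)]
          · rw [if_neg h5, if_neg (fun h6 => h5 (h4.1 h6))])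
      (by
        intro o
        rcases o with _ | _ | ⟨v, hv⟩
        · refine ⟨y', ?_⟩
          simp only
          rw [dif_neg hyC', if_neg hyy]
        · refine ⟨y, ?_⟩
          simp only
          rw [dif_neg hyC, if_pos (Equiv.Perm.SameCycle.refl _ _)]
        · obtain ⟨x, hx⟩ := M.surj v
          have h2 : M.tail x ∈ C := by rw [hx]; exact hv
          refine ⟨⟨x, Or.inl h2⟩, ?_⟩
          simp only
          rw [dif_pos h2, Option.some_inj, Option.some_inj]
          exact Subtype.ext hx)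
    rw [Nat.card_eq_fintype_card, Fintype.card_option, Fintype.card_option, Fintype.card_coe] at h1
    exact h1
  · right
    intro h2 a ha
    obtain ⟨a', ha', haa⟩ := Finset.exists_mem_ne (show 1 < (M.nb C).card by omega) a
    obtain ⟨haC, y, hy1, hy2⟩ := (ss_nb M C a).1 ha
    obtain ⟨haC', y', hy1', hy2'⟩ := (ss_nb M C a').1 ha'
    have hsc : (φC * αC).SameCycle (⟨y, Or.inr hy2⟩ : M.DC C) ⟨y', Or.inr hy2'⟩ := by
      by_contra hcon
      exact hy ⟨⟨y, Or.inr hy2⟩, ⟨y', Or.inr hy2'⟩, by rw [hy1]; exact haC,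
        by rw [hy1']; exact haC', hcon⟩
    obtain ⟨z, -, hz1, hz2⟩ := exists_exit2 (φC * αC) (fun x : M.DC C => M.tail x.1) hsc (by
      show M.tail y ≠ M.tail y'
      rw [hy1, hy1']
      exact haa.symm)
    change M.tail z.1 = M.tail y at hz1
    change M.tail ((φC * αC) z).1 ≠ M.tail y at hz2
    rw [hy1] at hz1 hz2
    have hzC : M.tail z.1 ∉ C := by rw [hz1]; exact haC
    obtain ⟨h5, h6⟩ := (hs z).2 hzC
    rcases h6 with h6 | ⟨h6, h7⟩
    · exact absurd (h6.trans hz1) hz2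
    · refine ⟨M.ph (M.al z.1), ?_, h7, ?_, ?_⟩
      · rw [ss_tail, hz1]
      · rw [← h6]
        exact hz2
      · rw [hM.1, ← M.tail_ph]
        exact z.2.resolve_left hzC

theorem const_of_inv (M : CMap V D) (hM : M.Tri) (C : Finset V) (hC : M.Conn C) (αC φC : Equiv.Perm (M.DC C))
    (hα : ∀ x, (αC x).1 = M.al x.1)
    (hφ : ∀ x, (φC x).1 =
      if M.tail (M.ph x.1) ∈ C ∨ M.tail (M.ph (M.ph x.1)) ∈ C then M.ph x.1 else M.ph (M.ph x.1))
    (f : M.DC C → ℚ) (h1 : ∀ x, f (φC x) = f x) (h2 : ∀ x, f (αC x) = f x) (x y : M.DC C) : f x = f y := by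
  have hs := ss_sig M C αC φC hα hφ
  have hσ : ∀ x, f ((φC * αC) x) = f x := by
    intro x
    rw [Equiv.Perm.mul_apply, h1, h2]
  -- darts with the same tail in `C`
  have c1 : ∀ x y : M.DC C, M.tail x.1 ∈ C → M.tail x.1 = M.tail y.1 → f x = f y := by
    intro x y hx hxy
    have h3 := eq_of_sameCycle (M.ph * M.al)
      (fun d => if h : M.tail d ∈ C then f ⟨d, Or.inl h⟩ else 0) (by
        intro d
        have ht : M.tail ((M.ph * M.al) d) = M.tail d := by
          rw [Equiv.Perm.mul_apply, ss_tail]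
        by_cases hd : M.tail d ∈ C
        · have hd' : M.tail ((M.ph * M.al) d) ∈ C := by rw [ht]; exact hd
          rw [dif_pos hd, dif_pos hd', ← hσ ⟨d, Or.inl hd⟩]
          congr 1
          exact Subtype.ext ((hs ⟨d, Or.inl hd⟩).1 hd).1.symm
        · rw [dif_neg hd, dif_neg (by rw [ht]; exact hd)]) (M.vert x.1 y.1 hxy)
    have hy : M.tail y.1 ∈ C := by rw [← hxy]; exact hx
    rw [dif_pos hx, dif_pos hy] at h3
    exact h3
  have c2 : ∀ u v, u ∈ C → Relation.ReflTransGen (M.Step C) u v →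
      ∀ x y : M.DC C, M.tail x.1 = u → M.tail y.1 = v → f x = f y := by
    intro u v hu huv
    induction huv with
    | refl =>
      intro x y hx hy
      exact c1 x y (by rw [hx]; exact hu) (hx.trans hy.symm)
    | tail _ hbc ih =>
      intro x y hx hy
      obtain ⟨hb, hc, z, hz1, hz2⟩ := hbc
      have hzC : M.tail z ∈ C := by rw [hz1]; exact hb
      have e1 := ih x ⟨z, Or.inl hzC⟩ hx hz1
      have e2 : M.tail (αC ⟨z, Or.inl hzC⟩).1 = M.tail y.1 := by
        rw [hα, ← M.tail_ph, hz2, hy]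
      rw [e1, ← h2 ⟨z, Or.inl hzC⟩]
      refine c1 _ _ ?_ e2
      rw [e2, hy]
      exact hc
  -- the general case
  have c3 : ∀ x : M.DC C, ∃ x' : M.DC C, M.tail x'.1 ∈ C ∧ f x' = f x := by
    intro x
    by_cases hx : M.tail x.1 ∈ C
    · exact ⟨x, hx, rfl⟩
    · refine ⟨αC x, ?_, h2 x⟩
      rw [hα, ← M.tail_ph]
      exact x.2.resolve_left hx
  obtain ⟨x', hx', ex⟩ := c3 x
  obtain ⟨y', hy', ey⟩ := c3 y
  rw [← ex, ← ey]
  exact c2 _ _ hx' (hC _ hx' _ hy') x' y' rfl rfl

end Pool.Agent.Work.MP_5ce8c0_co.FH
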