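import Pool.Agent.Work.MP_5ce8c0_co.FH.Genus
import Pool.Agent.Work.MP_5ce8c0_co.FH.StarS

set_option autoImplicit false

/-!
# FH/Star (S-M): the Euler inequality for a connected set

PROOF. `genus φC αC` (with `const_of_inv`): `ncyc φC + ncyc αC + ncyc (φC * αC) ≤ card DC + 2`. With `card DC ≤ 2 ncyc αC`, `tc C ≤ 3 ncyc φC`,
`card DC + fc C ≤ tc C` and `C.card + k ≤ ncyc (φC * αC)` (`k = 1` or `2`): linear arithmetic
(`6 (|C| + k) + 2 tc + 3 card DC ≤ 6 card DC + 12`, `3 card DC ≤ 3 tc - 3 fc`).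
-/

namespace Pool.Agent.Work.MP_5ce8c0_co.FH

open Classical

variable {V D : Type} [Fintype V] [Fintype D]

theorem star (M : CMap V D) (hM : M.Tri) (C : Finset V) (hC : M.Conn C) (hout : (M.nb C).Nonempty) :
    6 * C.card + 6 + 3 * M.fc C ≤ M.tc C + 12 ∧
    (6 * C.card + 3 * M.fc C ≤ M.tc C ∨ (2 ≤ (M.nb C).card → ∀ a ∈ M.nb C, ∃ x, M.tail x = a ∧
      M.tail (M.ph x) ∉ C ∧ M.tail (M.ph x) ≠ a ∧ M.tail (M.ph (M.ph x)) ∈ C)) := by
  obtain ⟨αC, hα⟩ := exists_alC M C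
  obtain ⟨φC, hφ⟩ := exists_phC M hM C
  have hg := genus φC αC (fun f h1 h2 x y => const_of_inv M hM C hC αC φC hα hφ f h1 h2 x y)
  have h1 := card_DC_le M C αC hα
  have h2 := tc_le M hM C φC hφ
  have h3 := card_DC M hM C
  have h4 := star_i M hM C αC φC hα hφ hout
  refine ⟨by omega, ?_⟩
  rcases star_ii M hM C αC φC hα hφ with h5 | h5
  · left
    omega
  · right
    exact h5

/-- so there are many faces with exactly one corner in `C` -/
theorem nb_le_fc (M : CMap V D) (C : Finset V)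
    (h : ∀ a ∈ M.nb C, ∃ x, M.tail x = a ∧ M.tail (M.ph x) ∉ C ∧ M.tail (M.ph x) ≠ a ∧
      M.tail (M.ph (M.ph x)) ∈ C) : (M.nb C).card ≤ M.fc C := by
  rcases (M.nb C).eq_empty_or_nonempty with h0 | ⟨a0, ha0⟩
  · rw [h0, Finset.card_empty]
    exact Nat.zero_le _
  obtain ⟨x0, _⟩ := h a0 ha0
  have : Nonempty D := ⟨x0⟩
  choose! g hg using h
  unfold CMap.fc
  refine Finset.card_le_card_of_injOn g ?_ ?_
  · intro a ha
    obtain ⟨h1, h2, _, h4⟩ := hg a ha
    have ha' : a ∉ C := by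
      have ha2 : a ∈ M.nb C := ha
      unfold CMap.nb at ha2
      simp only [Finset.mem_filter] at ha2
      exact ha2.2.1
    simp only [Finset.coe_filter, Finset.mem_univ, true_and, Set.mem_setOf_eq]
    exact ⟨by rw [h1]; exact ha', h2, h4⟩
  · intro a ha b hb hab
    rw [← (hg a ha).1, ← (hg b hb).1, hab]

end Pool.Agent.Work.MP_5ce8c0_co.FH
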