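import Pool.Agent.Work.MP_5ce8c0_co.FH.Perm

set_option autoImplicit false

/-!
# FH/StarP (M): the map obtained by contracting everything outside the set `C`

`M` is a triangulated map, `M.DC C` the type of the darts with an end in `C` (it is finite: `Subtype`; unfold `CMap.DC`).
`exists_alC`: `tail (ph (al x)) = tail (al (al x)) = tail x`.
`exists_phC`: if `x` has an end in `C` and `ph x` has no end in `C` then `tail x ∈ C` and `ph (ph x)` (which ends in `tail x`) has an end in `C`. The map
is injective (so bijective): if `ph x = ph (ph y)` with `ph y` without an end in `C`, then `x = ph y`, contradiction.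
`card_DC`: `DC` and the set counted by `fc C` are disjoint subsets of the set counted by `tc C`.
`card_DC_le`: `αC` is an involution, `card_le_mul_ncyc` with `k = 2`.
`tc_le`: let `Dt = {x // the face of x has a corner in C}`; `ph` acts on it (permutation `π`, `Equiv.Perm.subtypePerm`),
`π ^ 3 = 1`, so `tc C = card Dt ≤ 3 * ncyc π` (`card_le_mul_ncyc`), and `ncyc π ≤ ncyc φC` by `le_ncyc` with
`c : DC → Quotient (SameCycle.setoid π)`, `c x` the class of `x`: `c (φC x) = c x` as `φC x` is `ph x` or `ph (ph x)`; surjective: every face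
with a corner in `C` has a dart with an end in `C`.
-/

namespace Pool.Agent.Work.MP_5ce8c0_co.FH

open Classical

variable {V D : Type} [Fintype V] [Fintype D]

noncomputable instance instFintypeDC (M : CMap V D) (C : Finset V) : Fintype (M.DC C) := by
  unfold CMap.DC
  infer_instance

private def mkDC (M : CMap V D) (C : Finset V) (x : D) (h : M.tail x ∈ C ∨ M.tail (M.ph x) ∈ C) :
    M.DC C := Subtype.mk x h

omit [Fintype V] [Fintype D] in
private theorem DC_ext {M : CMap V D} {C : Finset V} {x y : M.DC C} (h : x.1 = y.1) : x = y :=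
  Subtype.ext h

private theorem starP_card (M : CMap V D) (C : Finset V) : Fintype.card (M.DC C) =
    (Finset.univ.filter fun x : D => M.tail x ∈ C ∨ M.tail (M.ph x) ∈ C).card := by
  rw [← Fintype.card_coe]
  refine Fintype.card_congr (Equiv.subtypeEquivRight fun x => ?_)
  simp

theorem exists_alC (M : CMap V D) (C : Finset V) :
    ∃ αC : Equiv.Perm (M.DC C), ∀ x, (αC x).1 = M.al x.1 := by
  have hmem : ∀ x : M.DC C, M.tail (M.al x.1) ∈ C ∨ M.tail (M.ph (M.al x.1)) ∈ C := by
    intro x
    rw [M.tail_ph, M.al_al, ← M.tail_ph]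
    exact Or.symm x.2
  refine ⟨Function.Involutive.toPerm (fun x => mkDC M C (M.al x.1) (hmem x)) ?_, fun x => rfl⟩
  intro x
  apply DC_ext
  exact M.al_al x.1

theorem exists_phC (M : CMap V D) (hM : M.Tri) (C : Finset V) :
    ∃ φC : Equiv.Perm (M.DC C), ∀ x, (φC x).1 =
      if M.tail (M.ph x.1) ∈ C ∨ M.tail (M.ph (M.ph x.1)) ∈ C then M.ph x.1 else M.ph (M.ph x.1) := by
  have hmem : ∀ x : M.DC C, ¬ (M.tail (M.ph x.1) ∈ C ∨ M.tail (M.ph (M.ph x.1)) ∈ C) →
      M.tail (M.ph (M.ph x.1)) ∈ C ∨ M.tail (M.ph (M.ph (M.ph x.1))) ∈ C := by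
    intro x h
    right
    rw [hM.1]
    rcases x.2 with h1 | h1
    · exact h1
    · exact absurd (Or.inl h1) h
  let f : M.DC C → M.DC C := fun x =>
    if h : M.tail (M.ph x.1) ∈ C ∨ M.tail (M.ph (M.ph x.1)) ∈ C then mkDC M C (M.ph x.1) h
    else mkDC M C (M.ph (M.ph x.1)) (hmem x h)
  have hf1 : ∀ x : M.DC C, (f x).1 =
      if M.tail (M.ph x.1) ∈ C ∨ M.tail (M.ph (M.ph x.1)) ∈ C then M.ph x.1
      else M.ph (M.ph x.1) := by
    intro x
    by_cases h : M.tail (M.ph x.1) ∈ C ∨ M.tail (M.ph (M.ph x.1)) ∈ C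
    · simp only [f, dif_pos h, if_pos h]
      rfl
    · simp only [f, dif_neg h, if_neg h]
      rfl
  have hinj : Function.Injective f := by
    intro x y hxy
    have h1 : (f x).1 = (f y).1 := by rw [hxy]
    rw [hf1, hf1] at h1
    apply DC_ext
    by_cases hx : M.tail (M.ph x.1) ∈ C ∨ M.tail (M.ph (M.ph x.1)) ∈ C
    · by_cases hy : M.tail (M.ph y.1) ∈ C ∨ M.tail (M.ph (M.ph y.1)) ∈ C
      · rw [if_pos hx, if_pos hy] at h1
        exact M.ph.injective h1
      · rw [if_pos hx, if_neg hy] at h1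
        have h2 := M.ph.injective h1
        have h3 := x.2
        rw [h2] at h3
        exact absurd h3 hy
    · by_cases hy : M.tail (M.ph y.1) ∈ C ∨ M.tail (M.ph (M.ph y.1)) ∈ C
      · rw [if_neg hx, if_pos hy] at h1
        have h2 := M.ph.injective h1
        have h3 := y.2
        rw [← h2] at h3
        exact absurd h3 hx
      · rw [if_neg hx, if_neg hy] at h1
        exact M.ph.injective (M.ph.injective h1)
  exact ⟨Equiv.ofBijective f (Finite.injective_iff_bijective.1 hinj), hf1⟩

theorem card_DC (M : CMap V D) (hM : M.Tri) (C : Finset V) :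
    Fintype.card (M.DC C) + M.fc C ≤ M.tc C := by
  rw [starP_card]
  unfold CMap.fc CMap.tc
  rw [← Finset.card_union_of_disjoint]
  · apply Finset.card_le_card
    intro x hx
    simp only [Finset.mem_union, Finset.mem_filter, Finset.mem_univ, true_and] at hx ⊢
    tauto
  · rw [Finset.disjoint_left]
    intro x hx hx2
    simp only [Finset.mem_filter, Finset.mem_univ, true_and] at hx hx2
    tauto

theorem card_DC_le (M : CMap V D) (C : Finset V) (αC : Equiv.Perm (M.DC C))
    (hα : ∀ x, (αC x).1 = M.al x.1) : Fintype.card (M.DC C) ≤ 2 * ncyc αC := by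
  apply card_le_mul_ncyc αC 2 two_pos
  intro x
  apply DC_ext
  rw [pow_two, Equiv.Perm.mul_apply, hα, hα]
  exact M.al_al x.1

theorem tc_le (M : CMap V D) (hM : M.Tri) (C : Finset V) (φC : Equiv.Perm (M.DC C))
    (hφ : ∀ x, (φC x).1 =
      if M.tail (M.ph x.1) ∈ C ∨ M.tail (M.ph (M.ph x.1)) ∈ C then M.ph x.1 else M.ph (M.ph x.1)) :
    M.tc C ≤ 3 * ncyc φC := by
  have hP : ∀ x : D, (M.tail (M.ph x) ∈ C ∨ M.tail (M.ph (M.ph x)) ∈ C ∨
      M.tail (M.ph (M.ph (M.ph x))) ∈ C) ↔
      (M.tail x ∈ C ∨ M.tail (M.ph x) ∈ C ∨ M.tail (M.ph (M.ph x)) ∈ C) := by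
    intro x
    rw [hM.1]
    tauto
  let P : D → Prop := fun x => M.tail x ∈ C ∨ M.tail (M.ph x) ∈ C ∨ M.tail (M.ph (M.ph x)) ∈ C
  let π : Equiv.Perm {x : D // P x} := M.ph.subtypePerm (p := P) hP
  have hπ : ∀ x : {x : D // P x}, (π x).1 = M.ph x.1 := fun x => rfl
  have h1 : M.tc C = Fintype.card {x : D // P x} := by
    unfold CMap.tc
    rw [← Fintype.card_coe]
    refine Fintype.card_congr (Equiv.subtypeEquivRight fun x => ?_)
    simp [P]
  have h2 : Fintype.card {x : D // P x} ≤ 3 * ncyc π := by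
    apply card_le_mul_ncyc π 3 (by norm_num)
    intro x
    apply Subtype.ext
    rw [pow_succ, pow_two, Equiv.Perm.mul_apply, Equiv.Perm.mul_apply, hπ, hπ, hπ]
    exact hM.1 x.1
  have hDC : ∀ x : M.DC C, P x.1 := by
    intro x
    rcases x.2 with h | h
    · exact Or.inl h
    · exact Or.inr (Or.inl h)
  have hsc : ∀ x : {x : D // P x}, π.SameCycle (π x) x := by
    intro x
    rw [Equiv.Perm.sameCycle_apply_left]
  let c : M.DC C → Quotient (Equiv.Perm.SameCycle.setoid π) := fun x =>
    Quotient.mk _ ⟨x.1, hDC x⟩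
  have h3 : Nat.card (Quotient (Equiv.Perm.SameCycle.setoid π)) ≤ ncyc φC := by
    apply le_ncyc φC c
    · intro x
      apply Quotient.sound
      show π.SameCycle ⟨(φC x).1, hDC (φC x)⟩ ⟨x.1, hDC x⟩
      have h4 := hφ x
      by_cases h : M.tail (M.ph x.1) ∈ C ∨ M.tail (M.ph (M.ph x.1)) ∈ C
      · rw [if_pos h] at h4
        have h5 : (⟨(φC x).1, hDC (φC x)⟩ : {x : D // P x}) = π ⟨x.1, hDC x⟩ := by
          apply Subtype.ext
          rw [hπ]
          exact h4
        rw [h5]
        exact hsc _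
      · rw [if_neg h] at h4
        have h5 : (⟨(φC x).1, hDC (φC x)⟩ : {x : D // P x}) = π (π ⟨x.1, hDC x⟩) := by
          apply Subtype.ext
          rw [hπ, hπ]
          exact h4
        rw [h5]
        exact (hsc _).trans (hsc _)
    · intro q
      induction q using Quotient.inductionOn with
      | h x =>
        by_cases h : M.tail x.1 ∈ C ∨ M.tail (M.ph x.1) ∈ C
        · exact ⟨mkDC M C x.1 h, rfl⟩
        · have h4 : M.tail (M.ph (M.ph x.1)) ∈ C := by
            rcases x.2 with h5 | h5 | h5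
            · exact absurd (Or.inl h5) h
            · exact absurd (Or.inr h5) h
            · exact h5
          refine ⟨mkDC M C (M.ph x.1) (Or.inr h4), ?_⟩
          apply Quotient.sound
          show π.SameCycle (π x) x
          exact hsc x
  have h6 : ncyc π = Nat.card (Quotient (Equiv.Perm.SameCycle.setoid π)) := rfl
  omega

end Pool.Agent.Work.MP_5ce8c0_co.FH
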