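import Pool.Agent.Work.MP_5ce8c0_co.FH.Perm

set_option autoImplicit false

/-!
# FH/SwitchA (M): vertices which are near but not at a switch

A dart `x` crosses `S` if `¬ (tail x ∈ S ↔ tail (ph x) ∈ S)`. Let `v = n y`, not in the image of the switching darts; we may assume `tail y ∈ S`, `tail (ph y) ∉ S` (replace `y` by `al y`,
`tail (ph (al y)) = tail y`, use `hsym`).
Case `v = tail y`. Property `P z`: `tail z = v`, `tail (ph z) ∉ S`, `n z = v`. Such a `z` is not in `swset`, so (`v ∈ S`, `n z ≠ tail (ph z)`) the third corner `tail (ph (ph z))` is not in `S` and `n (ph (ph z)) = v`.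
Let `z' = al (ph (ph z))`: `tail z' = tail (ph (ph (ph z))) = v`, `tail (ph z') = tail (ph (ph z)) ∉ S`, `n z' = v` by `hsym`. And `(ph * al) z' = z`. So `P` is preserved by the inverse of `ph * al`
(equivalently, by finiteness, by `ph * al`), so it holds on the whole cycle, which consists of all darts with tail `v` (`M.vert`).
Case `v = tail (ph y)`. Property `Q w` for a dart `w`: `tail w = v`, `tail (ph w) ∈ S`, `n w = v`; it holds for `w = al y`. If `Q w` then `z = al w` has `tail z ∈ S`, `tail (ph z) = v ∉ S`, `n z = v ≠ tail z`, and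
`z ∉ swset`, so the third corner `tail (ph (ph z))` is in `S` and `n (ph z) = v`: `Q (ph z)`, and `ph z = (ph * al) w`. So `Q` holds on the whole cycle of `ph * al`.
-/

namespace Pool.Agent.Work.MP_5ce8c0_co.FH

open Classical

variable {V D : Type} [Fintype V] [Fintype D]

private theorem sw_mem (M : CMap V D) (S : Finset V) (n : D → V) (z : D) :
    z ∈ M.swset S n ↔ M.tail z ∈ S ∧ M.tail (M.ph z) ∉ S ∧
    (M.tail (M.ph (M.ph z)) ∈ S → ¬ (n z = M.tail (M.ph z) ∧ n (M.ph z) = M.tail (M.ph z))) ∧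
    (M.tail (M.ph (M.ph z)) ∉ S → ¬ (n z = M.tail z ∧ n (M.ph (M.ph z)) = M.tail z)) := by
  unfold CMap.swset
  rw [Finset.mem_filter]
  exact ⟨fun h => h.2, fun h => ⟨Finset.mem_univ z, h⟩⟩

private theorem iso_aux (M : CMap V D) (hM : M.Tri) (S : Finset V) (n : D → V)
    (hn : ∀ x, ¬ (M.tail x ∈ S ↔ M.tail (M.ph x) ∈ S) → n x = M.tail x ∨ n x = M.tail (M.ph x))
    (hsym : ∀ x, ¬ (M.tail x ∈ S ↔ M.tail (M.ph x) ∈ S) → n (M.al x) = n x)
    (y : D) (hy1 : M.tail y ∈ S) (hy2 : M.tail (M.ph y) ∉ S) (hv : n y ∉ (M.swset S n).image n) :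
    ∀ x, M.tail x = n y → ¬ (M.tail x ∈ S ↔ M.tail (M.ph x) ∈ S) ∧ n x = n y := by
  have hcr : ∀ z, M.tail z ∈ S → M.tail (M.ph z) ∉ S → ¬ (M.tail z ∈ S ↔ M.tail (M.ph z) ∈ S) :=
    fun z h1 h2 h3 => h2 (h3.1 h1)
  have hcr' : ∀ z, M.tail z ∉ S → M.tail (M.ph z) ∈ S → ¬ (M.tail z ∈ S ↔ M.tail (M.ph z) ∈ S) :=
    fun z h1 h2 h3 => h1 (h3.2 h2)
  have hns : ∀ z, n z = n y → z ∉ M.swset S n := fun z h1 h2 =>
    hv (Finset.mem_image.2 ⟨z, h2, h1⟩)
  have htal : ∀ z, M.tail (M.ph (M.al z)) = M.tail z := fun z => by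
    rw [M.tail_ph, M.al_al]
  rcases hn y (hcr y hy1 hy2) with hvy | hvy
  · -- the near end is in S
    have key : ∀ z, (M.tail z = n y ∧ M.tail (M.ph z) ∉ S ∧ n z = n y) →
        (M.tail ((M.ph * M.al)⁻¹ z) = n y ∧ M.tail (M.ph ((M.ph * M.al)⁻¹ z)) ∉ S ∧
          n ((M.ph * M.al)⁻¹ z) = n y) := by
      rintro z ⟨h1, h2, h3⟩
      have hzS : M.tail z ∈ S := by rw [h1, hvy]; exact hy1
      have h4 := hns z h3
      rw [sw_mem] at h4
      have h5 : M.tail (M.ph (M.ph z)) ∉ S ∧ n (M.ph (M.ph z)) = n y := by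
        by_contra h6
        apply h4
        refine ⟨hzS, h2, fun _ h7 => ?_, fun h7 h8 => ?_⟩
        · apply h2
          rw [← h7.1, h3, ← h1]
          exact hzS
        · apply h6
          exact ⟨h7, by rw [h8.2, h1]⟩
      have h6 : (M.ph * M.al)⁻¹ z = M.al (M.ph (M.ph z)) := by
        rw [Equiv.Perm.inv_eq_iff_eq, Equiv.Perm.mul_apply, M.al_al, hM.1]
      rw [h6]
      have h7 : M.tail (M.al (M.ph (M.ph z))) = n y := by
        rw [← M.tail_ph, hM.1, h1]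
      refine ⟨h7, ?_, ?_⟩
      · rw [htal]
        exact h5.1
      · rw [hsym _ (hcr' _ h5.1 ?_)]
        · exact h5.2
        · rw [hM.1]
          exact hzS
    intro x hx
    have h1 : (M.ph * M.al)⁻¹.SameCycle y x :=
      Equiv.Perm.sameCycle_inv.2 (M.vert y x (by rw [hx, hvy]))
    by_contra hcon
    obtain ⟨z, -, h2, h3⟩ := exists_exit (M.ph * M.al)⁻¹
      (fun z => M.tail z = n y ∧ M.tail (M.ph z) ∉ S ∧ n z = n y) h1 ⟨hvy.symm, hy2, rfl⟩
      (fun h4 => hcon ⟨hcr x (by rw [h4.1, hvy]; exact hy1) h4.2.1, h4.2.2⟩)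
    exact h3 (key z h2)
  · -- the near end is not in S
    have key : ∀ w, (M.tail w = n y ∧ M.tail (M.ph w) ∈ S ∧ n w = n y) →
        (M.tail ((M.ph * M.al) w) = n y ∧ M.tail (M.ph ((M.ph * M.al) w)) ∈ S ∧
          n ((M.ph * M.al) w) = n y) := by
      rintro w ⟨h1, h2, h3⟩
      have hwS : M.tail w ∉ S := by rw [h1, hvy]; exact hy2
      have hz1 : M.tail (M.al w) ∈ S := by rw [← M.tail_ph]; exact h2
      have hz2 : M.tail (M.ph (M.al w)) = n y := by rw [htal, h1]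
      have hz2' : M.tail (M.ph (M.al w)) ∉ S := by rw [htal]; exact hwS
      have hz3 : n (M.al w) = n y := by rw [hsym w (hcr' w hwS h2), h3]
      have h4 := hns (M.al w) hz3
      rw [sw_mem] at h4
      have h5 : M.tail (M.ph (M.ph (M.al w))) ∈ S ∧ n (M.ph (M.al w)) = n y := by
        by_contra h6
        apply h4
        refine ⟨hz1, hz2', fun h7 h8 => ?_, fun _ h7 => ?_⟩
        · apply h6
          exact ⟨h7, by rw [h8.2, hz2]⟩
        · apply hz2'
          rw [hz2, ← hz3, h7.1]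
          exact hz1
      rw [Equiv.Perm.mul_apply]
      exact ⟨hz2, h5.1, h5.2⟩
    intro x hx
    have hal : M.tail (M.al y) = n y := by rw [← M.tail_ph, hvy]
    have h1 : (M.ph * M.al).SameCycle (M.al y) x := M.vert _ _ (by rw [hal, hx])
    by_contra hcon
    obtain ⟨z, -, h2, h3⟩ := exists_exit (M.ph * M.al)
      (fun z => M.tail z = n y ∧ M.tail (M.ph z) ∈ S ∧ n z = n y) h1
      ⟨hal, by rw [htal]; exact hy1, hsym y (hcr y hy1 hy2)⟩
      (fun h4 => hcon ⟨hcr' x (by rw [h4.1, hvy]; exact hy2) h4.2.1, h4.2.2⟩)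
    exact h3 (key z h2)

theorem iso_of_not_mem (M : CMap V D) (hM : M.Tri) (S : Finset V) (n : D → V)
    (hn : ∀ x, ¬ (M.tail x ∈ S ↔ M.tail (M.ph x) ∈ S) → n x = M.tail x ∨ n x = M.tail (M.ph x))
    (hsym : ∀ x, ¬ (M.tail x ∈ S ↔ M.tail (M.ph x) ∈ S) → n (M.al x) = n x)
    (y : D) (hy : ¬ (M.tail y ∈ S ↔ M.tail (M.ph y) ∈ S)) (hv : n y ∉ (M.swset S n).image n) :
    ∀ x, M.tail x = n y → ¬ (M.tail x ∈ S ↔ M.tail (M.ph x) ∈ S) ∧ n x = n y := by
  by_cases h1 : M.tail y ∈ S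
  · exact iso_aux M hM S n hn hsym y h1 (fun h2 => hy ⟨fun _ => h2, fun _ => h1⟩) hv
  · have h2 : M.tail (M.ph y) ∈ S := by
      by_contra h2
      exact hy ⟨fun h3 => absurd h3 h1, fun h3 => absurd h3 h2⟩
    have h3 := hsym y hy
    have h4 := iso_aux M hM S n hn hsym (M.al y) (by rw [← M.tail_ph]; exact h2)
      (by rw [M.tail_ph, M.al_al]; exact h1) (by rw [h3]; exact hv)
    rw [h3] at h4
    exact h4

end Pool.Agent.Work.MP_5ce8c0_co.FH
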