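import Pool.Agent.Work.MP_5ce8c0_co.FH.Chord

set_option autoImplicit false

/-!
# FH/Triang (M): triangulating a map by good chords

`three_ncyc_le`: every cycle of `ph` has at least three elements `y, ph y, ph (ph y)` (distinct by `h1`, `h2`); e.g. choose representatives and an injection
`Quotient × Fin 3 → D`, or `Finset.card` of fibres (see `sum_le` in MP_85d607_co/Euler.lean).
`triang`: induction on `6 |V| - card D` (by `three_ncyc_le` and `hE`: `card D ≤ 2 |V| + 2 (card D) / 3`, so `card D ≤ 6 |V|`). If all faces are triangles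
(`ph (ph (ph x)) = x` for all `x`) take `M' = M`. Otherwise let `ph (ph (ph x0)) ≠ x0`. On the (finite) cycle of `x0` under `ph` choose a dart `x` for which `f (tail (ph x))` is maximal; `ph³ x ≠ x` (otherwise
`ph³` is the identity on the whole cycle). `u = tail x`, `v = tail (ph x)`, `w = tail (ph (ph x))`: `Q u v`, `Q v w`, `f u ≤ f v` (`u = tail (ph (ph⁻¹ x))`),
`f w ≤ f v`, so `Q u w` by `hear`. Apply `chord` and the induction hypothesis to the new map (`D ⊕ Bool`, two more darts, at least one more face): its darts satisfy `Q` (new darts by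
`hQs`), `tail (ph y) = tail (al y)` for all maps.
-/

namespace Pool.Agent.Work.MP_5ce8c0_co.FH

open Classical

variable {V : Type} [Fintype V]

theorem three_ncyc_le {D : Type} [Fintype D] (π : Equiv.Perm D) (h1 : ∀ y, π y ≠ y) (h2 : ∀ y, π (π y) ≠ y) :
    3 * ncyc π ≤ Fintype.card D := by
  have : Fintype (Quotient (Equiv.Perm.SameCycle.setoid π)) := Fintype.ofFinite _
  let F : Quotient (Equiv.Perm.SameCycle.setoid π) × Fin 3 → D :=
    fun p => (π ^ (p.2 : ℕ)) p.1.out
  have hF : Function.Injective F := by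
    rintro ⟨q, i⟩ ⟨q', j⟩ h
    have h0 : (π ^ (i : ℕ)) q.out = (π ^ (j : ℕ)) q'.out := h
    have hq : q = q' := by
      rw [← Quotient.out_eq q, ← Quotient.out_eq q']
      refine Quotient.sound ?_
      show Equiv.Perm.SameCycle π q.out q'.out
      rw [← Equiv.Perm.sameCycle_pow_left (n := (i : ℕ)), h0, Equiv.Perm.sameCycle_pow_left]
    subst hq
    have e1 : q.out ≠ π q.out := (h1 _).symm
    have e2 : q.out ≠ π (π q.out) := (h2 _).symm
    have e3 : π q.out ≠ π (π q.out) := (h1 _).symm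
    have hij : i = j := by
      fin_cases i <;> fin_cases j <;>
        simp_all [pow_two, Equiv.Perm.mul_apply]
    rw [hij]
  have hcard := Fintype.card_le_of_injective F hF
  rw [Fintype.card_prod, Fintype.card_fin] at hcard
  rw [ncyc, Nat.card_eq_fintype_card]
  omega

theorem triang {D : Type} [Fintype D] (M : CMap V D) (h1 : ∀ y, M.ph y ≠ y) (h2 : ∀ y, M.ph (M.ph y) ≠ y)
    (hE : Fintype.card D ≤ 2 * Fintype.card V + 2 * ncyc M.ph) (Q : V → V → Prop) (f : V → ℤ)
    (hQs : ∀ u v, Q u v → Q v u)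
    (hear : ∀ u v w, Q u v → Q v w → f u ≤ f v → f w ≤ f v → Q u w)
    (hQ : ∀ x, Q (M.tail x) (M.tail (M.ph x))) :
    ∃ (D' : Type) (_ : Fintype D') (M' : CMap V D'), M'.Tri ∧ Fintype.card D' ≤ 6 * Fintype.card V ∧
      (∀ x, ∃ y, M'.tail y = M.tail x ∧ M'.tail (M'.ph y) = M.tail (M.ph x)) ∧
      ∀ x, Q (M'.tail x) (M'.tail (M'.ph x)) := by
  suffices H : ∀ (n : ℕ) (D : Type) [Fintype D] (M : CMap V D),
      6 * Fintype.card V - Fintype.card D ≤ n → (∀ y, M.ph y ≠ y) → (∀ y, M.ph (M.ph y) ≠ y) →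
      Fintype.card D ≤ 2 * Fintype.card V + 2 * ncyc M.ph →
      (∀ x, Q (M.tail x) (M.tail (M.ph x))) →
      ∃ (D' : Type) (_ : Fintype D') (M' : CMap V D'), M'.Tri ∧
        Fintype.card D' ≤ 6 * Fintype.card V ∧
        (∀ x, ∃ y, M'.tail y = M.tail x ∧ M'.tail (M'.ph y) = M.tail (M.ph x)) ∧
        ∀ x, Q (M'.tail x) (M'.tail (M'.ph x)) from H _ D M le_rfl h1 h2 hE hQ
  intro n
  induction n with
  | zero =>
    intro D _ M hn h1 h2 hE hQ
    by_cases h3 : ∀ x, M.ph (M.ph (M.ph x)) = x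
    · have hb := three_ncyc_le M.ph h1 h2
      exact ⟨D, _, M, ⟨h3, h1⟩, by omega, fun x => ⟨x, rfl, rfl⟩, hQ⟩
    · exfalso
      push Not at h3
      obtain ⟨x, hx⟩ := h3
      obtain ⟨M', k1, k2, k3, -, -, -, -, -⟩ := chord M x h1 h2 hx
      have hb := three_ncyc_le M'.ph k1 k2
      have hc : Fintype.card (D ⊕ Bool) = Fintype.card D + 2 := by
        rw [Fintype.card_sum, Fintype.card_bool]
      rw [hc] at hb
      omega
  | succ n ih =>
    intro D _ M hn h1 h2 hE hQ
    by_cases h3 : ∀ x, M.ph (M.ph (M.ph x)) = x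
    · have hb := three_ncyc_le M.ph h1 h2
      exact ⟨D, _, M, ⟨h3, h1⟩, by omega, fun x => ⟨x, rfl, rfl⟩, hQ⟩
    · push Not at h3
      obtain ⟨x0, hx0⟩ := h3
      -- the dart of the cycle with maximal value
      obtain ⟨x, hxS, hmax⟩ := Finset.exists_max_image
        (Finset.univ.filter fun y => M.ph.SameCycle x0 y) (fun y => f (M.tail (M.ph y)))
        ⟨x0, Finset.mem_filter.2 ⟨Finset.mem_univ _, Equiv.Perm.SameCycle.refl _ _⟩⟩
      have hxc : M.ph.SameCycle x0 x := (Finset.mem_filter.1 hxS).2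
      have hmax' : ∀ y, M.ph.SameCycle x0 y → f (M.tail (M.ph y)) ≤ f (M.tail (M.ph x)) :=
        fun y hy => hmax y (Finset.mem_filter.2 ⟨Finset.mem_univ _, hy⟩)
      have hx3 : M.ph (M.ph (M.ph x)) ≠ x := by
        intro hc
        apply hx0
        obtain ⟨i, rfl⟩ := hxc
        have e1 : M.ph (M.ph (M.ph ((M.ph ^ i) x0))) = (M.ph ^ i) (M.ph (M.ph (M.ph x0))) := by
          have e2 : M.ph ^ 3 * M.ph ^ i = M.ph ^ i * M.ph ^ 3 :=
            ((Commute.refl M.ph).pow_left 3).zpow_right i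
          have e3 := congrArg (fun g : Equiv.Perm D => g x0) e2
          simpa [pow_succ, Equiv.Perm.mul_apply] using e3
        rw [e1] at hc
        exact (M.ph ^ i).injective hc
      have hfu : f (M.tail x) ≤ f (M.tail (M.ph x)) := by
        have h4 := hmax' (M.ph.symm x) (by
          obtain ⟨i, hi⟩ := hxc
          refine ⟨i - 1, ?_⟩
          rw [Equiv.eq_symm_apply, ← hi, ← Equiv.Perm.mul_apply, ← zpow_one_add]
          congr 2
          ring)
        rwa [Equiv.apply_symm_apply] at h4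
      have hfw : f (M.tail (M.ph (M.ph x))) ≤ f (M.tail (M.ph x)) :=
        hmax' (M.ph x) (Equiv.Perm.sameCycle_apply_right.2 hxc)
      have hquw : Q (M.tail x) (M.tail (M.ph (M.ph x))) :=
        hear _ _ _ (hQ x) (hQ (M.ph x)) hfu hfw
      obtain ⟨M', k1, k2, k3, k4, k5, k6, k7, k8⟩ := chord M x h1 h2 hx3
      have hb := three_ncyc_le M'.ph k1 k2
      have hc : Fintype.card (D ⊕ Bool) = Fintype.card D + 2 := by
        rw [Fintype.card_sum, Fintype.card_bool]
      have hE' : Fintype.card (D ⊕ Bool) ≤ 2 * Fintype.card V + 2 * ncyc M'.ph := by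
        rw [hc]
        omega
      have hn' : 6 * Fintype.card V - Fintype.card (D ⊕ Bool) ≤ n := by
        rw [hc] at hb hE' ⊢
        omega
      have k9 : M'.al (Sum.inr false) = Sum.inr true := by
        rw [← k8, M'.al_al]
      have k10 : ∀ y : D, M'.tail (M'.ph (Sum.inl y)) = M.tail (M.ph y) := by
        intro y
        rw [M'.tail_ph, k5, k4, M.tail_ph]
      have hQ' : ∀ y, Q (M'.tail y) (M'.tail (M'.ph y)) := by
        rintro (y | b)
        · rw [k10, k4]
          exact hQ y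
        · cases b
          · rw [M'.tail_ph, k9, k6, k7]
            exact hQs _ _ hquw
          · rw [M'.tail_ph, k8, k6, k7]
            exact hquw
      obtain ⟨D', i', M'', m1, m2, m3, m4⟩ := ih (D ⊕ Bool) M' hn' k1 k2 hE' hQ'
      refine ⟨D', i', M'', m1, m2, fun y => ?_, m4⟩
      obtain ⟨z, hz1, hz2⟩ := m3 (Sum.inl y)
      exact ⟨z, hz1.trans (k4 y), hz2.trans (k10 y)⟩

end Pool.Agent.Work.MP_5ce8c0_co.FH
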