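import Pool.Agent.Work.MP_5ce8c0_co.FH.LevelB
import Pool.Agent.Work.MP_5ce8c0_co.FH.LevelS

set_option autoImplicit false

/-!
# FH/WSum (M): the weight of a level

`M.W wt A = ∑ x, wt (tail x) (tail (ph x)) (tail (ph (ph x))) A`.
`w_le`: pointwise, `wt a b c A ≤ 2` if all corners are in `A`, `≤ 1` if exactly two corners are in `A`, `= 0` otherwise (a repeated corner counts twice); the number of darts `x` whose face has exactly two corners
in `A` is `3 f2 A` (three rotations of the condition, `ph` is a bijection). `w_le_small` (`|A| ≤ 2`): if all three corners are in `A` two of them coincide, so the weight is at most `1`.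
`w_le_deg`: one triangle with all corners in `A` and a repeated corner has three darts of weight at most `1` (instead of 2).
`w_level`: `|A| ≥ 4`: `w_le` and `level_big`. `|A| ≤ 2`: `w_le_small` and `level_small` (`6 |A| + 6 ≤ 12 |A|`). `|A| = 3`: `level_three`; in the second case either some triangle with all
corners in `A` has a repeated corner (then `w_le_deg`: `≤ 39 - 3`) or there is no dart with both ends in `A` and equal ends (third corner in `A` or not).
`w_single`: a triangle of positive weight at the level `{u}` has `u` as a repeated corner, so one of its three darts is a loop at `u`.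
-/

namespace Pool.Agent.Work.MP_5ce8c0_co.FH

open Classical

variable {V D : Type} [Fintype V] [Fintype D]

private theorem wt_le (a b c : V) (A : Finset V) : wt a b c A ≤
    2 * (if a ∈ A ∧ b ∈ A ∧ c ∈ A then 1 else 0) + (if a ∈ A ∧ b ∈ A ∧ c ∉ A then 1 else 0) +
    (if b ∈ A ∧ c ∈ A ∧ a ∉ A then 1 else 0) + (if c ∈ A ∧ a ∈ A ∧ b ∉ A then 1 else 0) := by
  unfold wt
  by_cases ha : a ∈ A <;> by_cases hb : b ∈ A <;> by_cases hc : c ∈ A <;>
    simp only [ha, hb, hc, true_and, and_true, not_true_eq_false, not_false_eq_true, and_false,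
      false_and, if_true, if_false, or_false, false_or, or_true, true_or, or_self] <;>
    split_ifs <;> simp_all

private theorem wt_le_small (a b c : V) (A : Finset V) (hA : A.card ≤ 2) : wt a b c A ≤
    (if a ∈ A ∧ b ∈ A ∧ c ∈ A then 1 else 0) + (if a ∈ A ∧ b ∈ A ∧ c ∉ A then 1 else 0) +
    (if b ∈ A ∧ c ∈ A ∧ a ∉ A then 1 else 0) + (if c ∈ A ∧ a ∈ A ∧ b ∉ A then 1 else 0) := by
  by_cases h3 : a ≠ b ∧ b ≠ c ∧ a ≠ c ∧ a ∈ A ∧ b ∈ A ∧ c ∈ A
  · exfalso
    obtain ⟨h1, h2, h3, ha, hb, hc⟩ := h3
    have h4 : ({a, b, c} : Finset V).card = 3 := Finset.card_eq_three.2 ⟨a, b, c, h1, h3, h2, rfl⟩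
    have h5 : ({a, b, c} : Finset V) ⊆ A := by
      intro x hx
      simp only [Finset.mem_insert, Finset.mem_singleton] at hx
      rcases hx with rfl | rfl | rfl <;> assumption
    have := Finset.card_le_card h5
    omega
  · unfold wt
    by_cases ha : a ∈ A <;> by_cases hb : b ∈ A <;> by_cases hc : c ∈ A <;>
      simp only [ha, hb, hc, true_and, and_true, not_true_eq_false, not_false_eq_true, and_false,
        false_and, if_true, if_false, or_false, false_or, or_true, true_or, or_self] at h3 ⊢ <;>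
      split_ifs <;> simp_all

private theorem wt_deg1 (a c : V) (A : Finset V) : wt a a c A ≤ 1 := by
  unfold wt
  by_cases h : a = c
  · simp [h]
  · by_cases h1 : a ∈ A <;> simp [h, h1]

private theorem wt_deg2 (a c : V) (A : Finset V) : wt a c a A ≤ 1 := by
  unfold wt
  by_cases h : a = c
  · simp [h]
  · have h' : ¬ c = a := fun e => h e.symm
    by_cases h1 : a ∈ A <;> simp [h, h', h1]

private theorem wt_deg3 (a c : V) (A : Finset V) : wt c a a A ≤ 1 := by
  unfold wt
  by_cases h : a = c
  · simp [h]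
  · have h' : ¬ c = a := fun e => h e.symm
    by_cases h1 : a ∈ A <;> simp [h', h1]

private theorem t3_sum (M : CMap V D) (A : Finset V) : M.t3 A =
    ∑ x : D, (if M.tail x ∈ A ∧ M.tail (M.ph x) ∈ A ∧ M.tail (M.ph (M.ph x)) ∈ A then 1 else 0) := by
  unfold CMap.t3
  rw [Finset.card_filter]

private theorem f2_sum (M : CMap V D) (A : Finset V) : M.f2 A =
    ∑ x : D, (if M.tail x ∈ A ∧ M.tail (M.ph x) ∈ A ∧ M.tail (M.ph (M.ph x)) ∉ A then 1 else 0) := by
  unfold CMap.f2
  rw [Finset.card_filter]

private theorem f2_sum1 (M : CMap V D) (hM : M.Tri) (A : Finset V) : M.f2 A =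
    ∑ x : D, (if M.tail (M.ph x) ∈ A ∧ M.tail (M.ph (M.ph x)) ∈ A ∧ M.tail x ∉ A then 1 else 0) := by
  rw [f2_sum, ← Equiv.sum_comp M.ph]
  refine Finset.sum_congr rfl fun x _ => ?_
  rw [hM.1 x]

private theorem f2_sum2 (M : CMap V D) (hM : M.Tri) (A : Finset V) : M.f2 A =
    ∑ x : D, (if M.tail (M.ph (M.ph x)) ∈ A ∧ M.tail x ∈ A ∧ M.tail (M.ph x) ∉ A then 1 else 0) := by
  rw [f2_sum1 M hM, ← Equiv.sum_comp M.ph]
  refine Finset.sum_congr rfl fun x _ => ?_
  rw [hM.1 x]

theorem w_le (M : CMap V D) (hM : M.Tri) (A : Finset V) : M.W wt A ≤ 2 * M.t3 A + 3 * M.f2 A := by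
  have h : M.W wt A ≤ 2 * M.t3 A + M.f2 A + M.f2 A + M.f2 A := by
    conv_rhs => rw [t3_sum]
    conv_rhs =>
      congr
      · congr
        · congr
          · skip
          · rw [f2_sum]
        · rw [f2_sum1 M hM]
      · rw [f2_sum2 M hM]
    rw [Finset.mul_sum, ← Finset.sum_add_distrib, ← Finset.sum_add_distrib,
      ← Finset.sum_add_distrib]
    exact Finset.sum_le_sum fun x _ => wt_le _ _ _ A
  omega

theorem w_le_small (M : CMap V D) (hM : M.Tri) (A : Finset V) (hA : A.card ≤ 2) :
    M.W wt A ≤ M.t3 A + 3 * M.f2 A := by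
  have h : M.W wt A ≤ M.t3 A + M.f2 A + M.f2 A + M.f2 A := by
    conv_rhs => rw [t3_sum]
    conv_rhs =>
      congr
      · congr
        · congr
          · skip
          · rw [f2_sum]
        · rw [f2_sum1 M hM]
      · rw [f2_sum2 M hM]
    rw [← Finset.sum_add_distrib, ← Finset.sum_add_distrib,
      ← Finset.sum_add_distrib]
    exact Finset.sum_le_sum fun x _ => wt_le_small _ _ _ A hA
  omega

theorem w_le_deg (M : CMap V D) (hM : M.Tri) (A : Finset V) (x : D) (h1 : M.tail x ∈ A) (h2 : M.tail (M.ph x) ∈ A)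
    (h3 : M.tail (M.ph (M.ph x)) ∈ A) (h4 : M.tail x = M.tail (M.ph x)) :
    M.W wt A + 3 ≤ 2 * M.t3 A + 3 * M.f2 A := by
  have e1 : M.ph x ≠ x := hM.2 x
  have e2 : M.ph (M.ph x) ≠ M.ph x := hM.2 _
  have e3 : M.ph (M.ph x) ≠ x := by
    intro h
    have := hM.1 x
    rw [h] at this
    exact e1 this
  have hc : ∑ y : D, (if y ∈ ({x, M.ph x, M.ph (M.ph x)} : Finset D) then 1 else 0) = 3 := by
    rw [Finset.sum_ite_mem, Finset.univ_inter, Finset.sum_const, smul_eq_mul, mul_one]
    exact Finset.card_eq_three.2 ⟨x, M.ph x, M.ph (M.ph x), e1.symm, e3.symm, e2.symm, rfl⟩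
  have h : M.W wt A + 3 ≤ 2 * M.t3 A + M.f2 A + M.f2 A + M.f2 A := by
    rw [← hc]
    conv_rhs => rw [t3_sum]
    conv_rhs =>
      congr
      · congr
        · congr
          · skip
          · rw [f2_sum]
        · rw [f2_sum1 M hM]
      · rw [f2_sum2 M hM]
    rw [Finset.mul_sum, ← Finset.sum_add_distrib, ← Finset.sum_add_distrib,
      ← Finset.sum_add_distrib]
    unfold CMap.W
    rw [← Finset.sum_add_distrib]
    refine Finset.sum_le_sum fun y _ => ?_
    by_cases hy : y ∈ ({x, M.ph x, M.ph (M.ph x)} : Finset D)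
    · rw [if_pos hy]
      simp only [Finset.mem_insert, Finset.mem_singleton] at hy
      rcases hy with rfl | rfl | rfl
      · rw [if_pos ⟨h1, h2, h3⟩]
        have : wt (M.tail y) (M.tail (M.ph y)) (M.tail (M.ph (M.ph y))) A ≤ 1 := by
          rw [← h4]
          exact wt_deg1 _ _ _
        omega
      · rw [hM.1 x, if_pos ⟨h2, h3, h1⟩]
        have : wt (M.tail (M.ph x)) (M.tail (M.ph (M.ph x))) (M.tail x) A ≤ 1 := by
          rw [← h4]
          exact wt_deg2 _ _ _
        omega
      · rw [hM.1 x, if_pos ⟨h3, h1, h2⟩]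
        have : wt (M.tail (M.ph (M.ph x))) (M.tail x) (M.tail (M.ph x)) A ≤ 1 := by
          rw [← h4]
          exact wt_deg3 _ _ _
        omega
    · rw [if_neg hy, add_zero]
      exact wt_le _ _ _ A
  omega

/-- every level is good, except levels of three vertices of a special form -/
theorem w_level (G : SimpleGraph V) (hG : FourConn G) (M : CMap V D) (hM : M.Tri) (hH : M.Hosts G)
    (hE : Fintype.card D ≤ 6 * Fintype.card V) (A : Finset V) :
    M.W wt A ≤ 12 * A.card ∨ (A.card = 3 ∧ M.W wt A ≤ 39 ∧ (∃ x, M.tail x ∈ A ∧ M.tail (M.ph x) ∈ A ∧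
      M.tail (M.ph (M.ph x)) ∈ A) ∧ ∀ x, M.tail x ∈ A → M.tail (M.ph x) ∈ A → M.tail x ≠ M.tail (M.ph x)) := by
  rcases Nat.lt_or_ge A.card 4 with h4 | h4
  · rcases Nat.lt_or_ge A.card 3 with h3 | h3
    · left
      have hs := w_le_small M hM A (by omega)
      rcases A.eq_empty_or_nonempty with h0 | h0
      · subst h0
        have e1 : M.t3 ∅ = 0 := by
          rw [t3_sum]
          simp
        have e2 : M.f2 ∅ = 0 := by
          rw [f2_sum]
          simp
        rw [e1, e2] at hs
        omega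
      · have hl := level_small G hG M hM hH hE A h0 (by omega)
        have := h0.card_pos
        omega
    · have hA : A.card = 3 := by omega
      have hw := w_le M hM A
      rcases level_three G hG M hM hH hE A hA with hl | ⟨e1, e2, hl⟩
      · left
        omega
      · by_cases hx : ∃ x, M.tail x ∈ A ∧ M.tail (M.ph x) ∈ A ∧ M.tail (M.ph (M.ph x)) ∈ A ∧
          M.tail x = M.tail (M.ph x)
        · obtain ⟨x, h1, h2, h3, h4⟩ := hx
          have := w_le_deg M hM A x h1 h2 h3 h4
          left
          omega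
        · right
          refine ⟨hA, by omega, ?_, ?_⟩
          · by_contra hn
            have : M.t3 A = 0 := by
              unfold CMap.t3
              rw [Finset.card_eq_zero, Finset.filter_eq_empty_iff]
              intro x _ hx
              exact hn ⟨x, hx⟩
            omega
          · intro x h1 h2 h3
            by_cases h4 : M.tail (M.ph (M.ph x)) ∈ A
            · exact hx ⟨x, h1, h2, h4, h3⟩
            · exact hl x h1 h2 h4 h3
  · left
    have hw := w_le M hM A
    have := level_big G hG M hM hH hE A h4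
    omega

theorem w_single (M : CMap V D) (hM : M.Tri) (u : V) (h : ∀ x, M.tail x = u → M.tail (M.ph x) ≠ u) :
    M.W wt {u} = 0 := by
  unfold CMap.W
  refine Finset.sum_eq_zero fun x _ => ?_
  have h1 := h x
  have h2 := h (M.ph x)
  have h3 := h (M.ph (M.ph x))
  rw [hM.1 x] at h3
  generalize M.tail x = a at *
  generalize M.tail (M.ph x) = b at *
  generalize M.tail (M.ph (M.ph x)) = c at *
  unfold wt
  simp only [Finset.mem_singleton]
  split_ifs with g1 g2 g3 g4 g5 g6 g7 g8 g9
  · rfl
  · exact absurd (g2 ▸ g3) (h1 g3)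
  · rfl
  · exact absurd (g4 ▸ g5) (h2 g5)
  · rfl
  · exact absurd g7 (h3 (g6 ▸ g7))
  · rfl
  · exact absurd g8.2.1 (h1 g8.1)
  · rcases g9 with g | g | g
    · exact absurd g.2 (h1 g.1)
    · exact absurd g.2 (h2 g.1)
    · exact absurd g.1 (h3 g.2)
  · rfl

end Pool.Agent.Work.MP_5ce8c0_co.FH
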